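import Pool.Agent.Helper37K9.RN.Res

/-!
Towers: the residual points.
-/

set_option autoImplicit false
set_option linter.unusedSectionVars false
set_option linter.overlappingInstances false

open Module Polynomial FF Pool.Agent.W602.GT Pool.Agent.Helper37K9.RN

namespace Pool.Agent.Helper37K9.SU

/-- The points `ψ (x)` of the variety on the curves with the points `w`, defined over `L'`, have more
than `B` conjugates over `L`. -/
def Big (L L' K : Type) [Field L] [Field L'] [Field K] [Algebra ℂ L] [Algebra ℂ L'] [Algebra ℂ K]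
    [Algebra L L'] [Algebra L K] {N s : ℕ} (x : Fin N → K) (w : Fin (s + 1) → Fin N → L')
    (B : ℕ) : Prop :=
  ∀ (K'' : Type) [Field K''] [Algebra ℂ K''] [Algebra L K''] [Algebra L' K'']
    [IsScalarTower L L' K''] [IsScalarTower ℂ L' K''] [IsScalarTower ℂ L K'']
    [FiniteDimensional L K''] (ψ : K →ₐ[ℂ] K''),
    (∀ τ : K'' →ₐ[L] AlgebraicClosure K'', ∃ b e : AlgebraicClosure K'',
      ∀ i, τ (ψ (x i)) = e * ∑ k : Fin (s + 1), b ^ (k : ℕ) *
        algebraMap L' (AlgebraicClosure K'') (w k i)) →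
    B < finrank L (IntermediateField.adjoin L (Set.range fun i => ψ (x i)))

section

variable {L L' K K'' : Type} [Field L] [Field L'] [Field K] [Field K''] [Algebra ℂ L]
  [Algebra ℂ L'] [Algebra ℂ K] [Algebra ℂ K''] [Algebra L L'] [Algebra L K] [Algebra L K'']
  [Algebra L' K''] [IsScalarTower ℂ L L'] [IsScalarTower ℂ L K] [IsScalarTower ℂ L K'']
  [IsScalarTower L L' K''] [IsScalarTower ℂ L' K'']
  [FiniteDimensional L K] [FiniteDimensional L K''] [FiniteDimensional L L'] [IsGalois L L']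
  [hessK : Algebra.EssFiniteType ℂ K] {n N s d : ℕ} {x : Fin N → K}

/-- **The residual points.** -/
theorem residual' (hs : 1 ≤ s)
    {i0 : Fin N} (hi0 : x i0 = 1) (hgen : IntermediateField.adjoin ℂ (Set.range x) = ⊤)
    (D : Rnc L' (pts L L' x) s) (hcard : 2 * s < Fintype.card (K →ₐ[L] L'))
    {G : MvPolynomial (Fin N) ℂ} (hG : G.IsHomogeneous d) (hGx : MvPolynomial.aeval x G = 0)
    (hGw : MvPolynomial.aeval (D.w (Fin.last s)) G ≠ 0)
    {B : ℕ} (hdeg : s * d ≤ Fintype.card (K →ₐ[L] L') + B) (hBig : Big L L' K x D.w B)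
    (ρ : K'') (hρ : eval₂ (algebraMap L' K'') ρ (crv D.w i0) ≠ 0)
    (ψ : K →ₐ[ℂ] K'') (hψ : ∀ i, ψ (x i) = eval₂ (algebraMap L' K'') ρ (crv D.w i) /
      eval₂ (algebraMap L' K'') ρ (crv D.w i0)) :
    ∃ σ, ρ = algebraMap L' K'' (D.t σ) := by
  classical
  by_contra hcon
  push Not at hcon
  -- the field generated by the residual point
  obtain ⟨K0, hK0⟩ : ∃ K0 : IntermediateField L K'',
    K0 = IntermediateField.adjoin L (Set.range fun i => ψ (x i)) := ⟨_, rfl⟩
  have hxK0 : ∀ i, ψ (x i) ∈ K0 := fun i => by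
    rw [hK0]
    exact IntermediateField.subset_adjoin L _ ⟨i, rfl⟩
  have hψK0 : ∀ y, ψ y ∈ K0 := by
    intro y
    have h1 : y ∈ IntermediateField.adjoin ℂ (Set.range x) := by
      rw [hgen]
      trivial
    have h2 : IntermediateField.adjoin ℂ (Set.range x) ≤ (K0.restrictScalars ℂ).comap ψ := by
      rw [IntermediateField.adjoin_le_iff]
      rintro _ ⟨i, rfl⟩
      exact hxK0 i
    exact h2 h1
  obtain ⟨ψ0, hψ0⟩ : ∃ ψ0 : K →ₐ[ℂ] K0, ∀ y, (ψ0 y : K'') = ψ y :=
    ⟨AlgHom.codRestrict ψ (K0.restrictScalars ℂ).toSubalgebra hψK0, fun _ => rfl⟩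
  let _ : Algebra K K0 := ψ0.toAlgebra
  have hst : IsScalarTower ℂ K K0 := IsScalarTower.of_algebraMap_eq fun c => (ψ0.commutes c).symm
  -- the extensions of the embeddings
  have hext : ∀ τ : K0 →ₐ[L] AlgebraicClosure K'', ∃ τ' : K'' →ₐ[L] AlgebraicClosure K'',
      ∀ y : K0, τ' (y : K'') = τ y := by
    intro τ
    obtain ⟨τ', hτ'⟩ := IntermediateField.exists_algHom_of_splits (F := L) (E := K'')
      (K := AlgebraicClosure K'') (fun y => ⟨Algebra.IsIntegral.isIntegral y,
        IsAlgClosed.splits _⟩) τ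
    exact ⟨τ', fun y => DFunLike.congr_fun hτ' y⟩
  choose ext hext using hext
  obtain ⟨iΩ, hiΩ⟩ : ∃ iΩ : L' →+* AlgebraicClosure K'',
    iΩ = algebraMap L' (AlgebraicClosure K'') := ⟨_, rfl⟩
  have hg : ∀ τ : K0 →ₐ[L] AlgebraicClosure K'', ∃ g : L' ≃ₐ[L] L', ∀ l : L',
      ext τ (algebraMap L' K'' l) = iΩ (g l) := by
    intro τ
    refine ⟨(AlgEquiv.ofBijective _ (Algebra.IsAlgebraic.algHom_bijective
      (((ext τ).restrictNormal L')))), fun l => ?_⟩
    rw [hiΩ]
    exact ((ext τ).restrictNormal_commutes L' l).symm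
  choose g hg using hg
  obtain ⟨wΩ, hwΩ⟩ : ∃ wΩ : Fin (s + 1) → Fin N → AlgebraicClosure K'',
    wΩ = fun k i => iΩ (D.w k i) := ⟨_, rfl⟩
  have hindΩ : LinearIndependent (AlgebraicClosure K'') wΩ := by
    rw [hwΩ]
    exact ind_ext iΩ D.ind
  have hGiΩ : ∀ v : Fin N → L', MvPolynomial.aeval (fun i => iΩ (v i)) G =
      iΩ (MvPolynomial.aeval v G) := by
    intro v
    rw [hiΩ]
    exact MvPolynomial.aeval_algebraMap_apply (AlgebraicClosure K'') v G
  have hGΩ : MvPolynomial.aeval (wΩ (Fin.last s)) G ≠ 0 := by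
    rw [hwΩ]
    change MvPolynomial.aeval (fun i => iΩ (D.w (Fin.last s) i)) G ≠ 0
    rw [hGiΩ]
    exact (map_ne_zero iΩ).2 hGw
  have hψG : MvPolynomial.aeval (fun i => ψ (x i)) G = 0 := by
    have h1 := MvPolynomial.comp_aeval_apply (φ := ψ) x G
    rw [hGx, map_zero] at h1
    exact h1.symm
  have hGρ : MvPolynomial.aeval (fun i => eval₂ (algebraMap L' K'') ρ (crv D.w i)) G = 0 := by
    have h1 : (fun i => eval₂ (algebraMap L' K'') ρ (crv D.w i)) =
        fun i => eval₂ (algebraMap L' K'') ρ (crv D.w i0) * ψ (x i) := by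
      funext i
      rw [hψ, mul_div_cancel₀ _ hρ]
    rw [h1, Pool.Agent.Y988.NT.aeval_smul_form hG, hψG, mul_zero]
  -- the points are on the curve
  have hpt : ∀ τ : K0 →ₐ[L] AlgebraicClosure K'', ∃ e b : AlgebraicClosure K'', e ≠ 0 ∧
      ∀ i, τ (algebraMap K K0 (x i)) = e * ∑ k : Fin (s + 1), b ^ (k : ℕ) * wΩ k i := by
    intro τ
    obtain ⟨Y, hY1, hY2, -⟩ := conj_curve D hcard (g τ)
    have hval : ∀ i, ext τ (eval₂ (algebraMap L' K'') ρ (crv D.w i)) =
        ∑ k, eval₂ iΩ (ext τ ρ) (Y k) * wΩ k i := by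
      intro i
      have h1 : ext τ (eval₂ (algebraMap L' K'') ρ (crv D.w i)) =
          eval₂ iΩ (ext τ ρ) ((crv D.w i).map (g τ : L' →+* L')) := by
        change (ext τ : K'' →+* AlgebraicClosure K'') _ = _
        rw [hom_eval₂, eval₂_map]
        congr 1
        ext l
        exact hg τ l
      rw [h1, hY1, eval₂_finsetSum]
      refine Finset.sum_congr rfl fun k _ => ?_
      rw [eval₂_mul, eval₂_C, hwΩ]
    have hv0 : ext τ (eval₂ (algebraMap L' K'') ρ (crv D.w i0)) ≠ 0 := by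
      rw [Ne, map_eq_zero]
      exact hρ
    obtain ⟨e', b, he', hb⟩ := curve_point hs hG hGΩ
      (y := fun k => eval₂ iΩ (ext τ ρ) (Y k)) (hY2.map (eval₂RingHom iΩ (ext τ ρ)))
      (v := fun i => ext τ (eval₂ (algebraMap L' K'') ρ (crv D.w i))) hval
      (fun h => hv0 (congrFun h i0)) (by
        have h1 := MvPolynomial.comp_aeval_apply (φ := (ext τ).restrictScalars ℂ)
          (fun i => eval₂ (algebraMap L' K'') ρ (crv D.w i)) G
        rw [hGρ, map_zero] at h1
        exact h1.symm)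
    refine ⟨e' / ext τ (eval₂ (algebraMap L' K'') ρ (crv D.w i0)), b, div_ne_zero he' hv0,
      fun i => ?_⟩
    have h1 : τ (algebraMap K K0 (x i)) = ext τ (ψ (x i)) := by
      rw [← hψ0, hext]
      rfl
    rw [h1, hψ, map_div₀, hb i, div_mul_eq_mul_div]
  choose e b he hb using hpt
  have hτ1 : ∀ τ : K0 →ₐ[L] AlgebraicClosure K'', τ (algebraMap K K0 (x i0)) = 1 := by
    intro τ
    rw [hi0, map_one, map_one]
  have hbinj : Function.Injective b := by
    intro τ τ' hbb
    have h1 := hb τ i0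
    have h2 := hb τ' i0
    rw [hτ1] at h1 h2
    rw [← hbb] at h2
    have h3 : e τ = e τ' := by
      have h4 : (∑ k : Fin (s + 1), b τ ^ (k : ℕ) * wΩ k i0) ≠ 0 := by
        intro h0
        rw [h0, mul_zero] at h1
        exact one_ne_zero h1
      exact mul_right_cancel₀ h4 (h1.symm.trans h2)
    refine IntermediateField.algHom_ext_of_eq_adjoin L hK0 ?_
    rintro _ ⟨i, rfl⟩
    have h4 := hb τ i
    have h5 := hb τ' i
    rw [← hbb, ← h3, ← h4] at h5
    have h6 : (⟨ψ (x i), hxK0 i⟩ : K0) = algebraMap K K0 (x i) := Subtype.ext (hψ0 (x i)).symm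
    change τ ⟨ψ (x i), hxK0 i⟩ = τ' ⟨ψ (x i), hxK0 i⟩
    rw [h6]
    exact h5.symm
  have hGσ : ∀ σ : K →ₐ[L] L', MvPolynomial.aeval (fun i => eval (D.t σ) (crv D.w i)) G = 0 := by
    intro σ
    have h1 : MvPolynomial.aeval (pts L L' x σ) G = 0 := by
      have h2 := MvPolynomial.comp_aeval_apply (φ := σ.restrictScalars ℂ) x G
      rw [hGx, map_zero] at h2
      exact h2.symm
    have h2 : pts L L' x σ = fun i => D.c σ * eval (D.t σ) (crv D.w i) := by
      funext i
      rw [eval_crv]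
      exact D.eq σ i
    rw [h2, Pool.Agent.Y988.NT.aeval_smul_form hG] at h1
    exact (mul_eq_zero.1 h1).resolve_left (pow_ne_zero _ (D.c_ne σ))
  have hne : ∀ τ σ, b τ ≠ iΩ (D.t σ) := by
    intro τ σ hbt
    have h1 : ∀ i, τ (algebraMap K K0 (x i)) = e τ * (iΩ (D.c σ))⁻¹ * iΩ (σ (x i)) := by
      intro i
      rw [hb τ i, hbt]
      have h2 : σ (x i) = D.c σ * ∑ k : Fin (s + 1), D.t σ ^ (k : ℕ) * D.w k i := D.eq σ i
      have h3 : iΩ (D.c σ) ≠ 0 := (map_ne_zero iΩ).2 (D.c_ne σ)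
      rw [h2, map_mul, map_sum, hwΩ, mul_assoc, inv_mul_cancel_left₀ h3]
      congr 1
      refine Finset.sum_congr rfl fun k _ => ?_
      rw [map_mul, map_pow]
    have h2 : e τ * (iΩ (D.c σ))⁻¹ = 1 := by
      have h3 := h1 i0
      rw [hτ1, hi0, map_one, map_one, mul_one] at h3
      exact h3.symm
    have h3 : ∀ i, ψ (x i) = algebraMap L' K'' ((g τ).symm (σ (x i))) := by
      intro i
      apply (ext τ).injective
      change ext τ (ψ (x i)) = ext τ (algebraMap L' K'' ((g τ).symm (σ (x i))))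
      rw [hg, AlgEquiv.apply_symm_apply]
      have h4 := h1 i
      rw [h2, one_mul] at h4
      rw [← h4, ← hψ0, hext]
      rfl
    obtain ⟨σ', hσ'⟩ : ∃ σ' : K →ₐ[L] L', σ' = ((g τ).symm : L' →ₐ[L] L').comp σ := ⟨_, rfl⟩
    refine hcon σ' (param_inj (ind_ext (algebraMap L' K'') D.ind) hs
      (e := eval₂ (algebraMap L' K'') ρ (crv D.w i0) * algebraMap L' K'' (D.c σ')) fun i => ?_)
    have h5 := hψ i
    rw [h3, eq_div_iff hρ] at h5
    have h6 : (g τ).symm (σ (x i)) = D.c σ' * ∑ k : Fin (s + 1), D.t σ' ^ (k : ℕ) * D.w k i := by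
      have h7 := D.eq σ' i
      rw [← h7, hσ']
      rfl
    rw [h6, map_mul, map_sum] at h5
    rw [← eval₂_crv, ← h5]
    have h8 : ∑ k : Fin (s + 1), algebraMap L' K'' (D.t σ') ^ (k : ℕ) *
        algebraMap L' K'' (D.w k i) =
        ∑ k : Fin (s + 1), algebraMap L' K'' (D.t σ' ^ (k : ℕ) * D.w k i) :=
      Finset.sum_congr rfl fun k _ => by rw [map_mul, map_pow]
    rw [h8]
    ring
  -- the number of the residual points
  have hJ1 : B < Fintype.card (K0 →ₐ[L] AlgebraicClosure K'') := by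
    have hcL : CharZero L := charZero_of_injective_algebraMap (algebraMap ℂ L).injective
    rw [AlgHom.card L K0 (AlgebraicClosure K''), hK0]
    refine hBig K'' ψ fun τ => ?_
    refine ⟨b (τ.comp K0.val), e (τ.comp K0.val), fun i => ?_⟩
    have h1 := hb (τ.comp K0.val) i
    rw [hwΩ, hiΩ] at h1
    rw [← h1, ← hψ0]
    rfl
  obtain ⟨f, hf⟩ : ∃ f : (K0 →ₐ[L] AlgebraicClosure K'') ⊕ (K →ₐ[L] L') → AlgebraicClosure K'',
    f = Sum.elim b (fun σ => iΩ (D.t σ)) := ⟨_, rfl⟩
  have hfinj : Function.Injective f := by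
    rw [hf]
    rintro (τ | σ) (τ' | σ') h
    · rw [hbinj h]
    · exact absurd h (hne _ _)
    · exact absurd h.symm (hne _ _)
    · rw [D.t_inj (iΩ.injective h)]
  have hzero := eq_zero_of_natDegree_lt_card_of_eval_eq_zero
    (MvPolynomial.aeval (crv wΩ) G) hfinj (by
      rw [hf]
      rintro (τ | σ)
      · change eval (b τ) _ = 0
        rw [eval_aeval]
        have h1 : MvPolynomial.aeval (fun i => τ (algebraMap K K0 (x i))) G = 0 := by
          have h2 := MvPolynomial.comp_aeval_apply (φ := (τ.restrictScalars ℂ).comp ψ0) x G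
          rw [hGx, map_zero] at h2
          exact h2.symm
        have h2 : (fun i => τ (algebraMap K K0 (x i))) =
            fun i => e τ * eval (b τ) (crv wΩ i) := by
          funext i
          rw [eval_crv]
          exact hb τ i
        rw [h2, Pool.Agent.Y988.NT.aeval_smul_form hG] at h1
        exact (mul_eq_zero.1 h1).resolve_left (pow_ne_zero _ (he τ))
      · change eval (iΩ (D.t σ)) _ = 0
        rw [eval_aeval]
        have h2 : (fun i => eval (iΩ (D.t σ)) (crv wΩ i)) =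
            fun i => iΩ (eval (D.t σ) (crv D.w i)) := by
          funext i
          rw [eval_crv, eval_crv, map_sum, hwΩ]
          refine Finset.sum_congr rfl fun k _ => ?_
          rw [map_mul, map_pow]
        rw [h2, hGiΩ, hGσ, map_zero]) (by
      refine (natDegree_aeval_le (natDegree_crv wΩ) hG).trans_lt ?_
      rw [Fintype.card_sum]
      omega)
  apply hGΩ
  have h1 := coeff_top (natDegree_crv wΩ) hG
  rw [hzero, coeff_zero] at h1
  have h2 : (fun i => (crv wΩ i).coeff s) = wΩ (Fin.last s) := by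
    funext i
    rw [coeff_crv]
  rw [h2] at h1
  exact h1.symm

end

end Pool.Agent.Helper37K9.SU
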