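import Pool.Agent.Helper37K9.SU.Tw5

/-!
Conjugate points on two lines: the tower of degree two.
-/

set_option autoImplicit false
set_option linter.overlappingInstances false
set_option linter.unusedSectionVars false

open Module FF Pool.Agent.Helper37K9.RN

namespace Pool.Agent.Helper37K9.SU

section comb

variable {Ω J : Type} [Field Ω] [Fintype J] [DecidableEq J] {N : ℕ} {z : J → Fin N → Ω}

/-- the points on one of the two lines only -/
theorem blk_eq (hind : ∀ i j, i ≠ j → LinearIndependent Ω ![z i, z j])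
    {Λ Λ' : Submodule Ω (Fin N → Ω)} (hΛ : finrank Ω Λ ≤ 2) (hΛ' : finrank Ω Λ' ≤ 2)
    (hcov : ∀ i, z i ∈ Λ ∨ z i ∈ Λ') {σ : J} (hσ : z σ ∈ Λ) (hσ' : z σ ∉ Λ') (S : Finset J)
    (hS : ∀ i, i ∈ S ↔ z i ∈ Λ) (h3 : 3 ≤ S.card) : insert σ (Nb z σ) = S := by
  classical
  have h1 : ∀ τ ρ, τ ≠ σ → ρ ≠ σ → ρ ≠ τ → z ρ ∈ Submodule.span Ω {z σ, z τ} → z τ ∈ Λ := by
    intro τ ρ hτσ hρσ hρτ hρ
    rcases hcov τ with h3 | h3
    · exact h3
    · rcases hcov ρ with h4 | h4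
      · have h5 := span_pair hind (Ne.symm hρσ) (finrank_pair (z σ) (z τ))
          (Submodule.subset_span (by simp)) hρ
        have h6 := span_pair hind (Ne.symm hρσ) hΛ hσ h4
        rw [← h6, h5]
        exact Submodule.subset_span (by simp)
      · exfalso
        apply hσ'
        have h5 := span_pair hind (Ne.symm hρτ) (finrank_pair (z σ) (z τ))
          (Submodule.subset_span (by simp)) hρ
        have h6 := span_pair hind (Ne.symm hρτ) hΛ' h3 h4
        rw [← h6, h5]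
        exact Submodule.subset_span (by simp)
  ext τ
  rw [Finset.mem_insert, mem_Nb, hS]
  constructor
  · rintro (rfl | ⟨hτσ, ρ, hρσ, hρτ, hρ⟩)
    · exact hσ
    · exact h1 τ ρ hτσ hρσ hρτ hρ
  · intro hτ
    by_cases hτσ : τ = σ
    · exact Or.inl hτσ
    · right
      refine ⟨hτσ, ?_⟩
      obtain ⟨ρ, hρ⟩ : ((S.erase σ).erase τ).Nonempty := by
        rw [← Finset.card_pos, Finset.card_erase_of_mem (Finset.mem_erase.2
          ⟨hτσ, (hS τ).2 hτ⟩), Finset.card_erase_of_mem ((hS σ).2 hσ)]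
        omega
      rw [Finset.mem_erase, Finset.mem_erase, hS] at hρ
      refine ⟨ρ, hρ.2.1, hρ.1, ?_⟩
      rw [span_pair hind (Ne.symm hτσ) hΛ hσ hτ]
      exact hρ.2.2

/-- the two blocks -/
theorem blocks (hind : ∀ i j, i ≠ j → LinearIndependent Ω ![z i, z j])
    {Λ Λ' : Submodule Ω (Fin N → Ω)} (hΛ : finrank Ω Λ ≤ 2) (hΛ' : finrank Ω Λ' ≤ 2)
    (hcov : ∀ i, z i ∈ Λ ∨ z i ∈ Λ') (h5 : 5 ≤ Fintype.card J)
    (htr : ∀ σ τ, (Nb z σ).card ≤ (Nb z τ).card)
    (hcon : ¬ ∃ M : Submodule Ω (Fin N → Ω), finrank Ω M ≤ 2 ∧ ∀ i, z i ∈ M) :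
    ∃ S S' : Finset J, (∀ i, i ∈ S ↔ z i ∈ Λ) ∧ (∀ i, i ∈ S' ↔ z i ∈ Λ') ∧
      (∀ i, z i ∈ Λ → z i ∉ Λ') ∧ S.card = S'.card ∧ S.card + S'.card = Fintype.card J ∧
      (∀ σ ∈ S, insert σ (Nb z σ) = S) ∧ (∀ σ ∈ S', insert σ (Nb z σ) = S') := by
  classical
  push Not at hcon
  obtain ⟨σ, hσ⟩ := hcon Λ' hΛ'
  obtain ⟨τ, hτ⟩ := hcon Λ hΛ
  have hσ' : z σ ∈ Λ := (hcov σ).resolve_right hσ
  have hτ' : z τ ∈ Λ' := (hcov τ).resolve_left hτ
  obtain ⟨S, hS⟩ : ∃ S : Finset J, ∀ i, i ∈ S ↔ z i ∈ Λ :=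
    ⟨Finset.univ.filter fun i => z i ∈ Λ, fun i => by simp⟩
  obtain ⟨S', hS'⟩ : ∃ S : Finset J, ∀ i, i ∈ S ↔ z i ∈ Λ' :=
    ⟨Finset.univ.filter fun i => z i ∈ Λ', fun i => by simp⟩
  have hun : S ∪ S' = Finset.univ := by
    ext i
    simp only [Finset.mem_union, Finset.mem_univ, iff_true, hS, hS']
    exact hcov i
  have hcard := Finset.card_union_add_card_inter S S'
  rw [hun, Finset.card_univ] at hcard
  have hint : (S ∩ S').card ≤ 1 := by
    by_contra h
    obtain ⟨i, hi, j, hj, hij⟩ := Finset.one_lt_card.1 (show 1 < (S ∩ S').card by omega)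
    rw [Finset.mem_inter, hS, hS'] at hi hj
    have h1 := span_pair hind hij hΛ hi.1 hj.1
    have h2 := span_pair hind hij hΛ' hi.2 hj.2
    apply hσ
    rw [← h2, h1]
    exact hσ'
  have h1 := Nb_eq hind hΛ hΛ' hcov hσ' hσ S hS
  have h2 := Nb_eq hind hΛ' hΛ (fun i => (hcov i).symm) hτ' hτ S' hS'
  have h3 := htr σ τ
  have h4 := htr τ σ
  have h0 : (S ∩ S').card = 0 := by
    rcases Nat.eq_zero_or_pos (S ∩ S').card with h0 | h0
    · exact h0
    · exfalso
      obtain ⟨p, hp⟩ := Finset.card_pos.1 h0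
      rw [Finset.mem_inter, hS, hS'] at hp
      have h6 : 3 ≤ S.card ∧ 3 ≤ S'.card := by omega
      have h7 := Nb_common hind hΛ hΛ' hcov hp.1 hp.2 S S' hS hS' h6.1 h6.2
      have h8 := htr p σ
      omega
  have h6 : 3 ≤ S.card ∧ 3 ≤ S'.card := by omega
  have hdis : ∀ i, z i ∈ Λ → z i ∉ Λ' := by
    intro i hi hi'
    have h7 : i ∈ S ∩ S' := by
      rw [Finset.mem_inter, hS, hS']
      exact ⟨hi, hi'⟩
    rw [Finset.card_eq_zero.1 h0] at h7
    exact Finset.notMem_empty i h7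
  refine ⟨S, S', hS, hS', hdis, by omega, by omega, fun i hi => ?_, fun i hi => ?_⟩
  · rw [hS] at hi
    exact blk_eq hind hΛ hΛ' hcov hi (hdis i hi) S hS h6.1
  · rw [hS'] at hi
    exact blk_eq hind hΛ' hΛ (fun i => (hcov i).symm) hi (fun h => hdis i h hi) S' hS' h6.2

end comb

section gal

variable {L K Ω : Type} [Field L] [Field K] [CharZero L] [Algebra L K] [FiniteDimensional L K]
  [Field Ω] [Algebra L Ω] [Normal L Ω]

/-- functions on the conjugates -/
theorem exists_elem [Nonempty (K →ₐ[L] Ω)] (f : (K →ₐ[L] Ω) → Ω)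
    (hf : ∀ (g : Ω ≃ₐ[L] Ω) (σ : K →ₐ[L] Ω), f ((g : Ω →ₐ[L] Ω).comp σ) = g (f σ)) :
    ∃ y : K, ∀ σ : K →ₐ[L] Ω, σ y = f σ := by
  classical
  obtain ⟨σ0⟩ := ‹Nonempty (K →ₐ[L] Ω)›
  have hgal : IsGalois L Ω := { }
  have hgal' : IsGalois σ0.fieldRange Ω := inferInstance
  have h1 : f σ0 ∈ σ0.fieldRange := by
    obtain ⟨y, hy⟩ := (InfiniteGalois.mem_range_algebraMap_iff_fixed (k := σ0.fieldRange)
      (K := Ω) (f σ0)).2 fun g => by
        have h2 : ((g.restrictScalars L : Ω ≃ₐ[L] Ω) : Ω →ₐ[L] Ω).comp σ0 = σ0 := by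
          ext y
          exact g.commutes ⟨σ0 y, y, rfl⟩
        have h3 := hf (g.restrictScalars L) σ0
        rw [h2] at h3
        exact h3.symm
    rw [← hy]
    exact y.2
  obtain ⟨y, hy⟩ := h1
  refine ⟨y, fun σ => ?_⟩
  obtain ⟨g, hg⟩ := trans_one σ0 σ
  rw [← hg, hf, ← hy]
  rfl

end gal

theorem mem_conj' {Ω Ω' : Type} [Field Ω] [Field Ω'] (g : Ω ≃+* Ω') {N : ℕ}
    {u w v : Fin N → Ω} : (fun i => g (v i)) ∈ Submodule.span Ω' {fun i => g (u i), fun i => g (w i)} ↔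
      v ∈ Submodule.span Ω {u, w} := by
  rw [Submodule.mem_span_pair, Submodule.mem_span_pair]
  constructor
  · rintro ⟨a, b, h⟩
    refine ⟨g.symm a, g.symm b, ?_⟩
    funext i
    have h1 := congrArg g.symm (congrFun h i)
    simp only [Pi.add_apply, Pi.smul_apply, smul_eq_mul, map_add, map_mul,
      RingEquiv.symm_apply_apply] at h1
    exact h1
  · rintro ⟨a, b, h⟩
    refine ⟨g a, g b, ?_⟩
    funext i
    have h1 := congrArg g (congrFun h i)
    simp only [Pi.add_apply, Pi.smul_apply, smul_eq_mul, map_add, map_mul] at h1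
    exact h1

section

variable {L K Ω : Type} [Field L] [Field K] [Algebra L K] [Field Ω] [Algebra L Ω]

theorem Nb_comp [Fintype (K →ₐ[L] Ω)] {N : ℕ} (x : Fin N → K) (g : Ω ≃ₐ[L] Ω)
    {σ τ : K →ₐ[L] Ω} (h : τ ∈ Nb (pts L Ω x) σ) :
    (g : Ω →ₐ[L] Ω).comp τ ∈ Nb (pts L Ω x) ((g : Ω →ₐ[L] Ω).comp σ) := by
  classical
  have hinj : Function.Injective fun ρ : K →ₐ[L] Ω => (g : Ω →ₐ[L] Ω).comp ρ := by
    intro ρ ρ' h
    ext y
    exact g.injective (DFunLike.congr_fun h y)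
  rw [mem_Nb] at h ⊢
  obtain ⟨h1, ν, h2, h3, h4⟩ := h
  exact ⟨fun h5 => h1 (hinj h5), (g : Ω →ₐ[L] Ω).comp ν, fun h5 => h2 (hinj h5),
    fun h5 => h3 (hinj h5), (mem_conj g).2 h4⟩

/-- the products over the blocks -/
theorem prod_comp [Fintype (K →ₐ[L] Ω)] [DecidableEq (K →ₐ[L] Ω)] {N : ℕ} (x : Fin N → K)
    (θ : K) (q : ℕ) (g : Ω ≃ₐ[L] Ω) (σ : K →ₐ[L] Ω) :
    ∏ τ ∈ insert ((g : Ω →ₐ[L] Ω).comp σ) (Nb (pts L Ω x) ((g : Ω →ₐ[L] Ω).comp σ)),
      ((q : Ω) - τ θ) = g (∏ τ ∈ insert σ (Nb (pts L Ω x) σ), ((q : Ω) - τ θ)) := by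
  classical
  have h1 : ∀ τ : K →ₐ[L] Ω, (g : Ω →ₐ[L] Ω).comp ((g.symm : Ω →ₐ[L] Ω).comp τ) = τ := by
    intro τ
    ext y
    simp
  have h2 : ∀ τ : K →ₐ[L] Ω, (g.symm : Ω →ₐ[L] Ω).comp ((g : Ω →ₐ[L] Ω).comp τ) = τ := by
    intro τ
    ext y
    simp
  rw [map_prod]
  symm
  refine Finset.prod_nbij' (fun τ => (g : Ω →ₐ[L] Ω).comp τ)
    (fun τ => (g.symm : Ω →ₐ[L] Ω).comp τ) ?_ ?_ (fun τ _ => h2 τ) (fun τ _ => h1 τ)
    fun τ _ => ?_
  · intro τ hτ
    rcases Finset.mem_insert.1 hτ with rfl | hτ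
    · exact Finset.mem_insert_self _ _
    · exact Finset.mem_insert_of_mem (Nb_comp x g hτ)
  · intro τ hτ
    rcases Finset.mem_insert.1 hτ with rfl | hτ
    · rw [h2]
      exact Finset.mem_insert_self _ _
    · refine Finset.mem_insert_of_mem ?_
      have h3 := Nb_comp x g.symm hτ
      rw [h2] at h3
      exact h3
  · rw [map_sub, map_natCast]
    rfl

end

section

variable {L K : Type} [Field L] [Field K] [CharZero L] [Algebra L K] [FiniteDimensional L K]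
  {N : ℕ} {x : Fin N → K} {i0 : Fin N}

theorem pts_ne {Ω : Type} [Field Ω] [Algebra L Ω]
    (hgen : IntermediateField.adjoin L (Set.range x) = ⊤) {σ τ : K →ₐ[L] Ω} (h : σ ≠ τ) :
    pts L Ω x σ ≠ pts L Ω x τ := by
  intro h1
  apply h
  apply hom_ext_of hgen
  rintro _ ⟨i, rfl⟩
  exact congrFun h1 i

/-- three independent points -/
theorem three_pts (hi0 : x i0 = 1) (hgen : IntermediateField.adjoin L (Set.range x) = ⊤)
    (h2 : 2 ≤ finrank L K)
    (hno : ¬ ∃ Λ : Submodule (AlgebraicClosure L) (Fin N → AlgebraicClosure L),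
      finrank (AlgebraicClosure L) Λ ≤ 2 ∧
      ∀ σ : K →ₐ[L] AlgebraicClosure L, pts L (AlgebraicClosure L) x σ ∈ Λ) :
    ∃ σ : Fin 3 → (K →ₐ[L] AlgebraicClosure L), LinearIndependent (AlgebraicClosure L)
      fun k => pts L (AlgebraicClosure L) x (σ k) := by
  classical
  have hcard : Fintype.card (K →ₐ[L] AlgebraicClosure L) = finrank L K := AlgHom.card L K _
  obtain ⟨σ1, σ2, h12⟩ : ∃ σ τ : K →ₐ[L] AlgebraicClosure L, σ ≠ τ :=
    Fintype.one_lt_card_iff.1 (by omega)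
  have h1 : ∀ σ : K →ₐ[L] AlgebraicClosure L, pts L (AlgebraicClosure L) x σ i0 = 1 := by
    intro σ
    change σ (x i0) = 1
    rw [hi0, map_one]
  have hind := ind_pair (h1 σ1) (h1 σ2) (pts_ne hgen h12)
  push Not at hno
  obtain ⟨σ3, h3⟩ := hno _ (finrank_pair (pts L (AlgebraicClosure L) x σ1)
    (pts L (AlgebraicClosure L) x σ2))
  refine ⟨![σ3, σ1, σ2], ?_⟩
  have h4 : (fun k => pts L (AlgebraicClosure L) x (![σ3, σ1, σ2] k)) =
      Fin.cons (pts L (AlgebraicClosure L) x σ3) ![pts L (AlgebraicClosure L) x σ1,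
        pts L (AlgebraicClosure L) x σ2] := by
    funext k
    fin_cases k <;> rfl
  rw [h4, linearIndependent_finCons]
  refine ⟨hind, ?_⟩
  have h5 : Set.range ![pts L (AlgebraicClosure L) x σ1, pts L (AlgebraicClosure L) x σ2] =
      {pts L (AlgebraicClosure L) x σ1, pts L (AlgebraicClosure L) x σ2} := by
    ext u
    simp [or_comm]
  rw [h5]
  exact h3

/-- **The tower of degree two.** -/
theorem exists_tower (hi0 : x i0 = 1) (hgen : IntermediateField.adjoin L (Set.range x) = ⊤)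
    (h5 : 5 ≤ finrank L K) {Λ₁ Λ₂ : Submodule (AlgebraicClosure L) (Fin N → AlgebraicClosure L)}
    (hΛ₁ : finrank (AlgebraicClosure L) Λ₁ ≤ 2) (hΛ₂ : finrank (AlgebraicClosure L) Λ₂ ≤ 2)
    (hcov : ∀ σ : K →ₐ[L] AlgebraicClosure L, pts L (AlgebraicClosure L) x σ ∈ Λ₁ ∨
      pts L (AlgebraicClosure L) x σ ∈ Λ₂)
    (hno : ¬ ∃ Λ : Submodule (AlgebraicClosure L) (Fin N → AlgebraicClosure L),
      finrank (AlgebraicClosure L) Λ ≤ 2 ∧
      ∀ σ : K →ₐ[L] AlgebraicClosure L, pts L (AlgebraicClosure L) x σ ∈ Λ)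
    {m : ℕ} (hm : 1 ≤ m) {c : (K →ₐ[L] AlgebraicClosure L) → AlgebraicClosure L}
    (hR : Rel m Finset.univ (pts L (AlgebraicClosure L) x) c) :
    ∃ E : IntermediateField L K, finrank L E = 2 ∧ m + 1 ≤ finrank E K ∧
      Nonempty (Rnc (AlgebraicClosure E) (pts E (AlgebraicClosure E) x) 1) := by
  classical
  have hinf : Infinite (AlgebraicClosure L) := IsAlgClosed.instInfinite
  have hcΩ : CharZero (AlgebraicClosure L) :=
    charZero_of_injective_algebraMap (algebraMap L (AlgebraicClosure L)).injective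
  have hcard : Fintype.card (K →ₐ[L] AlgebraicClosure L) = finrank L K := AlgHom.card L K _
  have h1 : ∀ σ : K →ₐ[L] AlgebraicClosure L, pts L (AlgebraicClosure L) x σ i0 = 1 := by
    intro σ
    change σ (x i0) = 1
    rw [hi0, map_one]
  have hind : ∀ σ τ : K →ₐ[L] AlgebraicClosure L, σ ≠ τ → LinearIndependent (AlgebraicClosure L)
      ![pts L (AlgebraicClosure L) x σ, pts L (AlgebraicClosure L) x τ] :=
    fun σ τ h => ind_pair (h1 σ) (h1 τ) (pts_ne hgen h)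
  obtain ⟨S, S', hS, hS', hdis, hSS, hSum, hB, hB'⟩ := blocks hind hΛ₁ hΛ₂ hcov
    (by rw [hcard]; exact h5) (fun σ τ => Nb_card_le x σ τ) hno
  have hSm : m + 1 ≤ S.card := by
    obtain ⟨m, rfl⟩ : ∃ k, m = k + 1 := ⟨m - 1, by omega⟩
    obtain ⟨c', hc'⟩ := rel_sub hR Λ₂
    have h2 : (Finset.univ.filter fun σ : K →ₐ[L] AlgebraicClosure L =>
        pts L (AlgebraicClosure L) x σ ∉ Λ₂) = S := by
      ext σ
      rw [Finset.mem_filter, hS]
      constructor
      · intro h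
        exact (hcov σ).resolve_right h.2
      · intro h
        exact ⟨Finset.mem_univ _, hdis σ h⟩
    rw [h2] at hc'
    exact rel_card hc' (Finset.card_pos.1 (by omega))
  obtain ⟨σ1, hσ1⟩ : S.Nonempty := Finset.card_pos.1 (by omega)
  obtain ⟨σ2, hσ2⟩ : S'.Nonempty := Finset.card_pos.1 (by omega)
  have hor : ∀ σ, σ ∈ S ∨ σ ∈ S' := by
    intro σ
    rw [hS, hS']
    exact hcov σ
  have hdj : ∀ σ, σ ∈ S → σ ∉ S' := by
    intro σ
    rw [hS, hS']
    exact hdis σ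
  obtain ⟨θ, hθ⟩ := Field.exists_primitive_element L K
  -- a natural number
  obtain ⟨q, hq⟩ : ∃ q : ℕ, ∏ τ ∈ S, ((q : AlgebraicClosure L) - τ θ) ≠
      ∏ τ ∈ S', ((q : AlgebraicClosure L) - τ θ) := by
    by_contra hcon
    push Not at hcon
    have h2 : (∏ τ ∈ S, (Polynomial.X - Polynomial.C (τ θ)) -
        ∏ τ ∈ S', (Polynomial.X - Polynomial.C (τ θ)) : Polynomial (AlgebraicClosure L)) = 0 := by
      refine Polynomial.eq_zero_of_infinite_isRoot _ ?_
      refine Set.Infinite.mono ?_ (Set.infinite_range_of_injective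
        (Nat.cast_injective (R := AlgebraicClosure L)))
      rintro _ ⟨q, rfl⟩
      change Polynomial.eval _ _ = 0
      rw [Polynomial.eval_sub, Polynomial.eval_prod, Polynomial.eval_prod]
      simp only [Polynomial.eval_sub, Polynomial.eval_X, Polynomial.eval_C]
      rw [hcon q, sub_self]
    have h3 := congrArg (Polynomial.eval (σ1 θ)) h2
    rw [Polynomial.eval_sub, Polynomial.eval_prod, Polynomial.eval_prod, Polynomial.eval_zero]
      at h3
    simp only [Polynomial.eval_sub, Polynomial.eval_X, Polynomial.eval_C] at h3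
    rw [Finset.prod_eq_zero hσ1 (sub_self _), zero_sub, neg_eq_zero, Finset.prod_eq_zero_iff] at h3
    obtain ⟨τ, hτ, h4⟩ := h3
    have h6 : σ1 = τ := hom_ext_of hθ fun y hy => by
      rw [Set.mem_singleton_iff] at hy
      rw [hy]
      exact sub_eq_zero.1 h4
    rw [← h6] at hτ
    exact hdj σ1 hσ1 hτ
  have hJ : Nonempty (K →ₐ[L] AlgebraicClosure L) := ⟨σ1⟩
  obtain ⟨α, hα⟩ := exists_elem (fun σ => ∏ τ ∈ insert σ (Nb (pts L (AlgebraicClosure L) x) σ),
    ((q : AlgebraicClosure L) - τ θ)) (fun g σ => prod_comp x θ q g σ)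
  obtain ⟨a, ha⟩ : ∃ a, a = ∏ τ ∈ S, ((q : AlgebraicClosure L) - τ θ) := ⟨_, rfl⟩
  obtain ⟨b, hb⟩ : ∃ b, b = ∏ τ ∈ S', ((q : AlgebraicClosure L) - τ θ) := ⟨_, rfl⟩
  have hαS : ∀ σ ∈ S, σ α = a := by
    intro σ hσ
    rw [hα, ha]
    simp only [hB σ hσ]
  have hαS' : ∀ σ ∈ S', σ α = b := by
    intro σ hσ
    rw [hα, hb]
    simp only [hB' σ hσ]
  have hab : a ≠ b := by
    rw [ha, hb]
    exact hq
  obtain ⟨E, hE⟩ : ∃ E : IntermediateField L K, E = IntermediateField.adjoin L {α} := ⟨_, rfl⟩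
  have hαE : α ∈ E := by
    rw [hE]
    exact IntermediateField.subset_adjoin L _ rfl
  have hextE : ∀ e e' : E →ₐ[L] AlgebraicClosure L, e ⟨α, hαE⟩ = e' ⟨α, hαE⟩ → e = e' := by
    intro e e' h
    refine IntermediateField.algHom_ext_of_eq_adjoin L hE ?_
    rintro y hy
    rw [Set.mem_singleton_iff] at hy
    subst hy
    exact h
  have hE2 : finrank L E = 2 := by
    have h2 : Fintype.card (E →ₐ[L] AlgebraicClosure L) = finrank L E := AlgHom.card L E _
    rw [← h2, Fintype.card_eq_nat_card, Nat.card_eq_two_iff]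
    refine ⟨σ1.comp E.val, σ2.comp E.val, fun h => hab ?_, ?_⟩
    · have h3 := DFunLike.congr_fun h ⟨α, hαE⟩
      rw [← hαS σ1 hσ1, ← hαS' σ2 hσ2]
      exact h3
    · rw [Set.eq_univ_iff_forall]
      intro e
      obtain ⟨σ, hσ⟩ := IntermediateField.exists_algHom_of_splits (F := L) (E := K)
        (K := AlgebraicClosure L) (fun y => ⟨Algebra.IsIntegral.isIntegral y,
          IsAlgClosed.splits _⟩) e
      rw [← hσ]
      rcases hor σ with h | h
      · left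
        apply hextE
        change σ α = σ1 α
        rw [hαS σ h, hαS σ1 hσ1]
      · right
        apply hextE
        change σ α = σ2 α
        rw [hαS' σ h, hαS' σ2 hσ2]
  have hmul := finrank_mul_finrank L E K
  have hEK : finrank E K = S.card := by
    rw [hE2] at hmul
    omega
  refine ⟨E, hE2, by omega, ?_⟩
  -- the line over `E`
  have hcE : CharZero E := charZero_of_injective_algebraMap (algebraMap L E).injective
  have hinfE : Infinite (AlgebraicClosure E) := IsAlgClosed.instInfinite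
  have halg : Algebra.IsAlgebraic L (AlgebraicClosure E) :=
    Algebra.IsAlgebraic.trans L E (AlgebraicClosure E)
  have hcl : IsAlgClosure L (AlgebraicClosure E) := ⟨inferInstance, halg⟩
  obtain ⟨φ, -⟩ : ∃ φ : AlgebraicClosure E ≃ₐ[L] AlgebraicClosure L, True :=
    ⟨IsAlgClosure.equiv L (AlgebraicClosure E) (AlgebraicClosure L), trivial⟩
  have hcardE : Fintype.card (K →ₐ[E] AlgebraicClosure E) = finrank E K := AlgHom.card E K _
  obtain ⟨ν1, ν2, h12⟩ : ∃ σ τ : K →ₐ[E] AlgebraicClosure E, σ ≠ τ :=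
    Fintype.one_lt_card_iff.1 (by omega)
  obtain ⟨Φ, hΦ⟩ : ∃ Φ : (K →ₐ[E] AlgebraicClosure E) → (K →ₐ[L] AlgebraicClosure L),
    ∀ ν y, Φ ν y = φ (ν y) :=
    ⟨fun ν => (φ : AlgebraicClosure E →ₐ[L] AlgebraicClosure L).comp (ν.restrictScalars L),
      fun _ _ => rfl⟩
  have hΦα : ∀ ν, Φ ν α = Φ ν1 α := by
    intro ν
    rw [hΦ, hΦ]
    congr 1
    have h2 := ν.commutes ⟨α, hαE⟩
    have h3 := ν1.commutes ⟨α, hαE⟩
    exact h2.trans h3.symm
  have hline : ∃ Λ : Submodule (AlgebraicClosure L) (Fin N → AlgebraicClosure L),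
      finrank (AlgebraicClosure L) Λ ≤ 2 ∧ ∀ ν, pts L (AlgebraicClosure L) x (Φ ν) ∈ Λ := by
    rcases hor (Φ ν1) with h | h
    · refine ⟨Λ₁, hΛ₁, fun ν => ?_⟩
      rcases hor (Φ ν) with h' | h'
      · exact (hS _).1 h'
      · exfalso
        apply hab
        rw [← hαS _ h, ← hαS' _ h']
        exact (hΦα ν).symm
    · refine ⟨Λ₂, hΛ₂, fun ν => ?_⟩
      rcases hor (Φ ν) with h' | h'
      · exfalso
        apply hab
        rw [← hαS _ h', ← hαS' _ h]
        exact hΦα ν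
      · exact (hS' _).1 h'
  obtain ⟨Λ, hΛ, hΛν⟩ := hline
  have hgenE : IntermediateField.adjoin E (Set.range x) = ⊤ := by
    rw [eq_top_iff]
    intro y _
    have h2 : y ∈ IntermediateField.adjoin L (Set.range x) := by
      rw [hgen]
      trivial
    have h3 : IntermediateField.adjoin L (Set.range x) ≤
        (IntermediateField.adjoin E (Set.range x)).restrictScalars L := by
      rw [IntermediateField.adjoin_le_iff]
      exact IntermediateField.subset_adjoin E _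
    exact h3 h2
  have hν1 : ∀ σ : K →ₐ[E] AlgebraicClosure E, pts E (AlgebraicClosure E) x σ i0 = 1 := by
    intro σ
    change σ (x i0) = 1
    rw [hi0, map_one]
  have hΦinj : ∀ ν ν', ν ≠ ν' → Φ ν ≠ Φ ν' := by
    intro ν ν' h h2
    apply h
    ext y
    have h3 := DFunLike.congr_fun h2 y
    rw [hΦ, hΦ] at h3
    exact φ.injective h3
  refine rnc_one (fun ν ν' h => ind_pair (hν1 ν) (hν1 ν') (pts_ne hgenE h))
    (finrank_pair (pts E (AlgebraicClosure E) x ν1) (pts E (AlgebraicClosure E) x ν2))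
    (fun ν => ?_) h12
  rw [← mem_conj' (φ : AlgebraicClosure E ≃+* AlgebraicClosure L)]
  have h2 : ∀ ν, (fun i => (φ : AlgebraicClosure E ≃+* AlgebraicClosure L)
      (pts E (AlgebraicClosure E) x ν i)) = pts L (AlgebraicClosure L) x (Φ ν) := by
    intro ν
    funext i
    exact (hΦ ν (x i)).symm
  rw [h2, h2, h2, span_pair hind (hΦinj ν1 ν2 h12) hΛ (hΛν ν1) (hΛν ν2)]
  exact hΛν ν

end

end Pool.Agent.Helper37K9.SU
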