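import Pool.Agent.Helper37K9.SU.St

/-!
Conics over algebraically closed fields.
-/

set_option autoImplicit false
set_option linter.unusedSectionVars false

open Module

namespace Pool.Agent.Helper37K9.SU

/-- diagonal form -/
theorem exists_diag {Ω : Type} [Field Ω] [IsAlgClosed Ω] [CharZero Ω]
    (Q : QuadraticForm Ω (Fin 3 → Ω)) :
    ∃ (e : (Fin 3 → Ω) ≃ₗ[Ω] (Fin 3 → Ω)) (c : Fin 3 → Ω),
      ∀ v, Q v = ∑ i, (c i * e v i) ^ 2 := by
  have : Invertible (2 : Ω) := invertibleOfNonzero two_ne_zero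
  obtain ⟨w, ⟨e⟩⟩ := Q.equivalent_weightedSumSquares
  have h3 : finrank Ω (Fin 3 → Ω) = 3 := by simp
  obtain ⟨ε, -⟩ : ∃ ε : Fin 3 ≃ Fin (finrank Ω (Fin 3 → Ω)), True := ⟨finCongr h3.symm, trivial⟩
  choose c hc using fun i : Fin 3 => IsAlgClosed.exists_pow_nat_eq (w (ε i)) (show 0 < 2 by omega)
  refine ⟨e.toLinearEquiv ≪≫ₗ LinearEquiv.funCongrLeft Ω Ω ε, c, fun v => ?_⟩
  rw [← e.map_app v, QuadraticMap.weightedSumSquares_apply]
  rw [← Equiv.sum_comp ε]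
  refine Finset.sum_congr rfl fun i _ => ?_
  rw [mul_pow, hc, smul_eq_mul, pow_two]
  rfl

theorem stConic : StConic := by
  intro Ω _ _ _ Q hQ
  obtain ⟨e, c, hec⟩ := exists_diag Q
  obtain ⟨I, hI⟩ := IsAlgClosed.exists_pow_nat_eq (-1 : Ω) (show 0 < 2 by omega)
  have hI0 : I ≠ 0 := by
    rintro rfl
    rw [zero_pow two_ne_zero] at hI
    exact one_ne_zero (neg_eq_zero.1 hI.symm)
  -- the functionals
  obtain ⟨X, hX⟩ : ∃ X : Fin 3 → Module.Dual Ω (Fin 3 → Ω), ∀ i v, X i v = c i * e v i :=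
    ⟨fun i => c i • (LinearMap.proj i ∘ₗ e.toLinearMap), fun i v => rfl⟩
  have hQX : ∀ v, Q v = X 0 v ^ 2 + X 1 v ^ 2 + X 2 v ^ 2 := by
    intro v
    rw [hec, Fin.sum_univ_three, hX, hX, hX]
  have htwo : ∀ l₁ l₂ : Module.Dual Ω (Fin 3 → Ω), (∀ v, Q v = l₁ v ^ 2 + l₂ v ^ 2) →
      ∃ l₁ l₂ : Module.Dual Ω (Fin 3 → Ω), l₁ ≠ 0 ∧ l₂ ≠ 0 ∧ ∀ v, Q v = l₁ v * l₂ v := by
    intro l₁ l₂ h
    have h1 : ∀ v, Q v = (l₁ + I • l₂) v * (l₁ - I • l₂) v := by
      intro v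
      rw [h, LinearMap.add_apply, LinearMap.sub_apply, LinearMap.smul_apply, smul_eq_mul]
      linear_combination (l₂ v ^ 2) * hI
    refine ⟨l₁ + I • l₂, l₁ - I • l₂, fun h0 => hQ ?_, fun h0 => hQ ?_, h1⟩
    · ext v
      rw [h1, h0]
      simp
    · ext v
      rw [h1, h0]
      simp
  by_cases h0 : c 0 = 0
  · left
    refine htwo (X 1) (X 2) fun v => ?_
    rw [hQX, hX 0, h0]
    ring
  by_cases h1 : c 1 = 0
  · left
    refine htwo (X 0) (X 2) fun v => ?_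
    rw [hQX, hX 1, h1]
    ring
  by_cases h2 : c 2 = 0
  · left
    refine htwo (X 0) (X 1) fun v => ?_
    rw [hQX, hX 2, h2]
    ring
  right
  obtain ⟨u, hu⟩ : ∃ u : Fin 3 → Fin 3 → Ω, u = ![![(2 * c 0)⁻¹, (2 * I * c 1)⁻¹, 0],
    ![0, 0, (I * c 2)⁻¹], ![(2 * c 0)⁻¹, -(2 * I * c 1)⁻¹, 0]] := ⟨_, rfl⟩
  have hlin : LinearIndependent Ω u := by
    rw [Fintype.linearIndependent_iff]
    intro g hg
    have g0 := congrFun hg 0
    have g1 := congrFun hg 1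
    have g2 := congrFun hg 2
    simp only [hu, Fin.sum_univ_three, Matrix.cons_val_zero, Matrix.cons_val_one,
      Matrix.cons_val_two, Matrix.head_cons, Matrix.tail_cons, Pi.add_apply, Pi.smul_apply,
      smul_eq_mul, Pi.zero_apply] at g0 g1 g2
    field_simp at g0 g1 g2
    simp at g0 g1 g2
    have g3 : g 0 = 0 := by linear_combination (g0 + g1) / 2
    have g4 : g 2 = 0 := by linear_combination (g0 - g1) / 2
    intro i
    fin_cases i
    · exact g3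
    · exact g2
    · exact g4
  refine ⟨fun k => e.symm (u k), hlin.map' e.symm.toLinearMap (LinearMap.ker_eq_bot.2
    e.symm.injective), fun v hv => ?_⟩
  rw [hQX] at hv
  obtain ⟨A, hA⟩ : ∃ A, A = X 0 v + I * X 1 v := ⟨_, rfl⟩
  obtain ⟨B, hB⟩ : ∃ B, B = X 0 v - I * X 1 v := ⟨_, rfl⟩
  obtain ⟨C, hC⟩ : ∃ C, C = I * X 2 v := ⟨_, rfl⟩
  have hABC : A * B = C ^ 2 := by
    rw [hA, hB, hC]
    linear_combination hv - (X 1 v ^ 2 + X 2 v ^ 2) * hI
  obtain ⟨a, b, ha, hb, hab⟩ : ∃ a b : Ω, a ^ 2 = A ∧ b ^ 2 = B ∧ a * b = C := by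
    obtain ⟨a, ha⟩ := IsAlgClosed.exists_pow_nat_eq A (show 0 < 2 by omega)
    by_cases ha0 : a = 0
    · obtain ⟨b, hb⟩ := IsAlgClosed.exists_pow_nat_eq B (show 0 < 2 by omega)
      refine ⟨a, b, ha, hb, ?_⟩
      rw [ha0, zero_mul]
      rw [ha0, zero_pow two_ne_zero] at ha
      rw [← ha, zero_mul] at hABC
      exact (pow_eq_zero_iff two_ne_zero).1 hABC.symm |>.symm
    · refine ⟨a, C / a, ha, ?_, mul_div_cancel₀ C ha0⟩
      rw [div_pow, ← hABC, ← ha]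
      field_simp
  refine ⟨a, b, ?_⟩
  apply e.injective
  rw [map_add, map_add, map_smul, map_smul, map_smul, e.apply_symm_apply, e.apply_symm_apply,
    e.apply_symm_apply, ha, hb, hab]
  have e0 : e v 0 = (A + B) * (2 * c 0)⁻¹ := by
    rw [hA, hB, hX, hX]
    field_simp
    ring
  have e1 : e v 1 = (A - B) * (2 * I * c 1)⁻¹ := by
    rw [hA, hB, hX, hX]
    field_simp
    ring
  have e2 : e v 2 = C * (I * c 2)⁻¹ := by
    rw [hC, hX]
    field_simp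
  funext i
  fin_cases i
  · change e v 0 = _
    rw [e0, hu]
    simp
    ring
  · change e v 1 = _
    rw [e1, hu]
    simp
    ring
  · change e v 2 = _
    rw [e2, hu]
    simp

end Pool.Agent.Helper37K9.SU
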