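import Pool.Agent.Helper37K9.SU.St
import Pool.Agent.Y153.NT.CB

/-!
[PLANE] At most `5 m / 2 + 1` points in a plane with a relation in degree `m` are on a conic.
-/

set_option autoImplicit false

open Module Pool.Agent.Helper37K9.RN

namespace Pool.Agent.Helper37K9.SU

namespace PlaneL

variable {Ω : Type} [Field Ω] {ι : Type}

/-- A quadratic form in three variables. -/
def qd (a : Fin 6 → Ω) (x : Fin 3 → Ω) : Ω :=
  a 0 * (x 0 * x 0) + a 1 * (x 1 * x 1) + a 2 * (x 2 * x 2) + a 3 * (x 0 * x 1) +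
    a 4 * (x 0 * x 2) + a 5 * (x 1 * x 2)

/-- The quadratic form. -/
noncomputable def qf (a : Fin 6 → Ω) : QuadraticForm Ω (Fin 3 → Ω) :=
  a 0 • QuadraticMap.linMulLin (LinearMap.proj 0) (LinearMap.proj 0) +
  a 1 • QuadraticMap.linMulLin (LinearMap.proj 1) (LinearMap.proj 1) +
  a 2 • QuadraticMap.linMulLin (LinearMap.proj 2) (LinearMap.proj 2) +
  a 3 • QuadraticMap.linMulLin (LinearMap.proj 0) (LinearMap.proj 1) +
  a 4 • QuadraticMap.linMulLin (LinearMap.proj 0) (LinearMap.proj 2) +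
  a 5 • QuadraticMap.linMulLin (LinearMap.proj 1) (LinearMap.proj 2)

lemma qf_apply (a : Fin 6 → Ω) (x : Fin 3 → Ω) : qf a x = qd a x := by
  simp [qf, qd]

lemma qd_zero_of_forall {a : Fin 6 → Ω} (h : ∀ x, qd a x = 0) : a = 0 := by
  have h0 := h ![1, 0, 0]
  have h1 := h ![0, 1, 0]
  have h2 := h ![0, 0, 1]
  have h3 := h ![1, 1, 0]
  have h4 := h ![1, 0, 1]
  have h5 := h ![0, 1, 1]
  simp only [qd, Matrix.cons_val_zero, Matrix.cons_val_one,
    Matrix.cons_val, mul_one, mul_zero, add_zero, zero_add] at h0 h1 h2 h3 h4 h5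
  rw [h0, h1, zero_add, zero_add] at h3
  rw [h0, h2, zero_add, zero_add] at h4
  rw [h1, h2, zero_add, zero_add] at h5
  funext i
  fin_cases i
  · exact h0
  · exact h1
  · exact h2
  · exact h3
  · exact h4
  · exact h5

lemma qf_ne {a : Fin 6 → Ω} (ha : a ≠ 0) : qf a ≠ 0 := by
  intro h
  apply ha
  apply qd_zero_of_forall
  intro x
  rw [← qf_apply, h]
  simp

/-- Evaluation is linear in the coefficients. -/
noncomputable def ev (S : Finset ι) (v : ι → Fin 3 → Ω) : (Fin 6 → Ω) →ₗ[Ω] (S → Ω) where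
  toFun a := fun i => qd a (v i)
  map_add' a b := by
    funext i
    simp only [qd, Pi.add_apply]
    ring
  map_smul' r a := by
    funext i
    simp only [qd, Pi.smul_apply, smul_eq_mul, RingHom.id_apply]
    ring

/-- Five points are on a conic. -/
lemma five (S : Finset ι) (v : ι → Fin 3 → Ω) (hS : S.card ≤ 5) :
    ∃ a : Fin 6 → Ω, a ≠ 0 ∧ ∀ i ∈ S, qd a (v i) = 0 := by
  have h1 : finrank Ω (S → Ω) < finrank Ω (Fin 6 → Ω) := by
    rw [finrank_fintype_fun_eq_card, finrank_fintype_fun_eq_card, Fintype.card_coe,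
      Fintype.card_fin]
    omega
  obtain ⟨a, ha, ha'⟩ := (LinearMap.ker (ev S v)).ne_bot_iff.mp
    (LinearMap.ker_ne_bot_of_finrank_lt h1)
  refine ⟨a, ha', fun i hi => ?_⟩
  have := congrFun (LinearMap.mem_ker.mp ha) ⟨i, hi⟩
  exact this

/-- The product of two linear forms. -/
lemma prod_form (h h' : Module.Dual Ω (Fin 3 → Ω)) (hh : h ≠ 0) (hh' : h' ≠ 0) :
    ∃ a : Fin 6 → Ω, a ≠ 0 ∧ ∀ x, qd a x = h x * h' x := by
  have e : ∀ (g : Module.Dual Ω (Fin 3 → Ω)) (x : Fin 3 → Ω),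
      g x = g (Pi.single 0 1) * x 0 + g (Pi.single 1 1) * x 1 + g (Pi.single 2 1) * x 2 := by
    intro g x
    have h1 : x = x 0 • (Pi.single 0 1 : Fin 3 → Ω) + x 1 • (Pi.single 1 1 : Fin 3 → Ω)
        + x 2 • (Pi.single 2 1 : Fin 3 → Ω) := by
      funext i
      fin_cases i <;> simp
    conv_lhs => rw [h1]
    rw [map_add, map_add, map_smul, map_smul, map_smul, smul_eq_mul, smul_eq_mul, smul_eq_mul]
    ring
  set p := h (Pi.single 0 1)
  set q := h (Pi.single 1 1)
  set r := h (Pi.single 2 1)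
  set p' := h' (Pi.single 0 1)
  set q' := h' (Pi.single 1 1)
  set r' := h' (Pi.single 2 1)
  have hq : ∀ x, qd ![p * p', q * q', r * r', p * q' + q * p', p * r' + r * p',
      q * r' + r * q'] x = h x * h' x := by
    intro x
    rw [e h x, e h' x]
    simp only [qd, Matrix.cons_val_zero, Matrix.cons_val_one, Matrix.cons_val]
    ring
  refine ⟨_, ?_, hq⟩
  intro h0
  have hz : ∀ x, h x * h' x = 0 := by
    intro x
    rw [← hq x, h0]
    simp [qd]
  obtain ⟨x, hx⟩ : ∃ x, h x ≠ 0 := by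
    by_contra hc
    push Not at hc
    exact hh (LinearMap.ext hc)
  obtain ⟨y, hy⟩ : ∃ x, h' x ≠ 0 := by
    by_contra hc
    push Not at hc
    exact hh' (LinearMap.ext hc)
  have h1 : h' x = 0 := (mul_eq_zero.mp (hz x)).resolve_left hx
  have h2 : h y = 0 := (mul_eq_zero.mp (hz y)).resolve_right hy
  have h3 := hz (x + y)
  rw [map_add, map_add, h1, h2, add_zero, zero_add] at h3
  exact (mul_ne_zero hx hy) h3

/-- Restriction of a relation to the complement of a line. -/
lemma rel_line {N : ℕ} {m : ℕ} {S : Finset ι} {v : ι → Fin N → Ω} {c : ι → Ω}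
    (hR : Rel (m + 1) S v c) (h : Module.Dual Ω (Fin N → Ω)) (T : Finset ι)
    (hT : ∀ i, i ∈ T ↔ i ∈ S ∧ h (v i) ≠ 0) :
    Rel m T v (fun i => c i * h (v i)) := by
  classical
  have e : T = S.filter (fun i => h (v i) ≠ 0) := by
    ext i
    rw [hT, Finset.mem_filter]
  obtain ⟨h1, h2, h3, h4⟩ := hR
  refine ⟨?_, ?_, ?_, ?_⟩
  · intro i hi
    rw [hT] at hi
    exact mul_ne_zero (h1 i hi.1) hi.2
  · intro i hi
    exact h2 i ((hT i).mp hi).1
  · intro i hi j hj hij
    exact h3 i ((hT i).mp hi).1 j ((hT j).mp hj).1 hij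
  · intro l
    rw [e]
    exact Pool.Agent.Y153.NT.restrict_rel m S v c h4 h l

/-- Restriction of a relation to the complement of a conic. -/
lemma rel_conic {m : ℕ} {S : Finset ι} {v : ι → Fin 3 → Ω} {c : ι → Ω}
    (hR : Rel (m + 2) S v c) (a : Fin 6 → Ω) (T : Finset ι)
    (hT : ∀ i, i ∈ T ↔ i ∈ S ∧ qd a (v i) ≠ 0) :
    Rel m T v (fun i => c i * qd a (v i)) := by
  classical
  have e : T = S.filter (fun i => qd a (v i) ≠ 0) := by
    ext i
    rw [hT, Finset.mem_filter]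
  obtain ⟨h1, h2, h3, h4⟩ := hR
  refine ⟨?_, ?_, ?_, ?_⟩
  · intro i hi
    rw [hT] at hi
    exact mul_ne_zero (h1 i hi.1) hi.2
  · intro i hi
    exact h2 i ((hT i).mp hi).1
  · intro i hi j hj hij
    exact h3 i ((hT i).mp hi).1 j ((hT j).mp hj).1 hij
  · intro l
    have h5 : ∀ j j' : Fin 3, ∑ i ∈ S, c i * (v i j * (v i j' * ∏ k, l k (v i))) = 0 := by
      intro j j'
      have h6 := h4 (Fin.cons (LinearMap.proj j) (Fin.cons (LinearMap.proj j') l))
      simp only [Fin.prod_univ_succ, Fin.cons_zero, Fin.cons_succ, LinearMap.proj_apply] at h6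
      exact h6
    have h7 : ∑ i ∈ S, c i * qd a (v i) * ∏ k, l k (v i) = 0 := by
      have h8 : ∀ i, c i * qd a (v i) * ∏ k, l k (v i) =
          a 0 * (c i * (v i 0 * (v i 0 * ∏ k, l k (v i)))) +
          a 1 * (c i * (v i 1 * (v i 1 * ∏ k, l k (v i)))) +
          a 2 * (c i * (v i 2 * (v i 2 * ∏ k, l k (v i)))) +
          a 3 * (c i * (v i 0 * (v i 1 * ∏ k, l k (v i)))) +
          a 4 * (c i * (v i 0 * (v i 2 * ∏ k, l k (v i)))) +
          a 5 * (c i * (v i 1 * (v i 2 * ∏ k, l k (v i)))) := by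
        intro i
        simp only [qd]
        ring
      rw [Finset.sum_congr rfl (fun i _ => h8 i)]
      simp only [Finset.sum_add_distrib, ← Finset.mul_sum, h5, mul_zero, add_zero]
    rw [e, Finset.sum_filter]
    refine Eq.trans ?_ h7
    refine Finset.sum_congr rfl fun i _ => ?_
    split_ifs with h
    · rfl
    · rw [not_not.mp h, mul_zero, zero_mul]

lemma rel_card {N : ℕ} {m : ℕ} {S : Finset ι} {v : ι → Fin N → Ω} {c : ι → Ω}
    (hS : S.Nonempty) (hR : Rel m S v c) : m + 2 ≤ S.card :=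
  Pool.Agent.Y153.NT.claim1 m S v c hS hR.1 hR.2.1 hR.2.2.1 hR.2.2.2

/-- A line through two points. -/
lemma line_form (x y : Fin 3 → Ω) : ∃ h : Module.Dual Ω (Fin 3 → Ω), h ≠ 0 ∧
    ∀ z ∈ Submodule.span Ω {x, y}, h z = 0 := by
  classical
  have h1 : finrank Ω (Submodule.span Ω {x, y}) ≤ 2 := by
    have h3 := finrank_span_finset_le_card (R := Ω) ({x, y} : Finset (Fin 3 → Ω))
    rw [Finset.coe_insert, Finset.coe_singleton] at h3
    exact h3.trans Finset.card_le_two
  have h2 : Submodule.span Ω {x, y} ≠ ⊤ := by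
    intro h
    rw [h, finrank_top, finrank_fintype_fun_eq_card, Fintype.card_fin] at h1
    omega
  obtain ⟨z, hz⟩ : ∃ z, z ∉ Submodule.span Ω {x, y} := by
    by_contra hc
    push Not at hc
    exact h2 (eq_top_iff.mpr fun z _ => hc z)
  obtain ⟨l, hl, hl'⟩ := Pool.Agent.Y153.NT.exists_functional _ z hz
  refine ⟨l, ?_, hl⟩
  rintro rfl
  exact hl' rfl

/-- Points on few points with a relation are on a line. -/
lemma on_line {m : ℕ} {S : Finset ι} {v : ι → Fin 3 → Ω} {c : ι → Ω}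
    (hS : S.Nonempty) (hR : Rel m S v c) (hcard : S.card ≤ 2 * m + 1) :
    ∃ h : Module.Dual Ω (Fin 3 → Ω), h ≠ 0 ∧ ∀ i ∈ S, h (v i) = 0 := by
  classical
  obtain ⟨h1, h2⟩ := Pool.Agent.Y153.NT.stCB Ω 3 ι m S v c hS hR.1 hR.2.1 hR.2.2.1 hR.2.2.2 hcard
  obtain ⟨p, hp, q, hq, hpq⟩ := Finset.one_lt_card.mp (show 1 < S.card by omega)
  obtain ⟨h, hh, hz⟩ := line_form (v p) (v q)
  exact ⟨h, hh, fun i hi => hz _ (h2 p hp q hq hpq i hi)⟩

theorem main (m : ℕ) : ∀ (S : Finset ι) (v : ι → Fin 3 → Ω) (c : ι → Ω), S.Nonempty →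
    Rel m S v c → 2 * S.card ≤ 5 * m + 2 →
    ∃ a : Fin 6 → Ω, a ≠ 0 ∧ ∀ i ∈ S, qd a (v i) = 0 := by
  classical
  induction m using Nat.strong_induction_on with
  | _ m ih =>
  intro S v c hS hR hcard
  rcases Nat.lt_or_ge S.card 6 with h6 | h6
  · exact five S v (by omega)
  obtain ⟨m, rfl⟩ : ∃ k, m = k + 2 := ⟨m - 2, by omega⟩
  -- a conic with the most points
  obtain ⟨a, ha, hmax⟩ : ∃ a : Fin 6 → Ω, a ≠ 0 ∧ ∀ b : Fin 6 → Ω, b ≠ 0 →
      (S.filter (fun i => qd b (v i) = 0)).card ≤ (S.filter (fun i => qd a (v i) = 0)).card := by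
    have hne : {a : Fin 6 → Ω | a ≠ 0}.Nonempty := by
      obtain ⟨a, ha, -⟩ := five (∅ : Finset ι) v (by simp)
      exact ⟨a, ha⟩
    obtain ⟨a, ha, hmin⟩ := WellFounded.has_min
      (measure (fun a : Fin 6 → Ω => S.card - (S.filter (fun i => qd a (v i) = 0)).card)).wf _ hne
    refine ⟨a, ha, fun b hb => ?_⟩
    have h1 := hmin b hb
    have h2 := Finset.card_le_card (Finset.filter_subset (fun i => qd b (v i) = 0) S)
    have h3 := Finset.card_le_card (Finset.filter_subset (fun i => qd a (v i) = 0) S)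
    have h4 : ¬ (S.card - (S.filter (fun i => qd b (v i) = 0)).card <
      S.card - (S.filter (fun i => qd a (v i) = 0)).card) := h1
    omega
  -- at least five
  have h5 : 5 ≤ (S.filter (fun i => qd a (v i) = 0)).card := by
    obtain ⟨S', hS', hc'⟩ := Finset.exists_subset_card_eq (show 5 ≤ S.card by omega)
    obtain ⟨b, hb, hb'⟩ := five S' v (by omega)
    refine le_trans ?_ (hmax b hb)
    rw [← hc']
    apply Finset.card_le_card
    intro i hi
    exact Finset.mem_filter.mpr ⟨hS' hi, hb' i hi⟩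
  set T := S.filter (fun i => qd a (v i) ≠ 0) with hTdef
  have hsum : (S.filter (fun i => qd a (v i) = 0)).card + T.card = S.card := by
    exact Finset.card_filter_add_card_filter_not _
  rcases T.eq_empty_or_nonempty with hT | hT
  · refine ⟨a, ha, fun i hi => ?_⟩
    by_contra h
    have : i ∈ T := Finset.mem_filter.mpr ⟨hi, h⟩
    rw [hT] at this
    exact absurd this (Finset.notMem_empty i)
  have hRT := rel_conic hR a T (fun i => by rw [hTdef, Finset.mem_filter])
  have hTc := rel_card hT hRT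
  obtain ⟨b, hb, hb'⟩ := ih m (by omega) T v _ hT hRT (by omega)
  have hTZ : T.card ≤ (S.filter (fun i => qd a (v i) = 0)).card := by
    refine le_trans ?_ (hmax b hb)
    apply Finset.card_le_card
    intro i hi
    exact Finset.mem_filter.mpr ⟨(Finset.mem_filter.mp hi).1, hb' i hi⟩
  -- `T` is on a line
  obtain ⟨h, hh, hz⟩ := on_line hT hRT (by omega)
  set T' := S.filter (fun i => h (v i) ≠ 0) with hT'def
  have hsub : T' ⊆ S \ T := by
    intro i hi
    rw [Finset.mem_sdiff]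
    refine ⟨(Finset.mem_filter.mp hi).1, fun hiT => ?_⟩
    exact (Finset.mem_filter.mp hi).2 (hz i hiT)
  have hc1 := Finset.card_le_card hsub
  have hc2 : (S \ T).card + T.card = S.card :=
    Finset.card_sdiff_add_card_eq_card (Finset.filter_subset _ _)
  rcases T'.eq_empty_or_nonempty with hT' | hT'
  · obtain ⟨e, he, he'⟩ := prod_form h h hh hh
    refine ⟨e, he, fun i hi => ?_⟩
    rw [he']
    by_contra hne
    have : i ∈ T' := Finset.mem_filter.mpr ⟨hi, fun h0 => hne (by rw [h0, zero_mul])⟩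
    rw [hT'] at this
    exact absurd this (Finset.notMem_empty i)
  have hRT' := rel_line (m := m + 1) hR h T' (fun i => by rw [hT'def, Finset.mem_filter])
  obtain ⟨h', hh', hz'⟩ := on_line hT' hRT' (by omega)
  obtain ⟨e, he, he'⟩ := prod_form h h' hh hh'
  refine ⟨e, he, fun i hi => ?_⟩
  rw [he']
  by_cases h0 : h (v i) = 0
  · rw [h0, zero_mul]
  · rw [hz' i (Finset.mem_filter.mpr ⟨hi, h0⟩), mul_zero]

end PlaneL

open PlaneL in
/-- [PLANE] -/
theorem stPlane : StPlane := by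
  intro Ω _ _ ι m S v c hS hR hcard
  obtain ⟨a, ha, h⟩ := main m S v c hS hR hcard
  exact ⟨qf a, qf_ne ha, fun i hi => by rw [qf_apply]; exact h i hi⟩

end Pool.Agent.Helper37K9.SU
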