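import Pool.Agent.Helper37K9.SU.Tw4
import Pool.Agent.Helper37K9.SU.Blk
import Pool.Agent.Helper37K9.SU.Plane
import Pool.Agent.Helper37K9.SU.Conic
import Pool.Agent.Helper44K9.RN.Rel

/-!
Maps of degree at most `5 m / 2 + 1`: the structure theorem.
-/

set_option autoImplicit false
set_option linter.overlappingInstances false
set_option linter.unusedSectionVars false

open FF Module Pool.Agent.W602.GT Pool.Agent.W603.LV Pool.Agent.Y184.NT
open Pool.Agent.Helper37K9.RN

namespace Pool.Agent.Helper37K9.SU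

section

variable {L K : Type} [Field L] [Field K] [CharZero L] [Algebra L K] [FiniteDimensional L K]
  {N m : ℕ} {x : Fin N → K}

/-- The fibre is on a rational normal curve of degree at most two, or the map factors and the fibres
of the first map, over a double covering of the base, are on lines. -/
theorem fibre_cases {i0 : Fin N} (hi0 : x i0 = 1)
    (hgen : IntermediateField.adjoin L (Set.range x) = ⊤)
    {c : (K →ₐ[L] AlgebraicClosure L) → AlgebraicClosure L} (hc : ∀ σ, c σ ≠ 0)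
    (hsum : ∀ P : MvPolynomial (Fin N) (AlgebraicClosure L), P.IsHomogeneous m →
      ∑ σ, c σ * MvPolynomial.eval (pts L (AlgebraicClosure L) x σ) P = 0)
    (hr : 2 * finrank L K ≤ 5 * m + 2) :
    Nonempty (Rnc (AlgebraicClosure L) (pts L (AlgebraicClosure L) x) 1) ∨
      (2 * m + 2 ≤ finrank L K ∧
        (Nonempty (Rnc (AlgebraicClosure L) (pts L (AlgebraicClosure L) x) 2) ∨
        ((∃ σ : Fin 3 → (K →ₐ[L] AlgebraicClosure L), LinearIndependent (AlgebraicClosure L)
          fun k => pts L (AlgebraicClosure L) x (σ k)) ∧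
        ∃ E : IntermediateField L K, finrank L E = 2 ∧ m + 1 ≤ finrank E K ∧
          Nonempty (Rnc (AlgebraicClosure E) (pts E (AlgebraicClosure E) x) 1)))) := by
  classical
  have hinfΩ : Infinite (AlgebraicClosure L) := IsAlgClosed.instInfinite
  have hcard : Fintype.card (K →ₐ[L] AlgebraicClosure L) = finrank L K := AlgHom.card L K _
  have hinj : ∀ σ τ : K →ₐ[L] AlgebraicClosure L, (∀ i, pts L (AlgebraicClosure L) x σ i =
      pts L (AlgebraicClosure L) x τ i) → σ = τ := by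
    intro σ τ h
    by_contra hne
    exact pts_ne hgen hne (funext h)
  have hR := rel_of hi0 hinj hc hsum
  have hr2 := rel_card_of hi0 hinj hc hsum
  have h1 : ∀ σ : K →ₐ[L] AlgebraicClosure L, pts L (AlgebraicClosure L) x σ i0 = 1 := by
    intro σ
    change σ (x i0) = 1
    rw [hi0, map_one]
  have hind : ∀ σ τ : K →ₐ[L] AlgebraicClosure L, σ ≠ τ → LinearIndependent (AlgebraicClosure L)
      ![pts L (AlgebraicClosure L) x σ, pts L (AlgebraicClosure L) x τ] :=
    fun σ τ h => ind_pair (h1 σ) (h1 τ) (pts_ne hgen h)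
  have hSc : (Finset.univ : Finset (K →ₐ[L] AlgebraicClosure L)).card = finrank L K := by
    rw [Finset.card_univ, hcard]
  obtain ⟨σ1, σ2, h12⟩ : ∃ σ τ : K →ₐ[L] AlgebraicClosure L, σ ≠ τ :=
    Fintype.one_lt_card_iff.1 (by omega)
  have hline : ∀ Λ : Submodule (AlgebraicClosure L) (Fin N → AlgebraicClosure L),
      finrank (AlgebraicClosure L) Λ ≤ 2 → (∀ σ, pts L (AlgebraicClosure L) x σ ∈ Λ) →
      Nonempty (Rnc (AlgebraicClosure L) (pts L (AlgebraicClosure L) x) 1) :=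
    fun Λ hΛ h => rnc_one hind hΛ h h12
  by_cases hm : finrank L K ≤ 2 * m + 1
  · left
    obtain ⟨Λ, hΛ, h⟩ := line_of_cb Pool.Agent.Y153.NT.stCB hR (Finset.mem_univ σ1)
      (Finset.mem_univ σ2) h12 (by rw [hSc]; exact hm)
    exact hline Λ hΛ fun σ => h σ (Finset.mem_univ σ)
  have hm' : 2 * m + 2 ≤ finrank L K := by omega
  by_cases hno : ∃ Λ : Submodule (AlgebraicClosure L) (Fin N → AlgebraicClosure L),
      finrank (AlgebraicClosure L) Λ ≤ 2 ∧
      ∀ σ : K →ₐ[L] AlgebraicClosure L, pts L (AlgebraicClosure L) x σ ∈ Λ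
  · left
    obtain ⟨Λ, hΛ, h⟩ := hno
    exact hline Λ hΛ h
  right
  refine ⟨hm', ?_⟩
  have htwo : ∀ Λ₁ Λ₂ : Submodule (AlgebraicClosure L) (Fin N → AlgebraicClosure L),
      finrank (AlgebraicClosure L) Λ₁ ≤ 2 → finrank (AlgebraicClosure L) Λ₂ ≤ 2 →
      (∀ σ, pts L (AlgebraicClosure L) x σ ∈ Λ₁ ∨ pts L (AlgebraicClosure L) x σ ∈ Λ₂) →
      (∃ σ : Fin 3 → (K →ₐ[L] AlgebraicClosure L), LinearIndependent (AlgebraicClosure L)
          fun k => pts L (AlgebraicClosure L) x (σ k)) ∧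
        ∃ E : IntermediateField L K, finrank L E = 2 ∧ m + 1 ≤ finrank E K ∧
          Nonempty (Rnc (AlgebraicClosure E) (pts E (AlgebraicClosure E) x) 1) :=
    fun Λ₁ Λ₂ hΛ₁ hΛ₂ h => ⟨three_pts hi0 hgen (by omega) hno,
      exists_tower hi0 hgen (by omega) hΛ₁ hΛ₂ h hno (by omega) hR⟩
  rcases stSpace (AlgebraicClosure L) N _ m Finset.univ (pts L (AlgebraicClosure L) x) c
    ⟨σ1, Finset.mem_univ _⟩ hR (by rw [hSc]; exact hr) with ⟨Λ₁, Λ₂, hΛ₁, hΛ₂, h⟩ | ⟨U, hU, h⟩
  · exact Or.inr (htwo Λ₁ Λ₂ hΛ₁ hΛ₂ fun σ => h σ (Finset.mem_univ σ))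
  · have hU2 : ¬ finrank (AlgebraicClosure L) U ≤ 2 := fun h2 =>
      hno ⟨U, h2, fun σ => h σ (Finset.mem_univ σ)⟩
    rcases plane_case stPlane stConic (fun σ => Finset.mem_univ σ) hR
      ⟨σ1, Finset.mem_univ _⟩ (by rw [hSc]; exact hr) (U := U) (by omega)
      (fun σ => h σ (Finset.mem_univ σ)) with ⟨Λ₁, Λ₂, hΛ₁, hΛ₂, h'⟩ | h'
    · exact Or.inr (htwo Λ₁ Λ₂ hΛ₁ hΛ₂ h')
    · exact Or.inl h'

end

section

variable {L K : Type} [Field L] [Field K] [Algebra ℂ L] [Algebra ℂ K] [Algebra L K]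
  [IsScalarTower ℂ L K] [FiniteDimensional L K] [hessK : Algebra.EssFiniteType ℂ K]
  {n N m s : ℕ}

/-- **The structure theorem.** -/
theorem structure_medium (hNLG : StNLG) (hW0 : StW0) (hDer : StDer)
    {κ : Type} [Fintype κ] [DecidableEq κ]
    {F : κ → MvPolynomial (Fin (N + 1)) ℂ} {d : κ → ℕ} (hd : ∀ k, (F k).IsHomogeneous (d k))
    (hdim : n + Fintype.card κ = N) (hn : 1 ≤ n) (hK : Algebra.trdeg ℂ K = n)
    {x : Fin (N + 1) → K} {i0 : Fin (N + 1)} (hi0 : x i0 = 1)
    (hgen : IntermediateField.adjoin ℂ (Set.range x) = ⊤)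
    (hx : ∀ k, MvPolynomial.aeval x (F k) = 0)
    (hgr : LinearIndependent K fun (k : κ) (j : Fin (N + 1)) =>
      MvPolynomial.aeval x (MvPolynomial.pderiv j (F k)))
    {ω : (Fin n → Derivation ℂ K K) → K} (hω : IsPluri 1 ω) (hω0 : ∃ D, ω D ≠ 0)
    (hreg : ∀ (f : Fin m → Fin (N + 1)) (P : Place ℂ K), Divisorial n P →
      RegAt P (fun D => (∏ k, x (f k)) * ω D))
    (hpg : ∀ ω : (Fin n → Derivation ℂ L L) → L, IsPluri 1 ω →
      (∀ P : Place ℂ L, Divisorial n P → RegAt P ω) → ∀ D, ω D = 0)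
    (hr : 2 * finrank L K ≤ 5 * m + 2)
    (hs : s = if finrank L K ≤ 2 * m + 1 then 1 else 2) {ρ : ℕ}
    (hρ : ρ = max (finrank L K) (s * m + 2)) (k : κ) (hk : s * d k ≤ ρ + s * m + 1)
    (hj : ∀ j, j ≠ k → s * d j < ρ) :
    m + 2 ≤ finrank L K ∧
    ∃ (M : Type) (_ : Field M) (_ : Algebra ℂ M), Nonempty (L →ₐ[ℂ] M) ∧
      Algebra.trdeg ℂ M = n ∧ ∃ (H : MvPolynomial (Fin (N + 1)) ℂ) (z : Fin (N + 1) → M),
        H.IsHomogeneous 1 ∧ H ≠ 0 ∧ z i0 = 1 ∧ (∃ a, a ≠ i0 ∧ ∃ c : ℂ, z a = algebraMap ℂ M c) ∧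
        IntermediateField.adjoin ℂ (Set.range z) = ⊤ ∧
        (∀ j, MvPolynomial.aeval z (Function.update F k H j) = 0) ∧
        LinearIndependent M fun (j : κ) (l : Fin (N + 1)) =>
          MvPolynomial.aeval z (MvPolynomial.pderiv l (Function.update F k H j)) := by
  classical
  have hL : Algebra.trdeg ℂ L = n := trdeg_below (K := K) hK
  have hcL : CharZero L := charZero_of_injective_algebraMap (algebraMap ℂ L).injective
  have hωr : ∀ P : Place ℂ K, Divisorial n P → RegAt P ω := by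
    intro P hP
    have h1 := hreg (fun _ => i0) P hP
    simp only [hi0, Finset.prod_const_one, one_mul] at h1
    exact h1
  obtain ⟨c, hc, hsum⟩ := exists_relation (L := L) hL hω hω0 hreg hpg (AlgebraicClosure L)
  have h1 : m + 2 ≤ finrank L K := rel_card_of (L := L) hi0 (fun σ τ h => pts_inj hgen h) hc hsum
  refine ⟨h1, ?_⟩
  have hgenL := gen_up (L := L) hgen
  have hcases := fibre_cases (L := L) hi0 hgenL hc hsum hr
  have hmain : ∀ s', 1 ≤ s' → 2 * s' < finrank L K → s' * d k ≤ finrank L K + (s' * m + 1) →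
      (∀ j, j ≠ k → s' * d j < finrank L K) →
      Nonempty (Rnc (AlgebraicClosure L) (pts L (AlgebraicClosure L) x) s') → _ :=
    fun s' h1 h2 h3 h4 h5 => structure_rnc (L := L) Pool.Agent.Helper44K9.RN.stRel hNLG hW0 hDer hd
      hdim hn hK hi0 hgen hx hgr hω hω0 hreg hpg h1 h5.some h2 k h3 h4
  by_cases h2 : finrank L K ≤ 2 * m + 1
  · rw [if_pos h2] at hs
    subst hs
    have h3 : ρ = finrank L K := by
      rw [hρ, max_eq_left (by omega)]
    rcases hcases with h4 | ⟨h4, -⟩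
    · exact hmain 1 (le_refl _) (by omega) (by omega) (fun j hjk => by
        have := hj j hjk
        omega) h4
    · omega
  · rw [if_neg h2] at hs
    subst hs
    have h3 : ρ = finrank L K := by
      rw [hρ, max_eq_left (by omega)]
    rcases hcases with h4 | ⟨-, h4 | ⟨hnc, E, hE2, hEm, ⟨D⟩⟩⟩
    · exact hmain 1 (le_refl _) (by omega) (by omega) (fun j hjk => by
        have := hj j hjk
        omega) h4
    · exact hmain 2 (by omega) (by omega) (by omega) (fun j hjk => by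
        have := hj j hjk
        omega) h4
    · have hmul := finrank_mul_finrank L E K
      rw [hE2] at hmul
      have hst : IsScalarTower ℂ E K := IsScalarTower.of_algebraMap_eq fun c => rfl
      obtain ⟨M, iM1, iM2, ⟨ψ⟩, hM, H, z, h5⟩ := structure' (L := E) hNLG hW0 hDer hd hdim hn hK hi0
        hgen hx hgr hω hω0 hωr (le_refl 1) D (by omega) (B := m) (by omega) k (by omega)
        (fun j hjk => by
          have := hj j hjk
          omega)
        (fun L' _ _ _ _ _ _ D' hcard' => big_of_tower (L := L) (E := E)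
          Pool.Agent.Helper44K9.RN.stRel hK hi0 hgen hω hω0 hreg hpg (by omega) hE2 hnc L' D' hcard')
      exact ⟨M, iM1, iM2, ⟨ψ.comp (IsScalarTower.toAlgHom ℂ L E)⟩, hM, H, z, h5⟩

end

end Pool.Agent.Helper37K9.SU
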