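import Pool.Agent.Helper37K9.SU.St

/-!
Conjugate points of odd degree on two lines are on one line.
-/

set_option autoImplicit false
set_option linter.unusedSectionVars false

open Module Pool.Agent.Helper37K9.RN

namespace Pool.Agent.Helper37K9.SU

section comb

variable {Ω J : Type} [Field Ω] [Fintype J] {N : ℕ} {z : J → Fin N → Ω}

open Classical in
/-- the points `z τ` such that the line through `z σ` and `z τ` contains a third point -/
noncomputable def Nb (z : J → Fin N → Ω) (σ : J) : Finset J :=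
  Finset.univ.filter fun τ => τ ≠ σ ∧ ∃ ρ, ρ ≠ σ ∧ ρ ≠ τ ∧ z ρ ∈ Submodule.span Ω {z σ, z τ}

theorem mem_Nb {σ τ : J} : τ ∈ Nb z σ ↔
    τ ≠ σ ∧ ∃ ρ, ρ ≠ σ ∧ ρ ≠ τ ∧ z ρ ∈ Submodule.span Ω {z σ, z τ} := by
  classical
  rw [Nb, Finset.mem_filter]
  simp

theorem span_pair (hind : ∀ i j, i ≠ j → LinearIndependent Ω ![z i, z j]) {σ τ : J} (h : σ ≠ τ)
    {Λ : Submodule Ω (Fin N → Ω)} (hΛ : finrank Ω Λ ≤ 2) (h1 : z σ ∈ Λ) (h2 : z τ ∈ Λ) :
    Submodule.span Ω {z σ, z τ} = Λ := by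
  classical
  apply Submodule.eq_of_le_of_finrank_le
  · rw [Submodule.span_le]
    rintro u (rfl | rfl)
    · exact h1
    · exact h2
  · have h3 : finrank Ω (Submodule.span Ω {z σ, z τ}) = 2 := by
      have h2 := finrank_span_eq_card (hind σ τ h)
      rw [Fintype.card_fin] at h2
      have h3 : (Set.range ![z σ, z τ]) = {z σ, z τ} := by
        ext u
        simp [or_comm]
      rw [h3] at h2
      exact h2
    rw [h3]
    exact hΛ

theorem finrank_pair (a b : Fin N → Ω) : finrank Ω (Submodule.span Ω {a, b}) ≤ 2 := by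
  classical
  have h1 := finrank_span_le_card (R := Ω) ({a, b} : Set (Fin N → Ω))
  refine h1.trans ?_
  rw [Set.toFinset_insert, Set.toFinset_singleton]
  exact Finset.card_le_two

/-- the points on one of the two lines only -/
theorem Nb_eq (hind : ∀ i j, i ≠ j → LinearIndependent Ω ![z i, z j])
    {Λ Λ' : Submodule Ω (Fin N → Ω)} (hΛ : finrank Ω Λ ≤ 2) (hΛ' : finrank Ω Λ' ≤ 2)
    (hcov : ∀ i, z i ∈ Λ ∨ z i ∈ Λ') {σ : J} (hσ : z σ ∈ Λ) (hσ' : z σ ∉ Λ') (S : Finset J)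
    (hS : ∀ i, i ∈ S ↔ z i ∈ Λ) :
    (3 ≤ S.card ∧ (Nb z σ).card + 1 = S.card) ∨ (S.card ≤ 2 ∧ (Nb z σ).card = 0) := by
  classical
  have h1 : ∀ τ ρ, τ ≠ σ → ρ ≠ σ → ρ ≠ τ → z ρ ∈ Submodule.span Ω {z σ, z τ} →
      z τ ∈ Λ ∧ z ρ ∈ Λ := by
    intro τ ρ hτσ hρσ hρτ hρ
    have h2 : z τ ∈ Λ := by
      rcases hcov τ with h3 | h3
      · exact h3
      · rcases hcov ρ with h4 | h4
        · have h5 := span_pair hind (Ne.symm hρσ) (finrank_pair (z σ) (z τ))
            (Submodule.subset_span (by simp)) hρ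
          have h6 := span_pair hind (Ne.symm hρσ) hΛ hσ h4
          rw [← h6, h5]
          exact Submodule.subset_span (by simp)
        · exfalso
          apply hσ'
          have h5 := span_pair hind (Ne.symm hρτ) (finrank_pair (z σ) (z τ))
            (Submodule.subset_span (by simp)) hρ
          have h6 := span_pair hind (Ne.symm hρτ) hΛ' h3 h4
          rw [← h6, h5]
          exact Submodule.subset_span (by simp)
    refine ⟨h2, ?_⟩
    have h3 := span_pair hind (Ne.symm hτσ) hΛ hσ h2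
    rw [← h3]
    exact hρ
  by_cases h3 : 3 ≤ S.card
  · left
    refine ⟨h3, ?_⟩
    have h4 : Nb z σ = S.erase σ := by
      ext τ
      rw [mem_Nb, Finset.mem_erase, hS]
      constructor
      · rintro ⟨hτσ, ρ, hρσ, hρτ, hρ⟩
        exact ⟨hτσ, (h1 τ ρ hτσ hρσ hρτ hρ).1⟩
      · rintro ⟨hτσ, hτ⟩
        refine ⟨hτσ, ?_⟩
        obtain ⟨ρ, hρ⟩ : ((S.erase σ).erase τ).Nonempty := by
          rw [← Finset.card_pos, Finset.card_erase_of_mem (Finset.mem_erase.2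
            ⟨hτσ, (hS τ).2 hτ⟩), Finset.card_erase_of_mem ((hS σ).2 hσ)]
          omega
        rw [Finset.mem_erase, Finset.mem_erase, hS] at hρ
        refine ⟨ρ, hρ.2.1, hρ.1, ?_⟩
        rw [span_pair hind (Ne.symm hτσ) hΛ hσ hτ]
        exact hρ.2.2
    rw [h4]
    exact Finset.card_erase_add_one ((hS σ).2 hσ)
  · right
    refine ⟨by omega, ?_⟩
    rw [Finset.card_eq_zero, Finset.eq_empty_iff_forall_notMem]
    intro τ hτ
    rw [mem_Nb] at hτ
    obtain ⟨hτσ, ρ, hρσ, hρτ, hρ⟩ := hτ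
    obtain ⟨h4, h5⟩ := h1 τ ρ hτσ hρσ hρτ hρ
    apply h3
    have h6 : ({σ, τ, ρ} : Finset J) ⊆ S := by
      intro l hl
      rcases Finset.mem_insert.1 hl with rfl | hl
      · exact (hS _).2 hσ
      · rcases Finset.mem_insert.1 hl with rfl | hl
        · exact (hS _).2 h4
        · rw [Finset.mem_singleton] at hl
          subst hl
          exact (hS _).2 h5
    have h7 := Finset.card_le_card h6
    rw [Finset.card_eq_three.2 ⟨σ, τ, ρ, Ne.symm hτσ, Ne.symm hρσ, Ne.symm hρτ, rfl⟩] at h7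
    exact h7

/-- the common point of the two lines -/
theorem Nb_common (hind : ∀ i j, i ≠ j → LinearIndependent Ω ![z i, z j])
    {Λ Λ' : Submodule Ω (Fin N → Ω)} (hΛ : finrank Ω Λ ≤ 2) (hΛ' : finrank Ω Λ' ≤ 2)
    (hcov : ∀ i, z i ∈ Λ ∨ z i ∈ Λ') {σ : J} (hσ : z σ ∈ Λ) (hσ' : z σ ∈ Λ') (S S' : Finset J)
    (hS : ∀ i, i ∈ S ↔ z i ∈ Λ) (hS' : ∀ i, i ∈ S' ↔ z i ∈ Λ') (h3 : 3 ≤ S.card)
    (h3' : 3 ≤ S'.card) : Fintype.card J ≤ (Nb z σ).card + 1 := by
  classical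
  have h1 : ∀ (T : Finset J) (M : Submodule Ω (Fin N → Ω)), finrank Ω M ≤ 2 → z σ ∈ M →
      (∀ i, i ∈ T ↔ z i ∈ M) → 3 ≤ T.card → ∀ τ, τ ≠ σ → z τ ∈ M → τ ∈ Nb z σ := by
    intro T M hM hσM hT hT3 τ hτσ hτ
    rw [mem_Nb]
    refine ⟨hτσ, ?_⟩
    obtain ⟨ρ, hρ⟩ : ((T.erase σ).erase τ).Nonempty := by
      rw [← Finset.card_pos, Finset.card_erase_of_mem (Finset.mem_erase.2
        ⟨hτσ, (hT τ).2 hτ⟩), Finset.card_erase_of_mem ((hT σ).2 hσM)]
      omega
    rw [Finset.mem_erase, Finset.mem_erase, hT] at hρ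
    refine ⟨ρ, hρ.2.1, hρ.1, ?_⟩
    rw [span_pair hind (Ne.symm hτσ) hM hσM hτ]
    exact hρ.2.2
  have h2 : Finset.univ.erase σ ⊆ Nb z σ := by
    intro τ hτ
    rw [Finset.mem_erase] at hτ
    rcases hcov τ with h | h
    · exact h1 S Λ hΛ hσ hS h3 τ hτ.1 h
    · exact h1 S' Λ' hΛ' hσ' hS' h3' τ hτ.1 h
  have h4 := Finset.card_le_card h2
  rw [Finset.card_erase_of_mem (Finset.mem_univ σ), Finset.card_univ] at h4
  omega

theorem comb (hind : ∀ i j, i ≠ j → LinearIndependent Ω ![z i, z j])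
    {Λ Λ' : Submodule Ω (Fin N → Ω)} (hΛ : finrank Ω Λ ≤ 2) (hΛ' : finrank Ω Λ' ≤ 2)
    (hcov : ∀ i, z i ∈ Λ ∨ z i ∈ Λ') (hodd : Odd (Fintype.card J)) (h5 : 5 ≤ Fintype.card J)
    (htr : ∀ σ τ, (Nb z σ).card ≤ (Nb z τ).card) :
    ∃ M : Submodule Ω (Fin N → Ω), finrank Ω M ≤ 2 ∧ ∀ i, z i ∈ M := by
  classical
  by_contra hcon
  push Not at hcon
  obtain ⟨σ, hσ⟩ := hcon Λ' hΛ'
  obtain ⟨τ, hτ⟩ := hcon Λ hΛ
  have hσ' : z σ ∈ Λ := (hcov σ).resolve_right hσ
  have hτ' : z τ ∈ Λ' := (hcov τ).resolve_left hτ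
  obtain ⟨S, hS⟩ : ∃ S : Finset J, ∀ i, i ∈ S ↔ z i ∈ Λ :=
    ⟨Finset.univ.filter fun i => z i ∈ Λ, fun i => by simp⟩
  obtain ⟨S', hS'⟩ : ∃ S : Finset J, ∀ i, i ∈ S ↔ z i ∈ Λ' :=
    ⟨Finset.univ.filter fun i => z i ∈ Λ', fun i => by simp⟩
  have hun : S ∪ S' = Finset.univ := by
    ext i
    simp only [Finset.mem_union, Finset.mem_univ, iff_true, hS, hS']
    exact hcov i
  have hcard := Finset.card_union_add_card_inter S S'
  rw [hun, Finset.card_univ] at hcard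
  have hint : (S ∩ S').card ≤ 1 := by
    by_contra h
    obtain ⟨i, hi, j, hj, hij⟩ := Finset.one_lt_card.1 (show 1 < (S ∩ S').card by omega)
    rw [Finset.mem_inter, hS, hS'] at hi hj
    have h1 := span_pair hind hij hΛ hi.1 hj.1
    have h2 := span_pair hind hij hΛ' hi.2 hj.2
    apply hσ
    rw [← h2, h1]
    exact hσ'
  have h1 := Nb_eq hind hΛ hΛ' hcov hσ' hσ S hS
  have h2 := Nb_eq hind hΛ' hΛ (fun i => (hcov i).symm) hτ' hτ S' hS'
  have h3 := htr σ τ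
  have h4 := htr τ σ
  obtain ⟨e, he⟩ := hodd
  rcases Nat.eq_zero_or_pos (S ∩ S').card with h0 | h0
  · omega
  · obtain ⟨p, hp⟩ := Finset.card_pos.1 h0
    rw [Finset.mem_inter, hS, hS'] at hp
    have h6 : 3 ≤ S.card ∧ 3 ≤ S'.card := by omega
    have h7 := Nb_common hind hΛ hΛ' hcov hp.1 hp.2 S S' hS hS' h6.1 h6.2
    have h8 := htr p σ
    omega

end comb

section gal

variable {L K Ω : Type} [Field L] [Field K] [Algebra L K] [Field Ω] [Algebra L Ω]

theorem hom_ext_of {s : Set K} (hs : IntermediateField.adjoin L s = ⊤) {σ τ : K →ₐ[L] Ω}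
    (h : ∀ y ∈ s, σ y = τ y) : σ = τ := by
  ext y
  have h2 : y ∈ IntermediateField.adjoin L s := by
    rw [hs]
    trivial
  induction h2 using IntermediateField.adjoin_induction with
  | mem y hy => exact h y hy
  | algebraMap c => rw [AlgHom.commutes, AlgHom.commutes]
  | add a b _ _ ha hb => rw [map_add, map_add, ha, hb]
  | inv a _ ha => rw [map_inv₀, map_inv₀, ha]
  | mul a b _ _ ha hb => rw [map_mul, map_mul, ha, hb]

variable [CharZero L] [FiniteDimensional L K] [Normal L Ω]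

theorem trans_one (σ τ : K →ₐ[L] Ω) : ∃ g : Ω ≃ₐ[L] Ω, (g : Ω →ₐ[L] Ω).comp σ = τ := by
  obtain ⟨θ, hθ⟩ := Field.exists_primitive_element L K
  have h1 : minpoly L (σ θ) = minpoly L θ := minpoly.algHom_eq σ σ.injective θ
  have h2 : minpoly L (τ θ) = minpoly L θ := minpoly.algHom_eq τ τ.injective θ
  obtain ⟨g, hg⟩ := minpoly.exists_algEquiv_of_root (K := L) (L := Ω) (x := σ θ) (y := τ θ)
    (Normal.isIntegral inferInstance _).isAlgebraic (by rw [h2, ← h1]; exact minpoly.aeval L _)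
  refine ⟨g, hom_ext_of hθ fun y hy => ?_⟩
  rw [Set.mem_singleton_iff] at hy
  subst hy
  exact hg

theorem Nb_card_le [Fintype (K →ₐ[L] Ω)] {N : ℕ} (x : Fin N → K) (σ τ : K →ₐ[L] Ω) :
    (Nb (pts L Ω x) σ).card ≤ (Nb (pts L Ω x) τ).card := by
  classical
  obtain ⟨g, hg⟩ := trans_one σ τ
  have hinj : Function.Injective fun ρ : K →ₐ[L] Ω => (g : Ω →ₐ[L] Ω).comp ρ := by
    intro ρ ρ' h
    ext y
    exact g.injective (DFunLike.congr_fun h y)
  rw [← Finset.card_image_of_injective (Nb (pts L Ω x) σ) hinj]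
  refine Finset.card_le_card fun ρ' hρ' => ?_
  obtain ⟨ρ, hρ, rfl⟩ := Finset.mem_image.1 hρ'
  rw [mem_Nb] at hρ ⊢
  obtain ⟨h1, ν, h2, h3, h4⟩ := hρ
  rw [Submodule.mem_span_pair] at h4
  obtain ⟨a, b, hab⟩ := h4
  refine ⟨fun h5 => h1 (hinj (h5.trans hg.symm)), (g : Ω →ₐ[L] Ω).comp ν,
    fun h5 => h2 (hinj (h5.trans hg.symm)), fun h5 => h3 (hinj h5), ?_⟩
  rw [Submodule.mem_span_pair]
  refine ⟨g a, g b, ?_⟩
  rw [← hg]
  funext i
  have h5 := congrArg g (congrFun hab i)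
  rw [Pi.add_apply, Pi.smul_apply, Pi.smul_apply, smul_eq_mul, smul_eq_mul, map_add, map_mul,
    map_mul] at h5
  exact h5

end gal

theorem stOdd : StOdd := by
  intro L K _ _ _ _ _ N x i0 hi0 hgen hodd h5 Λ₁ Λ₂ hΛ₁ hΛ₂ hcov
  classical
  have hcard : Fintype.card (K →ₐ[L] AlgebraicClosure L) = finrank L K := AlgHom.card L K _
  have h1 : ∀ σ : K →ₐ[L] AlgebraicClosure L, pts L (AlgebraicClosure L) x σ i0 = 1 := by
    intro σ
    change σ (x i0) = 1
    rw [hi0, map_one]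
  have hind : ∀ σ τ : K →ₐ[L] AlgebraicClosure L, σ ≠ τ → LinearIndependent (AlgebraicClosure L)
      ![pts L (AlgebraicClosure L) x σ, pts L (AlgebraicClosure L) x τ] := by
    intro σ τ hστ
    refine LinearIndependent.pair_iff.2 fun a b hab => ?_
    have h2 := congrFun hab i0
    rw [Pi.add_apply, Pi.smul_apply, Pi.smul_apply, h1, h1, smul_eq_mul, smul_eq_mul, mul_one,
      mul_one, Pi.zero_apply] at h2
    have h3 : b = -a := by linear_combination h2
    subst h3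
    by_cases ha : a = 0
    · rw [ha]
      simp
    · exfalso
      apply hστ
      apply hom_ext_of hgen
      rintro _ ⟨i, rfl⟩
      have h4 := congrFun hab i
      rw [Pi.add_apply, Pi.smul_apply, Pi.smul_apply, smul_eq_mul, smul_eq_mul,
        Pi.zero_apply] at h4
      apply mul_left_cancel₀ ha
      change a * σ (x i) + -a * τ (x i) = 0 at h4
      linear_combination h4
  exact comb hind hΛ₁ hΛ₂ hcov (by rw [hcard]; exact hodd) (by rw [hcard]; exact h5)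
    fun σ τ => Nb_card_le x σ τ

end Pool.Agent.Helper37K9.SU
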