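import Pool.Agent.Helper37K9.RN.Above
import Pool.Agent.Helper37K9.SU.Tw1

/-!
Towers: the places over the variety.
-/

set_option autoImplicit false
set_option linter.unusedSectionVars false
set_option linter.overlappingInstances false

open Module Polynomial FF Pool.Agent.W602.GT Pool.Agent.W603.LV Pool.Agent.Y184.NT
open Pool.Agent.Helper37K9.RN

namespace Pool.Agent.Helper37K9.SU

section

variable {L L' K : Type} [Field L] [Field L'] [Field K] [Algebra ℂ L]
  [Algebra ℂ L'] [Algebra ℂ K] [Algebra L L'] [Algebra L K]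
  [IsScalarTower ℂ L L'] [IsScalarTower ℂ L K]
  [FiniteDimensional L K] [FiniteDimensional L L'] [IsGalois L L']
  [hessK : Algebra.EssFiniteType ℂ K] {n N s d : ℕ} {x : Fin N → K}

/-- **The places over the variety.** -/
theorem above' (hRul : StRuled) (hW0 : StW0) (hs : 1 ≤ s) (hn : 1 ≤ n)
    (hK : Algebra.trdeg ℂ K = n)
    {i0 : Fin N} (hi0 : x i0 = 1) (hgen : IntermediateField.adjoin ℂ (Set.range x) = ⊤)
    {ω : (Fin n → Derivation ℂ K K) → K} (hω : IsPluri 1 ω) (hω0 : ∃ D, ω D ≠ 0)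
    (hωr : ∀ P : Place ℂ K, Divisorial n P → RegAt P ω)
    (D : Rnc L' (pts L L' x) s) (hcard : 2 * s < Fintype.card (K →ₐ[L] L'))
    (hsplit : ∀ i, (crv D.w i).Splits)
    {G : MvPolynomial (Fin N) ℂ} (hG : G.IsHomogeneous d) (hGx : MvPolynomial.aeval x G = 0)
    (hGw : MvPolynomial.aeval (D.w (Fin.last s)) G ≠ 0)
    {B : ℕ} (hdeg : s * d ≤ Fintype.card (K →ₐ[L] L') + B) (hBig : Big L L' K x D.w B)
    (hy0 : crv D.w i0 ≠ 0)
    (w : Place ℂ (RatFunc L')) (hw1 : ∀ j, w.Reg (aff D.w i0 j))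
    (hval0 : ∀ H : MvPolynomial (Fin N) ℂ, MvPolynomial.aeval x H = 0 →
      Ge w 1 (MvPolynomial.aeval (aff D.w i0) H))
    (hval1 : ∀ H : MvPolynomial (Fin N) ℂ, MvPolynomial.aeval x H ≠ 0 →
      MvPolynomial.aeval (aff D.w i0) H ≠ 0 ∧ w.ord (MvPolynomial.aeval (aff D.w i0) H) = 0) :
    ∃ σ : K →ₐ[L] L', ∀ w0, IsW0 (X - C (D.t σ)) w0 → w = w0 := by
  classical
  have hL : Algebra.trdeg ℂ L = n := trdeg_below (K := K) hK
  have hessL : Algebra.EssFiniteType ℂ L := Pool.Agent.TH466.QG.ess_below (K := K)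
  have hL' : Algebra.trdeg ℂ L' = n := Pool.Agent.Y172.trdeg_up (K := L) hL
  have htriv := hRul L' K n N hn hL' hK ω hω hωr hω0 x hgen w (crv D.w) hsplit i0 hy0
    (aff D.w i0) (fun _ => rfl) hw1 hval0 hval1
  have hXr : w.Reg (RatFunc.X : RatFunc L') := X_reg' htriv hG hGw hy0 (hval0 G hGx)
  have hpol : ∀ A : L'[X], w.Reg (io A) := fun A => by
    rw [io_aeval]
    exact reg_aevalL htriv hXr A
  have hyi : io (crv D.w i0) ≠ 0 := io_ne hy0
  have hyu : (fun j => io (crv D.w j)) = fun j => io (crv D.w i0) * aff D.w i0 j := by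
    funext j
    change _ = io (crv D.w i0) * (io (crv D.w j) / io (crv D.w i0))
    field_simp
  -- the polynomial `F (φ)`
  obtain ⟨A, hA⟩ : ∃ A : L'[X], A = MvPolynomial.aeval (crv D.w) G := ⟨_, rfl⟩
  have hA0 : A ≠ 0 := by
    intro h0
    apply hGw
    have h1 := coeff_top (natDegree_crv D.w) hG
    rw [← hA, h0, coeff_zero] at h1
    have h2 : (fun i => (crv D.w i).coeff s) = D.w (Fin.last s) := by
      funext i
      rw [coeff_crv]
    rw [h2] at h1
    exact h1.symm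
  have hFu : io A = io (crv D.w i0) ^ d * MvPolynomial.aeval (aff D.w i0) G := by
    rw [← Pool.Agent.Y988.NT.aeval_smul_form hG, ← hyu, hA]
    exact (MvPolynomial.aeval_algebraMap_apply (RatFunc L') (crv D.w) G).symm
  have hFu0 : MvPolynomial.aeval (aff D.w i0) G ≠ 0 := by
    intro h0
    rw [h0, mul_zero] at hFu
    exact io_ne hA0 hFu
  have hordA : 1 ≤ w.ord (io A) := by
    have h1 := (hval0 G hGx).resolve_left hFu0
    have h2 := (hpol (crv D.w i0)).resolve_left hyi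
    rw [hFu, w.ord_mul (pow_ne_zero _ hyi) hFu0, w.ord_pow]
    have h3 : 0 ≤ (d : ℤ) * w.ord (io (crv D.w i0)) := mul_nonneg (by positivity) h2
    omega
  obtain ⟨π, hπ, hπA, hπw⟩ := exists_factor htriv hA0 hordA
  obtain ⟨wπ, hwπ⟩ := exists_w0 hW0 hπ
  have hww : w = wπ := hwπ.uniq w htriv hπw
  rw [← hww] at hwπ
  obtain ⟨K'', i1, i2, i3, i4, i5, i6, i7, i8, ρ, hρ⟩ := exists_root_field (L := L) hπ
  have hρ0 : aeval ρ (crv D.w i0) ≠ 0 := by
    intro h0
    -- all coordinates vanish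
    have h1 : ∀ j, aeval ρ (crv D.w j) = 0 := by
      intro j
      rw [← hρ]
      by_contra hndvd
      have hj0 : crv D.w j ≠ 0 := by
        intro h2
        rw [h2] at hndvd
        exact hndvd (dvd_zero _)
      have h2 := hwπ.unit _ hj0 hndvd
      obtain ⟨B, hB⟩ := (hρ _).2 h0
      have h3 : Ge w 1 (io (crv D.w i0)) := by
        rw [hB, io, map_mul]
        have h7 : Ge w 1 (io π) := Or.inr hwπ.one.ge
        simpa using h7.mul (show Ge w 0 (io B) from hpol B)
      have h4 : Ge w 1 (io (crv D.w j)) := by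
        have h5 : io (crv D.w j) = io (crv D.w i0) * aff D.w i0 j := congrFun hyu j
        rw [h5]
        simpa using h3.mul (show Ge w 0 (aff D.w i0 j) from hw1 j)
      have h5 := h4.resolve_left (io_ne hj0)
      omega
    have h2 := Fintype.linearIndependent_iff.1 (ind_ext (algebraMap L' K'') D.ind)
      (fun k => ρ ^ (k : ℕ)) (by
        funext j
        rw [Finset.sum_apply]
        simp only [Pi.smul_apply, smul_eq_mul, Pi.zero_apply]
        rw [← eval₂_crv (algebraMap L' K'')]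
        exact h1 j) 0
    simp at h2
  have hsp : ∀ j, Sp ρ (aff D.w i0 j) (aeval ρ (crv D.w j) / aeval ρ (crv D.w i0)) := fun j =>
    (Sp.poly (τ := ρ) (crv D.w j)).div (Sp.poly (τ := ρ) (crv D.w i0)) hρ0
  have hiff : ∀ H : MvPolynomial (Fin N) ℂ, MvPolynomial.aeval x H = 0 ↔
      MvPolynomial.aeval (fun j => aeval ρ (crv D.w j) / aeval ρ (crv D.w i0)) H = 0 := by
    intro H
    constructor
    · intro h1
      by_contra h2
      obtain ⟨h3, h4⟩ := (Sp.mv (τ := ρ) hsp H).unit hwπ hρ h2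
      have h5 := (hval0 H h1).resolve_left h3
      omega
    · intro h1
      by_contra h2
      obtain ⟨h3, h4⟩ := hval1 H h2
      have h5 := Sp.mv (τ := ρ) hsp H
      rw [h1] at h5
      have h6 := (h5.ge_one hwπ hρ).resolve_left h3
      omega
  obtain ⟨ψ, hψ⟩ := Pool.Agent.Helper37K9.CI.exists_hom x
    (fun j => aeval ρ (crv D.w j) / aeval ρ (crv D.w i0)) hgen hiff
  obtain ⟨σ, hσ⟩ := residual' hs hi0 hgen D hcard hG hGx hGw hdeg hBig ρ hρ0 ψ hψ
  refine ⟨σ, fun w0 hw0 => hw0.uniq w htriv ?_⟩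
  have h1 : aeval ρ (X - C (D.t σ)) = 0 := by
    rw [map_sub, aeval_X, aeval_C, hσ, sub_self]
  obtain ⟨B, hB⟩ := (hρ _).2 h1
  have h3 : Ge w 1 (io (X - C (D.t σ))) := by
    rw [hB, io, map_mul]
    have h7 : Ge w 1 (io π) := Or.inr hwπ.one.ge
    simpa using h7.mul (show Ge w 0 (io B) from hpol B)
  exact h3.resolve_left (io_ne (X_sub_C_ne_zero _))

end

end Pool.Agent.Helper37K9.SU
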