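import Pool.Agent.Helper37K9.RN.Cong
import Pool.Agent.Helper37K9.SU.Tw2

/-!
Towers: the curves form a family of order one.
-/

set_option autoImplicit false
set_option linter.unusedSectionVars false
set_option linter.overlappingInstances false

open Module Polynomial FF Pool.Agent.W602.GT Pool.Agent.W603.LV Pool.Agent.Y184.NT
open Pool.Agent.Helper37K9.RN

namespace Pool.Agent.Helper37K9.SU

section

variable {L L' K : Type} [Field L] [Field L'] [Field K] [Algebra ℂ L]
  [Algebra ℂ L'] [Algebra ℂ K] [Algebra L L'] [Algebra L K]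
  [IsScalarTower ℂ L L'] [IsScalarTower ℂ L K]
  [FiniteDimensional L K] [FiniteDimensional L L'] [IsGalois L L']
  [hessK : Algebra.EssFiniteType ℂ K] {n N s d : ℕ} {x : Fin N → K}

/-- **The curves form a family of order one.** -/
theorem congR' (hRul : StRuled) (hDis : StDisj) (hW0 : StW0) (hDer : StDer)
    (hs : 1 ≤ s) (hn : 1 ≤ n) (hK : Algebra.trdeg ℂ K = n)
    {i0 : Fin N} (hi0 : x i0 = 1) (hgen : IntermediateField.adjoin ℂ (Set.range x) = ⊤)
    {ω : (Fin n → Derivation ℂ K K) → K} (hω : IsPluri 1 ω) (hω0 : ∃ D, ω D ≠ 0)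
    (hωr : ∀ P : Place ℂ K, Divisorial n P → RegAt P ω)
    (D : Rnc L' (pts L L' x) s) (hcard : 2 * s < Fintype.card (K →ₐ[L] L'))
    (hcard' : Fintype.card (K →ₐ[L] L') = Module.finrank L K)
    (hsplit : ∀ i, (crv D.w i).Splits)
    {G : MvPolynomial (Fin N) ℂ} (hG : G.IsHomogeneous d) (hGx : MvPolynomial.aeval x G = 0)
    (hGw : MvPolynomial.aeval (D.w (Fin.last s)) G ≠ 0)
    {B : ℕ} (hdeg : s * d ≤ Fintype.card (K →ₐ[L] L') + B) (hBig : Big L L' K x D.w B)
    (hdeg2 : s * d < 2 * Fintype.card (K →ₐ[L] L')) (l : L) :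
    Algebra.trdeg ℂ (IntermediateField.adjoin ℂ (Set.range (aff D.w i0))) = (n + 1 : ℕ) ∧
    algebraMap L (RatFunc L') l ∈ IntermediateField.adjoin ℂ (Set.range (aff D.w i0)) := by
  classical
  have hL : Algebra.trdeg ℂ L = n := trdeg_below (K := K) hK
  have hessL : Algebra.EssFiniteType ℂ L := Pool.Agent.TH466.QG.ess_below (K := K)
  have hL' : Algebra.trdeg ℂ L' = n := Pool.Agent.Y172.trdeg_up (K := L) hL
  have hessL' : Algebra.EssFiniteType ℂ L' := Algebra.EssFiniteType.comp ℂ L L'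
  have hcL : CharZero L := charZero_of_injective_algebraMap (algebraMap ℂ L).injective
  have hcL' : CharZero L' := charZero_of_injective_algebraMap (algebraMap ℂ L').injective
  have hJ : Nonempty (K →ₐ[L] L') := Fintype.card_pos_iff.1 (by omega)
  obtain ⟨σ0⟩ := hJ
  -- the values at the points
  have hcv : ∀ (σ : K →ₐ[L] L') i, eval (D.t σ) (crv D.w i) = (D.c σ)⁻¹ * σ (x i) := by
    intro σ i
    have h1 : σ (x i) = D.c σ * ∑ k : Fin (s + 1), D.t σ ^ (k : ℕ) * D.w k i := D.eq σ i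
    rw [h1, eval_crv, inv_mul_cancel_left₀ (D.c_ne σ)]
  have hcv0 : ∀ σ : K →ₐ[L] L', eval (D.t σ) (crv D.w i0) ≠ 0 := by
    intro σ
    rw [hcv, hi0, map_one, mul_one]
    exact inv_ne_zero (D.c_ne σ)
  have hy0 : crv D.w i0 ≠ 0 := by
    intro h0
    have h1 := hcv0 σ0
    rw [h0, eval_zero] at h1
    exact h1 rfl
  have hg : ∀ (σ : K →ₐ[L] L') (A : L'[X]), X - C (D.t σ) ∣ A ↔ aeval (D.t σ) A = 0 := by
    intro σ A
    rw [dvd_iff_isRoot, IsRoot, coe_aeval_eq_eval]
  have hsp : ∀ (σ : K →ₐ[L] L') j, Sp (D.t σ) (aff D.w i0 j) (σ (x j)) := by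
    intro σ j
    have h1 := (Sp.poly (K := L') (τ := D.t σ) (crv D.w j)).div
      (Sp.poly (K := L') (τ := D.t σ) (crv D.w i0)) (by
        rw [coe_aeval_eq_eval]
        exact hcv0 σ)
    have h2 : aeval (D.t σ) (crv D.w j) / aeval (D.t σ) (crv D.w i0) = σ (x j) := by
      rw [coe_aeval_eq_eval, hcv, hcv, hi0, map_one, mul_one, mul_comm,
        mul_div_assoc, div_self (inv_ne_zero (D.c_ne σ)), mul_one]
    rw [h2] at h1
    exact h1
  have hspH : ∀ (σ : K →ₐ[L] L') (H : MvPolynomial (Fin N) ℂ),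
      Sp (D.t σ) (MvPolynomial.aeval (aff D.w i0) H) (σ (MvPolynomial.aeval x H)) := by
    intro σ H
    have h1 := Sp.mv (hsp σ) H
    have h2 := MvPolynomial.comp_aeval_apply (φ := σ.restrictScalars ℂ) x H
    have h3 : MvPolynomial.aeval (fun j => σ (x j)) H = σ (MvPolynomial.aeval x H) := h2.symm
    rwa [h3] at h1
  choose w0 hw0 using fun σ : K →ₐ[L] L' => exists_w0 hW0 (irreducible_X_sub_C (D.t σ))
  -- the polynomial `F (φ)`
  obtain ⟨A, hA⟩ : ∃ A : L'[X], A = MvPolynomial.aeval (crv D.w) G := ⟨_, rfl⟩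
  have hA0 : A ≠ 0 := by
    intro h0
    apply hGw
    have h1 := coeff_top (natDegree_crv D.w) hG
    rw [← hA, h0, coeff_zero] at h1
    have h2 : (fun i => (crv D.w i).coeff s) = D.w (Fin.last s) := by
      funext i
      rw [coeff_crv]
    rw [h2] at h1
    exact h1.symm
  have hyi : io (crv D.w i0) ≠ 0 := io_ne hy0
  have hyu : (fun j => io (crv D.w j)) = fun j => io (crv D.w i0) * aff D.w i0 j := by
    funext j
    change _ = io (crv D.w i0) * (io (crv D.w j) / io (crv D.w i0))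
    field_simp
  have hFu : io A = io (crv D.w i0) ^ d * MvPolynomial.aeval (aff D.w i0) G := by
    rw [← Pool.Agent.Y988.NT.aeval_smul_form hG, ← hyu, hA]
    exact (MvPolynomial.aeval_algebraMap_apply (RatFunc L') (crv D.w) G).symm
  have hFu0 : MvPolynomial.aeval (aff D.w i0) G ≠ 0 := by
    intro h0
    rw [h0, mul_zero] at hFu
    exact io_ne hA0 hFu
  have hordF : ∀ σ, (w0 σ).ord (MvPolynomial.aeval (aff D.w i0) G) =
      (A.rootMultiplicity (D.t σ) : ℤ) := by
    intro σ
    have h1 : (w0 σ).ord (io (crv D.w i0)) = 0 := (hw0 σ).unit _ hy0 (by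
      rw [hg, coe_aeval_eq_eval]
      exact hcv0 σ)
    have h2 := ord_rat (hw0 σ) hA0
    rw [hFu, (w0 σ).ord_mul (pow_ne_zero _ hyi) hFu0, (w0 σ).ord_pow, h1, mul_zero, zero_add] at h2
    exact h2
  -- the transcendence degrees
  obtain ⟨E0, hE0⟩ : ∃ E0 : IntermediateField ℂ (RatFunc L'), E0 = IntermediateField.adjoin ℂ
    (Set.range (aff D.w i0)) := ⟨_, rfl⟩
  have huE : ∀ j, aff D.w i0 j ∈ E0 := by
    intro j
    rw [hE0]
    exact IntermediateField.subset_adjoin _ _ ⟨j, rfl⟩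
  obtain ⟨uE, huE2⟩ : ∃ uE : Fin N → E0, ∀ j, (uE j : RatFunc L') = aff D.w i0 j :=
    ⟨fun j => ⟨aff D.w i0 j, huE j⟩, fun _ => rfl⟩
  have huE' : (algebraMap E0 (RatFunc L')) ∘ uE = aff D.w i0 := funext huE2
  have hev : ∀ H : MvPolynomial (Fin N) ℂ,
      algebraMap E0 (RatFunc L') (MvPolynomial.aeval uE H) =
        MvPolynomial.aeval (aff D.w i0) H := by
    intro H
    rw [← MvPolynomial.aeval_algebraMap_apply, huE']
  have hF1 : ∀ σ : K →ₐ[L] L', 1 ≤ (w0 σ).ord (MvPolynomial.aeval (aff D.w i0) G) := by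
    intro σ
    have h1 := hspH σ G
    rw [hGx, map_zero] at h1
    exact (h1.ge_one (hw0 σ) (hg σ)).resolve_left hFu0
  obtain ⟨S, hS⟩ := Pool.Agent.Helper37K9.CI.exists_coord x (d := n) (by
    rw [hgen]
    have h1 : Algebra.trdeg ℂ (⊤ : IntermediateField ℂ K) = Algebra.trdeg ℂ K :=
      IntermediateField.topEquiv.trdeg_eq
    rw [h1, hK])
  have hGS : ∀ H : MvPolynomial (Fin n) ℂ, H ≠ 0 →
      MvPolynomial.aeval (fun i => aff D.w i0 (S i)) H ≠ 0 ∧
        (w0 σ0).ord (MvPolynomial.aeval (fun i => aff D.w i0 (S i)) H) = 0 := by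
    intro H hH
    have h1 := Sp.mv (τ := D.t σ0) (u := fun i => aff D.w i0 (S i))
      (x := fun i => σ0 (x (S i))) (fun i => hsp σ0 (S i)) H
    refine h1.unit (hw0 σ0) (hg σ0) ?_
    intro h0
    apply hH
    have h2 := MvPolynomial.comp_aeval_apply (φ := σ0.restrictScalars ℂ) (fun i => x (S i)) H
    have h3 : σ0 (MvPolynomial.aeval (fun i => x (S i)) H) = 0 := h2.trans h0
    exact (injective_iff_map_eq_zero _).1 hS H ((map_eq_zero _).1 h3)
  have hind := Pool.Agent.Helper37K9.CI.indep_place (w0 σ0) hGS hFu0 (hF1 σ0)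
  obtain ⟨z, E, hz, hE⟩ := Pool.Agent.Y172.exists_crd (k := ℂ) (K := L') hL'
  obtain ⟨ht, -⟩ := hDer L' n z hz E hE
  have hessR : Algebra.EssFiniteType ℂ (RatFunc L') := ess_ratFunc
  have htrR : Algebra.trdeg ℂ (RatFunc L') = (n + 1 : ℕ) := by
    rw [← ht.cardinalMk_eq_trdeg]
    simp
  have hindE : AlgebraicIndependent ℂ (fun o : Option (Fin n) =>
      o.elim (MvPolynomial.aeval uE G) fun i => uE (S i)) := by
    refine AlgebraicIndependent.of_comp E0.val ?_
    have h1 : (E0.val : E0 → RatFunc L') ∘ (fun o : Option (Fin n) =>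
        o.elim (MvPolynomial.aeval uE G) fun i => uE (S i)) =
        fun o => o.elim (MvPolynomial.aeval (aff D.w i0) G) fun i => aff D.w i0 (S i) := by
      funext o
      rcases o with _ | i
      · exact hev G
      · exact huE2 (S i)
    rw [h1]
    exact hind
  have htr1 : ((n + 1 : ℕ) : Cardinal) ≤ Algebra.trdeg ℂ E0 := by
    have h1 := hindE.cardinalMk_le_trdeg
    simpa using h1
  have htr2 : Algebra.trdeg ℂ E0 ≤ ((n + 1 : ℕ) : Cardinal) := by
    rw [← htrR]
    exact trdeg_le_of_injective E0.val Subtype.val_injective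
  have htr : Algebra.trdeg ℂ E0 = (n + 1 : ℕ) := le_antisymm htr2 htr1
  have hfin : FiniteDimensional E0 (RatFunc L') :=
    Pool.Agent.Helper37K9.CI.finite_of_trdeg htr htrR
  have hessE : Algebra.EssFiniteType ℂ E0 := Pool.Agent.TH466.QG.ess_below (K := RatFunc L')
  obtain ⟨v, e0, hv⟩ := Pool.Agent.Y172.exists_below (k := ℂ) (K := E0) (w0 σ0)
  have he0 : (1 : ℤ) ≤ e0 := by exact_mod_cast hv.1
  have hvF : 1 ≤ v.ord (MvPolynomial.aeval uE G) := by
    have h1 := hF1 σ0
    rw [← hev, hv.2] at h1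
    by_contra hcon
    have h2 : v.ord (MvPolynomial.aeval uE G) ≤ 0 := by omega
    have h3 : (e0 : ℤ) * v.ord (MvPolynomial.aeval uE G) ≤ 0 :=
      mul_nonpos_of_nonneg_of_nonpos (by omega) h2
    omega
  -- the places over `v`
  have habove : ∀ (w : Place ℂ (RatFunc L')) (e : ℕ), Over w v e → ∃ σ, w = w0 σ := by
    intro w e hw
    have he1 : (1 : ℤ) ≤ e := by exact_mod_cast hw.1
    have hureg : ∀ j, w.Reg (aff D.w i0 j) := by
      intro j
      rw [← huE2]
      refine hw.reg.2 (hv.reg.1 ?_)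
      change (w0 σ0).Reg (uE j : RatFunc L')
      rw [huE2]
      exact (hsp σ0 j).reg (hw0 σ0) (hg σ0)
    have hval0 : ∀ H : MvPolynomial (Fin N) ℂ, MvPolynomial.aeval x H = 0 →
        Ge w 1 (MvPolynomial.aeval (aff D.w i0) H) := by
      intro H hH
      have h1 := hspH σ0 H
      rw [hH, map_zero] at h1
      have h2 := h1.ge_one (hw0 σ0) (hg σ0)
      rw [← hev] at h2 ⊢
      rcases h2 with h2 | h2
      · exact Or.inl h2
      · right
        rw [hv.2] at h2
        rw [hw.2]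
        have h3 : (1 : ℤ) ≤ v.ord (MvPolynomial.aeval uE H) := by
          by_contra hcon
          have h4 : v.ord (MvPolynomial.aeval uE H) ≤ 0 := by omega
          have h5 : (e0 : ℤ) * v.ord (MvPolynomial.aeval uE H) ≤ 0 :=
            mul_nonpos_of_nonneg_of_nonpos (by omega) h4
          omega
        nlinarith
    have hval1 : ∀ H : MvPolynomial (Fin N) ℂ, MvPolynomial.aeval x H ≠ 0 →
        MvPolynomial.aeval (aff D.w i0) H ≠ 0 ∧
          w.ord (MvPolynomial.aeval (aff D.w i0) H) = 0 := by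
      intro H hH
      obtain ⟨h1, h2⟩ := (hspH σ0 H).unit (hw0 σ0) (hg σ0) ((map_ne_zero σ0).2 hH)
      refine ⟨h1, ?_⟩
      rw [← hev, hv.2] at h2
      rw [← hev, hw.2]
      have h3 : v.ord (MvPolynomial.aeval uE H) = 0 := by
        rcases mul_eq_zero.1 h2 with h4 | h4
        · omega
        · exact h4
      rw [h3, mul_zero]
    obtain ⟨σ, hσ⟩ := above' hRul hW0 hs hn hK hi0 hgen hω hω0 hωr D hcard hsplit hG
      hGx hGw hdeg hBig hy0 w hureg hval0 hval1
    exact ⟨σ, hσ _ (hw0 σ)⟩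
  -- the residue degrees
  obtain ⟨q, hq⟩ : ∃ q : ℕ, q * Module.finrank L K = Module.finrank L L' ∧
      ∀ (σ : K →ₐ[L] L') (e : ℕ) (h : Over (w0 σ) v e),
        @Module.finrank v.RF (w0 σ).RF _ _ h.resMap.toRingHom.toAlgebra.toModule ≤ q := by
    obtain ⟨q, hq⟩ : ∃ q : ℕ, q * Module.finrank L K = Module.finrank L L' := by
      let _ : Algebra K L' := σ0.toRingHom.toAlgebra
      have hst : IsScalarTower L K L' :=
        IsScalarTower.of_algebraMap_eq fun c => (σ0.commutes c).symm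
      have hfin : FiniteDimensional K L' := Module.Finite.of_restrictScalars_finite L K L'
      exact ⟨Module.finrank K L', by rw [mul_comm, Module.finrank_mul_finrank L K L']⟩
    exact ⟨q, hq, fun σ e h => finrank_res hgen σ (hw0 σ) (hg σ) (hsp σ) huE h hq⟩
  obtain ⟨S', T, hS', hT, hsum⟩ := exists_places_over (K' := RatFunc L') v
  have hbound : Module.finrank E0 (RatFunc L') ≤ q * A.natDegree := by
    have h1 : ∀ w : S', ∃ σ : K →ₐ[L] L', w.1 = w0 σ ∧
        T w.1 ≤ q * A.rootMultiplicity (D.t σ) := by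
      rintro ⟨w, hw⟩
      obtain ⟨e, hov, hTe, -⟩ := hT w hw
      obtain ⟨σ, rfl⟩ := habove w e hov
      refine ⟨σ, rfl, ?_⟩
      rw [hTe, mul_comm]
      refine Nat.mul_le_mul (hq.2 σ e hov) ?_
      have h2 := hordF σ
      rw [← hev, hov.2] at h2
      have h3 : (e : ℤ) ≤ (e : ℤ) * v.ord (MvPolynomial.aeval uE G) :=
        le_mul_of_one_le_right (by positivity) hvF
      rw [h2] at h3
      exact_mod_cast h3
    choose f hf1 hf2 using h1
    have hfinj : Function.Injective f := by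
      intro w w' h
      apply Subtype.ext
      rw [hf1 w, hf1 w', h]
    rw [← hsum, ← Finset.sum_coe_sort S']
    calc ∑ w : S', T w.1 ≤ ∑ w : S', q * A.rootMultiplicity (D.t (f w)) :=
          Finset.sum_le_sum fun w _ => hf2 w
      _ = q * ∑ σ ∈ Finset.univ.image f, A.rootMultiplicity (D.t σ) := by
          rw [← Finset.mul_sum, Finset.sum_image fun a _ b _ h => hfinj h]
      _ ≤ q * ∑ σ, A.rootMultiplicity (D.t σ) :=
          Nat.mul_le_mul_left q (Finset.sum_le_sum_of_subset (Finset.subset_univ _))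
      _ ≤ q * A.natDegree := Nat.mul_le_mul_left q (sum_mult_le D.t_inj)
  have hlt : Module.finrank E0 (RatFunc L') < 2 * Module.finrank L L' := by
    have h1 : A.natDegree ≤ s * d := by
      rw [hA]
      exact natDegree_aeval_le (natDegree_crv D.w) hG
    have h2 : 0 < Module.finrank L L' := Module.finrank_pos
    have hq0 : 0 < q := by
      rcases Nat.eq_zero_or_pos q with h | h
      · have h3 := hq.1
        rw [h, zero_mul] at h3
        omega
      · exact h
    calc Module.finrank E0 (RatFunc L') ≤ q * A.natDegree := hbound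
      _ ≤ q * (s * d) := Nat.mul_le_mul_left q h1
      _ < q * (2 * Fintype.card (K →ₐ[L] L')) := Nat.mul_lt_mul_of_pos_left hdeg2 hq0
      _ = 2 * Module.finrank L L' := by rw [hcard', ← hq.1]; ring
  rw [← hE0]
  refine ⟨htr, ?_⟩
  obtain ⟨B, hB⟩ : ∃ B : IntermediateField L (RatFunc L'),
    B = IntermediateField.adjoin L (Set.range (aff D.w i0)) := ⟨_, rfl⟩
  have hEB : E0 ≤ B.restrictScalars ℂ := by
    rw [hE0, IntermediateField.adjoin_le_iff, hB]
    exact IntermediateField.subset_adjoin L _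
  have hfinB : FiniteDimensional B (RatFunc L') := by
    have h1 : FiniteDimensional (IntermediateField.extendScalars hEB) (RatFunc L') :=
      Module.Finite.of_restrictScalars_finite E0 (IntermediateField.extendScalars hEB)
        (RatFunc L')
    exact h1
  have hdis : Module.finrank L L' ≤ Module.finrank B (RatFunc L') :=
    hDis L L' B hfinB fun l hl => const_mem D hs hcard hy0 (by rw [hB] at hl; exact hl)
  refine eq_of_index hEB ?_ (B.algebraMap_mem l)
  have h1 : Module.finrank (B.restrictScalars ℂ) (RatFunc L') =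
    Module.finrank B (RatFunc L') := rfl
  rw [h1]
  omega

end

end Pool.Agent.Helper37K9.SU
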