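import Pool.Agent.Helper37K9.RN.Str
import Pool.Agent.Helper37K9.SU.Tw3

/-!
Towers: the structure theorem.
-/

set_option autoImplicit false
set_option linter.overlappingInstances false
set_option linter.unusedSectionVars false

open FF Polynomial Pool.Agent.W602.GT Pool.Agent.W603.LV Pool.Agent.Y184.NT
open Pool.Agent.Helper37K9.RN

namespace Pool.Agent.Helper37K9.SU

section

variable {L K : Type} [Field L] [Field K] [Algebra ℂ L] [Algebra ℂ K] [Algebra L K]
  [IsScalarTower ℂ L K] [FiniteDimensional L K] [hessK : Algebra.EssFiniteType ℂ K]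
  {n N s : ℕ}

/-- **The structure theorem.** -/
theorem structure' (hNLG : StNLG) (hW0 : StW0) (hDer : StDer)
    {κ : Type} [Fintype κ] [DecidableEq κ]
    {F : κ → MvPolynomial (Fin (N + 1)) ℂ} {d : κ → ℕ} (hd : ∀ k, (F k).IsHomogeneous (d k))
    (hdim : n + Fintype.card κ = N) (hn : 1 ≤ n) (hK : Algebra.trdeg ℂ K = n)
    {x : Fin (N + 1) → K} {i0 : Fin (N + 1)} (hi0 : x i0 = 1)
    (hgen : IntermediateField.adjoin ℂ (Set.range x) = ⊤)
    (hx : ∀ k, MvPolynomial.aeval x (F k) = 0)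
    (hgr : LinearIndependent K fun (k : κ) (j : Fin (N + 1)) =>
      MvPolynomial.aeval x (MvPolynomial.pderiv j (F k)))
    {ω : (Fin n → Derivation ℂ K K) → K} (hω : IsPluri 1 ω) (hω0 : ∃ D, ω D ≠ 0)
    (hωr : ∀ P : Place ℂ K, Divisorial n P → RegAt P ω) (hs : 1 ≤ s)
    (D0 : Rnc (AlgebraicClosure L) (pts L (AlgebraicClosure L) x) s)
    (hr : 2 * s < Module.finrank L K) {B : ℕ} (hrm : B < Module.finrank L K) (k : κ)
    (hk : s * d k ≤ Module.finrank L K + B)
    (hoth : ∀ j, j ≠ k → s * d j < Module.finrank L K)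
    (hBig : ∀ (L' : Type) [Field L'] [Algebra ℂ L'] [Algebra L L'] [IsScalarTower ℂ L L']
      [FiniteDimensional L L'] [IsGalois L L'] (D : Rnc L' (pts L L' x) s),
      Fintype.card (K →ₐ[L] L') = Module.finrank L K → Big L L' K x D.w B) :
    ∃ (M : Type) (_ : Field M) (_ : Algebra ℂ M), Nonempty (L →ₐ[ℂ] M) ∧
      Algebra.trdeg ℂ M = n ∧ ∃ (H : MvPolynomial (Fin (N + 1)) ℂ) (z : Fin (N + 1) → M),
        H.IsHomogeneous 1 ∧ H ≠ 0 ∧ z i0 = 1 ∧ (∃ a, a ≠ i0 ∧ ∃ c : ℂ, z a = algebraMap ℂ M c) ∧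
        IntermediateField.adjoin ℂ (Set.range z) = ⊤ ∧
        (∀ j, MvPolynomial.aeval z (Function.update F k H j) = 0) ∧
        LinearIndependent M fun (j : κ) (l : Fin (N + 1)) =>
          MvPolynomial.aeval z (MvPolynomial.pderiv l (Function.update F k H j)) := by
  classical
  have hL : Algebra.trdeg ℂ L = n := trdeg_below (K := K) hK
  have hessL : Algebra.EssFiniteType ℂ L := Pool.Agent.TH466.QG.ess_below (K := K)
  have hcL : CharZero L := charZero_of_injective_algebraMap (algebraMap ℂ L).injective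
  have hcard : Fintype.card (K →ₐ[L] AlgebraicClosure L) = Module.finrank L K := AlgHom.card L K _
  -- the equation which does not vanish on the curve
  have hFk : MvPolynomial.aeval (crv D0.w) (F k) ≠ 0 := by
    intro h0
    obtain ⟨j1, j2, hj⟩ : ∃ j1 j2 : K →ₐ[L] AlgebraicClosure L, j1 ≠ j2 :=
      Fintype.one_lt_card_iff.1 (by omega)
    refine curve_not_in (L := L) hNLG hd hdim hK hi0 hgen hgr hω hω0 hωr (φ := crv D0.w) hj
      ⟨_, _, inv_ne_zero (D0.c_ne j1), D0.eval_crv j1⟩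
      ⟨_, _, inv_ne_zero (D0.c_ne j2), D0.eval_crv j2⟩ fun j => ?_
    by_cases hjk : j = k
    · rw [hjk]
      exact h0
    · exact D0.vanish (hd j) (fun σ => by rw [aeval_pts, hx, map_zero])
        (by rw [hcard]; exact hoth j hjk)
  obtain ⟨D1, hD1⟩ := D0.move hFk
  obtain ⟨L', _, _, _, _, _, _, D, hDk, hsplit, hcard'⟩ := exists_galois (gen_up hgen) D1 hD1
  have hcL' : CharZero L' := charZero_of_injective_algebraMap (algebraMap ℂ L').injective
  obtain ⟨σ0⟩ : Nonempty (K →ₐ[L] L') := Fintype.card_pos_iff.1 (by omega)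
  have hσG : ∀ (σ : K →ₐ[L] L') (G : MvPolynomial (Fin (N + 1)) ℂ),
      MvPolynomial.aeval (pts L L' x σ) G = σ (MvPolynomial.aeval x G) := by
    intro σ G
    have h5 := MvPolynomial.comp_aeval_apply (φ := σ.restrictScalars ℂ) x G
    exact h5.symm
  have hc0 : crv D.w i0 ≠ 0 := by
    intro h0
    have h1 := D.eval_crv σ0 i0
    have h2 : pts L L' x σ0 i0 = 1 := by
      change σ0 (x i0) = 1
      rw [hi0, map_one]
    rw [h0, eval_zero, h2, mul_one] at h1
    exact inv_ne_zero (D.c_ne σ0) h1.symm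
  have hmem : ∀ l : L, algebraMap L (RatFunc L') l ∈
      IntermediateField.adjoin ℂ (Set.range (aff D.w i0)) := fun l =>
    (congR' (Pool.Agent.Helper44K9.RN.stRuled hNLG) Pool.Agent.Helper44K9.RN.stDisj hW0 hDer
      hs hn hK hi0 hgen hω hω0 hωr D (by omega) hcard' hsplit (hd k) (hx k) hDk
      (B := B) (by omega) (hBig L' D hcard') (by omega) l).2
  refine section_thm hL hd k D.ind hs hc0 hmem (fun j hj => D.vanish (hd j)
    (fun σ => by rw [hσG, hx, map_zero]) (by rw [hcard']; exact hoth j hj)) ?_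
  obtain ⟨S, hS⟩ := Pool.Agent.Helper37K9.CI.exists_jac (G := fun j : {j // j ≠ k} => F j)
    (hgr.comp (fun j : {j // j ≠ k} => (j : κ)) Subtype.val_injective)
  refine ⟨S, fun h0 => hS ?_⟩
  have hτ : aeval (D.t σ0) (crv D.w i0) ≠ 0 := by
    rw [coe_aeval_eq_eval, D.eval_crv]
    have h2 : pts L L' x σ0 i0 = 1 := by
      change σ0 (x i0) = 1
      rw [hi0, map_one]
    rw [h2, mul_one]
    exact inv_ne_zero (D.c_ne σ0)
  have h1 := aff_spec (P := MvPolynomial.map (algebraMap ℂ L')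
    (Pool.Agent.TH145.SP.jac (fun j : {j // j ≠ k} => F j) S)) hc0 hτ
    (by rw [MvPolynomial.aeval_map_algebraMap]; exact h0)
  rw [MvPolynomial.aeval_map_algebraMap] at h1
  have h2 : pt D.w i0 (D.t σ0) = pts L L' x σ0 := by
    funext i
    rw [pt, coe_aeval_eq_eval, D.eval_crv, D.eval_crv]
    have h2 : pts L L' x σ0 i0 = 1 := by
      change σ0 (x i0) = 1
      rw [hi0, map_one]
    rw [h2, mul_one, mul_div_cancel_left₀ _ (inv_ne_zero (D.c_ne σ0))]
  rw [h2, hσG] at h1
  exact (map_eq_zero σ0).1 h1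

end

end Pool.Agent.Helper37K9.SU
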