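import Pool.Agent.Helper37K9.SU.Par
import Pool.Agent.Helper37K9.RN.Fin
import Pool.Agent.Y153.NT.CB

/-!
Maps of odd degree at most `5 m / 2 + 1`: the fibres are on rational normal curves of degree at
most two.
-/

set_option autoImplicit false
set_option linter.unusedSectionVars false

open Module Pool.Agent.Helper37K9.RN
open Pool.Agent.Y184.NT (StCB)

namespace Pool.Agent.Helper37K9.SU

theorem prod_lin {F : Type} [Field F] {N m : ℕ} (l : Fin m → Module.Dual F (Fin N → F)) :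
    ∃ P : MvPolynomial (Fin N) F, P.IsHomogeneous m ∧
      ∀ v, MvPolynomial.eval v P = ∏ k, l k v := by
  classical
  refine ⟨∏ k, linForm (l k), ?_, fun v => ?_⟩
  · have h1 := MvPolynomial.IsHomogeneous.prod (R := F) Finset.univ (fun k => linForm (l k))
      (fun _ => 1) fun k _ => linForm_hom (l k)
    simpa using h1
  · rw [map_prod]
    exact Finset.prod_congr rfl fun k _ => eval_linForm (l k) v

/-- collinear points -/
theorem line_of_cb (hCB : StCB) {Ω ι : Type} [Field Ω] {N m : ℕ} {S : Finset ι}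
    {v : ι → Fin N → Ω} {c : ι → Ω} (h : Rel m S v c) {i j : ι} (hi : i ∈ S) (hj : j ∈ S)
    (hij : i ≠ j) (hS : S.card ≤ 2 * m + 1) :
    ∃ Λ : Submodule Ω (Fin N → Ω), finrank Ω Λ ≤ 2 ∧ ∀ k ∈ S, v k ∈ Λ := by
  classical
  refine ⟨Submodule.span Ω {v i, v j}, ?_, fun k hk =>
    (hCB Ω N ι m S v c ⟨i, hi⟩ h.1 h.2.1 h.2.2.1 h.2.2.2 hS).2 i hi j hj hij k hk⟩
  have h1 := finrank_span_le_card (R := Ω) ({v i, v j} : Set (Fin N → Ω))
  refine h1.trans ?_
  rw [Set.toFinset_insert, Set.toFinset_singleton]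
  exact Finset.card_le_two

section

variable {Ω J : Type} [Field Ω] [IsAlgClosed Ω] [CharZero Ω] [Finite J] {N : ℕ}
  {z : J → Fin N → Ω}

/-- points in a plane: two lines, or a rational normal curve -/
theorem plane_case (hPlane : StPlane) (hConic : StConic) {m : ℕ} {S : Finset J} (hSu : ∀ j, j ∈ S)
    {c : J → Ω} (h : Rel m S z c) (hS : S.Nonempty) (hcard : 2 * S.card ≤ 5 * m + 2)
    {U : Submodule Ω (Fin N → Ω)} (hU : finrank Ω U = 3) (hzU : ∀ j, z j ∈ U) :
    (∃ Λ₁ Λ₂ : Submodule Ω (Fin N → Ω), finrank Ω Λ₁ ≤ 2 ∧ finrank Ω Λ₂ ≤ 2 ∧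
      ∀ j, z j ∈ Λ₁ ∨ z j ∈ Λ₂) ∨ Nonempty (Rnc Ω z 2) := by
  classical
  have : Fintype J := Fintype.ofFinite J
  have hinfΩ : Infinite Ω := IsAlgClosed.instInfinite
  let b : Basis (Fin 3) Ω U := (finBasisOfFinrankEq Ω U hU)
  let e : U ≃ₗ[Ω] (Fin 3 → Ω) := b.equivFun
  obtain ⟨y, hy⟩ : ∃ y : J → Fin 3 → Ω, ∀ j, y j = e ⟨z j, hzU j⟩ := ⟨_, fun _ => rfl⟩
  -- the inverse
  obtain ⟨g, hg⟩ : ∃ g : (Fin 3 → Ω) →ₗ[Ω] (Fin N → Ω), g = U.subtype ∘ₗ e.symm.toLinearMap :=
    ⟨_, rfl⟩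
  have hgy : ∀ j, g (y j) = z j := by
    intro j
    rw [hg, hy]
    simp
  have hginj : Function.Injective g := by
    rw [hg]
    exact U.injective_subtype.comp e.symm.injective
  have hrel : Rel m S y c := by
    refine ⟨h.1, fun j hj h0 => h.2.1 j hj ?_, fun i hi j hj hij => ?_, fun l => ?_⟩
    · rw [← hgy, h0, map_zero]
    · have h1 := h.2.2.1 i hi j hj hij
      refine LinearIndependent.pair_iff.2 fun p q hpq => ?_
      refine LinearIndependent.pair_iff.1 h1 p q ?_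
      rw [← hgy, ← hgy, ← map_smul, ← map_smul, ← map_add, hpq, map_zero]
    · have hl : ∀ k, ∃ l' : Module.Dual Ω (Fin N → Ω), ∀ j, l' (z j) = l k (y j) := by
        intro k
        obtain ⟨l', hl'⟩ := LinearMap.exists_extend ((l k) ∘ₗ e.toLinearMap)
        refine ⟨l', fun j => ?_⟩
        have h1 := congrArg (fun f => f ⟨z j, hzU j⟩) hl'
        simp only [LinearMap.comp_apply, Submodule.subtype_apply] at h1
        rw [h1, hy]
        rfl
      choose l' hl' using hl
      have h1 := h.2.2.2 l'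
      simp only [hl'] at h1
      exact h1
  obtain ⟨Q, hQ0, hQ⟩ := hPlane Ω J m S y c hS hrel hcard
  rcases hConic Ω Q hQ0 with ⟨l₁, l₂, h1, h2, h12⟩ | ⟨w, hw, hwQ⟩
  · left
    have hker : ∀ l : Module.Dual Ω (Fin 3 → Ω), l ≠ 0 →
        finrank Ω ((LinearMap.ker l).map g) ≤ 2 := by
      intro l hl
      refine (Submodule.finrank_map_le g _).trans ?_
      have h3 := LinearMap.finrank_range_add_finrank_ker l
      rw [Module.finrank_fin_fun] at h3
      have h4 : 1 ≤ finrank Ω (LinearMap.range l) := by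
        rw [Nat.one_le_iff_ne_zero]
        intro h5
        rw [Submodule.finrank_eq_zero, LinearMap.range_eq_bot] at h5
        exact hl h5
      omega
    refine ⟨(LinearMap.ker l₁).map g, (LinearMap.ker l₂).map g, hker l₁ h1, hker l₂ h2,
      fun j => ?_⟩
    have h3 := hQ j (hSu j)
    rw [h12, mul_eq_zero] at h3
    rcases h3 with h3 | h3
    · exact Or.inl ⟨y j, h3, hgy j⟩
    · exact Or.inr ⟨y j, h3, hgy j⟩
  · right
    choose a b' hab using fun j => hwQ (y j) (hQ j (hSu j))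
    have hz : ∀ j, z j ≠ 0 := fun j => h.2.1 j (hSu j)
    refine rnc_two (fun i j hij => h.2.2.1 i (hSu i) j (hSu j) hij) hz (w := fun k => g (w k))
      (hw.map' g (LinearMap.ker_eq_bot.2 hginj)) (a := a) (b := b') fun j => ?_
    rw [← hgy]
    conv_lhs => rw [hab j]
    rw [map_add, map_add, map_smul, map_smul, map_smul]

end

section

variable {L K : Type} [Field L] [Field K] [CharZero L] [Algebra L K] [FiniteDimensional L K]
  {N m : ℕ} {x : Fin N → K}

/-- the relation between the points of the fibre -/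
theorem rel_of {i0 : Fin N} (hi0 : x i0 = 1)
    (hinj : ∀ σ τ : K →ₐ[L] AlgebraicClosure L, (∀ i, pts L (AlgebraicClosure L) x σ i =
      pts L (AlgebraicClosure L) x τ i) → σ = τ)
    {c : (K →ₐ[L] AlgebraicClosure L) → AlgebraicClosure L} (hc : ∀ σ, c σ ≠ 0)
    (hsum : ∀ P : MvPolynomial (Fin N) (AlgebraicClosure L), P.IsHomogeneous m →
      ∑ σ, c σ * MvPolynomial.eval (pts L (AlgebraicClosure L) x σ) P = 0) :
    Rel m (Finset.univ : Finset (K →ₐ[L] AlgebraicClosure L))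
      (pts L (AlgebraicClosure L) x) c := by
  classical
  have h1 : ∀ σ : K →ₐ[L] AlgebraicClosure L, pts L (AlgebraicClosure L) x σ i0 = 1 := by
    intro σ
    change σ (x i0) = 1
    rw [hi0, map_one]
  have hind : ∀ σ τ : K →ₐ[L] AlgebraicClosure L, σ ≠ τ → LinearIndependent (AlgebraicClosure L)
      ![pts L (AlgebraicClosure L) x σ, pts L (AlgebraicClosure L) x τ] := by
    intro σ τ hστ
    refine LinearIndependent.pair_iff.2 fun a b hab => ?_
    have h2 := congrFun hab i0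
    rw [Pi.add_apply, Pi.smul_apply, Pi.smul_apply, h1, h1, smul_eq_mul, smul_eq_mul, mul_one,
      mul_one, Pi.zero_apply] at h2
    have h3 : b = -a := by linear_combination h2
    subst h3
    by_cases ha : a = 0
    · rw [ha]
      simp
    · exfalso
      apply hστ
      apply hinj
      intro i
      have h4 := congrFun hab i
      rw [Pi.add_apply, Pi.smul_apply, Pi.smul_apply, smul_eq_mul, smul_eq_mul,
        Pi.zero_apply] at h4
      apply mul_left_cancel₀ ha
      linear_combination h4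
  refine ⟨fun σ _ => hc σ, fun σ _ h0 => ?_, fun σ _ τ _ hστ => hind σ τ hστ, fun l => ?_⟩
  · have h2 := h1 σ
    rw [h0] at h2
    exact zero_ne_one h2
  · obtain ⟨P, hP, hPe⟩ := prod_lin l
    have h2 := hsum P hP
    simp only [hPe] at h2
    exact h2

theorem rel_card_of {i0 : Fin N} (hi0 : x i0 = 1)
    (hinj : ∀ σ τ : K →ₐ[L] AlgebraicClosure L, (∀ i, pts L (AlgebraicClosure L) x σ i =
      pts L (AlgebraicClosure L) x τ i) → σ = τ)
    {c : (K →ₐ[L] AlgebraicClosure L) → AlgebraicClosure L} (hc : ∀ σ, c σ ≠ 0)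
    (hsum : ∀ P : MvPolynomial (Fin N) (AlgebraicClosure L), P.IsHomogeneous m →
      ∑ σ, c σ * MvPolynomial.eval (pts L (AlgebraicClosure L) x σ) P = 0) :
    m + 2 ≤ finrank L K := by
  classical
  have hcard : Fintype.card (K →ₐ[L] AlgebraicClosure L) = finrank L K := AlgHom.card L K _
  have h0 : 0 < finrank L K := finrank_pos
  obtain ⟨σ0⟩ : Nonempty (K →ₐ[L] AlgebraicClosure L) := Fintype.card_pos_iff.1 (by omega)
  have h := rel_of hi0 hinj hc hsum
  have h1 := Pool.Agent.Y153.NT.claim1 m _ _ c ⟨σ0, Finset.mem_univ _⟩ h.1 h.2.1 h.2.2.1 h.2.2.2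
  rw [Finset.card_univ, hcard] at h1
  exact h1

/-- the fibre is on a line or a conic -/
theorem rnc_of_odd (hCB : StCB) (hSpace : StSpace) (hPlane : StPlane) (hConic : StConic)
    (hOdd : StOdd) {i0 : Fin N} (hi0 : x i0 = 1)
    (hgen : IntermediateField.adjoin L (Set.range x) = ⊤)
    (hinj : ∀ σ τ : K →ₐ[L] AlgebraicClosure L, (∀ i, pts L (AlgebraicClosure L) x σ i =
      pts L (AlgebraicClosure L) x τ i) → σ = τ)
    {c : (K →ₐ[L] AlgebraicClosure L) → AlgebraicClosure L} (hc : ∀ σ, c σ ≠ 0)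
    (hsum : ∀ P : MvPolynomial (Fin N) (AlgebraicClosure L), P.IsHomogeneous m →
      ∑ σ, c σ * MvPolynomial.eval (pts L (AlgebraicClosure L) x σ) P = 0)
    (hodd : Odd (finrank L K)) (hr : 2 * finrank L K ≤ 5 * m + 2) (hr2 : 2 ≤ finrank L K) :
    Nonempty (Rnc (AlgebraicClosure L) (pts L (AlgebraicClosure L) x) 1) ∨
      (2 * m + 2 ≤ finrank L K ∧
        Nonempty (Rnc (AlgebraicClosure L) (pts L (AlgebraicClosure L) x) 2)) := by
  classical
  have hinfΩ : Infinite (AlgebraicClosure L) := IsAlgClosed.instInfinite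
  have hcard : Fintype.card (K →ₐ[L] AlgebraicClosure L) = finrank L K := AlgHom.card L K _
  have h1 : ∀ σ : K →ₐ[L] AlgebraicClosure L, pts L (AlgebraicClosure L) x σ i0 = 1 := by
    intro σ
    change σ (x i0) = 1
    rw [hi0, map_one]
  have hind : ∀ σ τ : K →ₐ[L] AlgebraicClosure L, σ ≠ τ → LinearIndependent (AlgebraicClosure L)
      ![pts L (AlgebraicClosure L) x σ, pts L (AlgebraicClosure L) x τ] := by
    intro σ τ hστ
    refine LinearIndependent.pair_iff.2 fun a b hab => ?_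
    have h2 := congrFun hab i0
    rw [Pi.add_apply, Pi.smul_apply, Pi.smul_apply, h1, h1, smul_eq_mul, smul_eq_mul, mul_one,
      mul_one, Pi.zero_apply] at h2
    have h3 : b = -a := by linear_combination h2
    subst h3
    by_cases ha : a = 0
    · rw [ha]
      simp
    · exfalso
      apply hστ
      apply hinj
      intro i
      have h4 := congrFun hab i
      rw [Pi.add_apply, Pi.smul_apply, Pi.smul_apply, smul_eq_mul, smul_eq_mul,
        Pi.zero_apply] at h4
      apply mul_left_cancel₀ ha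
      linear_combination h4
  have hne : ∀ σ : K →ₐ[L] AlgebraicClosure L, pts L (AlgebraicClosure L) x σ ≠ 0 := by
    intro σ h0
    have h2 := h1 σ
    rw [h0] at h2
    exact zero_ne_one h2
  have hrel : Rel m (Finset.univ : Finset (K →ₐ[L] AlgebraicClosure L))
      (pts L (AlgebraicClosure L) x) c := by
    refine ⟨fun σ _ => hc σ, fun σ _ => hne σ, fun σ _ τ _ hστ => hind σ τ hστ, fun l => ?_⟩
    obtain ⟨P, hP, hPe⟩ := prod_lin l
    have h2 := hsum P hP
    simp only [hPe] at h2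
    exact h2
  obtain ⟨σ1, σ2, h12⟩ : ∃ σ τ : K →ₐ[L] AlgebraicClosure L, σ ≠ τ :=
    Fintype.one_lt_card_iff.1 (by omega)
  have hSc : (Finset.univ : Finset (K →ₐ[L] AlgebraicClosure L)).card = finrank L K := by
    rw [Finset.card_univ, hcard]
  have hline : ∀ Λ : Submodule (AlgebraicClosure L) (Fin N → AlgebraicClosure L),
      finrank (AlgebraicClosure L) Λ ≤ 2 → (∀ σ, pts L (AlgebraicClosure L) x σ ∈ Λ) →
      Nonempty (Rnc (AlgebraicClosure L) (pts L (AlgebraicClosure L) x) 1) :=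
    fun Λ hΛ h => rnc_one hind hΛ h h12
  by_cases hm : finrank L K ≤ 2 * m + 1
  · left
    obtain ⟨Λ, hΛ, h⟩ := line_of_cb hCB hrel (Finset.mem_univ σ1) (Finset.mem_univ σ2) h12
      (by rw [hSc]; exact hm)
    exact hline Λ hΛ fun σ => h σ (Finset.mem_univ σ)
  · have hm' : 2 * m + 2 ≤ finrank L K := by omega
    have h5 : 5 ≤ finrank L K := by
      obtain ⟨e, he⟩ := hodd
      omega
    have htwo : ∀ Λ₁ Λ₂ : Submodule (AlgebraicClosure L) (Fin N → AlgebraicClosure L),
        finrank (AlgebraicClosure L) Λ₁ ≤ 2 → finrank (AlgebraicClosure L) Λ₂ ≤ 2 →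
        (∀ σ, pts L (AlgebraicClosure L) x σ ∈ Λ₁ ∨ pts L (AlgebraicClosure L) x σ ∈ Λ₂) →
        Nonempty (Rnc (AlgebraicClosure L) (pts L (AlgebraicClosure L) x) 1) := by
      intro Λ₁ Λ₂ hΛ₁ hΛ₂ h
      obtain ⟨Λ, hΛ, h'⟩ := hOdd L K N x i0 hi0 hgen hodd h5 Λ₁ Λ₂ hΛ₁ hΛ₂ h
      exact hline Λ hΛ h'
    rcases hSpace (AlgebraicClosure L) N _ m Finset.univ (pts L (AlgebraicClosure L) x) c
      ⟨σ1, Finset.mem_univ _⟩ hrel (by rw [hSc]; exact hr) with ⟨Λ₁, Λ₂, hΛ₁, hΛ₂, h⟩ | ⟨U, hU, h⟩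
    · exact Or.inl (htwo Λ₁ Λ₂ hΛ₁ hΛ₂ fun σ => h σ (Finset.mem_univ σ))
    · by_cases hU2 : finrank (AlgebraicClosure L) U ≤ 2
      · exact Or.inl (hline U hU2 fun σ => h σ (Finset.mem_univ σ))
      · rcases plane_case hPlane hConic (fun σ => Finset.mem_univ σ) hrel
          ⟨σ1, Finset.mem_univ _⟩ (by rw [hSc]; exact hr) (U := U) (by omega)
          (fun σ => h σ (Finset.mem_univ σ)) with ⟨Λ₁, Λ₂, hΛ₁, hΛ₂, h'⟩ | h'
        · exact Or.inl (htwo Λ₁ Λ₂ hΛ₁ hΛ₂ h')
        · exact Or.inr ⟨hm', h'⟩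

end

end Pool.Agent.Helper37K9.SU
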