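import Pool.Agent.Helper37K9.SU.St

/-!
Rational normal curves of degree one and two through points.
-/

set_option autoImplicit false

open Module Pool.Agent.Helper37K9.RN

namespace Pool.Agent.Helper37K9.SU

variable {F J : Type} [Field F] {N : ℕ}

theorem exists_mu [Infinite F] [Finite J] {a b : J → F} (h : ∀ j, a j ≠ 0 ∨ b j ≠ 0) :
    ∃ μ, ∀ j, a j + μ * b j ≠ 0 := by
  classical
  have : Fintype J := Fintype.ofFinite J
  obtain ⟨μ, hμ⟩ := Infinite.exists_notMem_finset (Finset.univ.image fun j => -(a j / b j))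
  refine ⟨μ, fun j h0 => hμ ?_⟩
  rw [Finset.mem_image]
  refine ⟨j, Finset.mem_univ j, ?_⟩
  by_cases hb : b j = 0
  · rw [hb, mul_zero, add_zero] at h0
    rcases h j with h1 | h1
    · exact absurd h0 h1
    · exact absurd hb h1
  · rw [eq_comm, eq_neg_iff_add_eq_zero, ← mul_left_inj' hb, add_mul, div_mul_cancel₀ _ hb,
      zero_mul, add_comm]
    exact h0

/-- points on a line -/
theorem rnc_one [Infinite F] [Finite J] {z : J → Fin N → F}
    (hind : ∀ i j, i ≠ j → LinearIndependent F ![z i, z j])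
    {Λ : Submodule F (Fin N → F)} (hΛ : finrank F Λ ≤ 2) (h : ∀ j, z j ∈ Λ)
    {j1 j2 : J} (hj : j1 ≠ j2) : Nonempty (Rnc F z 1) := by
  classical
  have hz : ∀ j, z j ≠ 0 := by
    intro j
    by_cases hj1 : j = j1
    · have h1 := (hind j j2 (by rw [hj1]; exact hj)).ne_zero 0
      simpa using h1
    · have h1 := (hind j j1 hj1).ne_zero 0
      simpa using h1
  have hspan : Submodule.span F (Set.range ![z j1, z j2]) = Λ := by
    apply Submodule.eq_of_le_of_finrank_le
    · rw [Submodule.span_le]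
      rintro _ ⟨i, rfl⟩
      fin_cases i
      · exact h j1
      · exact h j2
    · rw [finrank_span_eq_card (hind j1 j2 hj), Fintype.card_fin]
      exact hΛ
  have hab : ∀ j, ∃ p q : F, z j = p • z j1 + q • z j2 := by
    intro j
    have h1 := h j
    rw [← hspan, Submodule.mem_span_range_iff_exists_fun] at h1
    obtain ⟨c, hc⟩ := h1
    refine ⟨c 0, c 1, ?_⟩
    rw [← hc, Fin.sum_univ_two]
    rfl
  choose p q hpq using hab
  obtain ⟨μ, hμ⟩ := exists_mu (a := p) (b := q) fun j => by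
    by_contra hcon
    push Not at hcon
    apply hz j
    rw [hpq j, hcon.1, hcon.2, zero_smul, zero_smul, add_zero]
  have hli := LinearIndependent.pair_iff.1 (hind j1 j2 hj)
  have heq : ∀ j i, z j i = (p j + μ * q j) * ∑ k : Fin (1 + 1),
      (q j / (p j + μ * q j)) ^ (k : ℕ) * (![z j1, z j2 - μ • z j1] : Fin (1 + 1) → Fin N → F) k i := by
    intro j i
    rw [Fin.sum_univ_two]
    have h1 := congrFun (hpq j) i
    rw [Pi.add_apply, Pi.smul_apply, Pi.smul_apply, smul_eq_mul, smul_eq_mul] at h1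
    have h2 : (![z j1, z j2 - μ • z j1] : Fin (1 + 1) → Fin N → F) 0 i = z j1 i := rfl
    have h3 : (![z j1, z j2 - μ • z j1] : Fin (1 + 1) → Fin N → F) 1 i = z j2 i - μ * z j1 i := rfl
    have h4 := hμ j
    rw [h2, h3, h1]
    simp only [Fin.val_zero, pow_zero, one_mul, Fin.val_one, pow_one]
    obtain ⟨A, hA⟩ : ∃ A, A = p j + μ * q j := ⟨_, rfl⟩
    have hp : p j = A - μ * q j := by rw [hA]; ring
    rw [← hA] at h4 ⊢
    rw [hp]
    field_simp
    ring
  refine ⟨{
    w := ![z j1, z j2 - μ • z j1]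
    ind := ?_
    t := fun j => q j / (p j + μ * q j)
    c := fun j => p j + μ * q j
    c_ne := hμ
    t_inj := fun i j hij => ?_
    eq := heq }⟩
  · refine LinearIndependent.pair_iff.2 fun a b hab => ?_
    have h1 : (a - b * μ) • z j1 + b • z j2 = 0 := by
      rw [← hab, smul_sub, smul_smul, sub_smul]
      abel
    obtain ⟨h2, h3⟩ := hli _ _ h1
    rw [h3, zero_mul, sub_zero] at h2
    exact ⟨h2, h3⟩
  · by_contra hne
    have h1 := LinearIndependent.pair_iff.1 (hind i j hne) (p j + μ * q j) (-(p i + μ * q i)) (by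
      funext l
      rw [Pi.add_apply, Pi.smul_apply, Pi.smul_apply, smul_eq_mul, smul_eq_mul, heq i l, heq j l]
      simp only at hij
      rw [hij, Pi.zero_apply]
      ring)
    exact hμ j h1.1

/-- points on a conic -/
theorem rnc_two [Infinite F] [Finite J] {z : J → Fin N → F}
    (hind : ∀ i j, i ≠ j → LinearIndependent F ![z i, z j]) (hz : ∀ j, z j ≠ 0)
    {w : Fin 3 → Fin N → F} (hw : LinearIndependent F w) {a b : J → F}
    (h : ∀ j, z j = a j ^ 2 • w 0 + (a j * b j) • w 1 + b j ^ 2 • w 2) :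
    Nonempty (Rnc F z 2) := by
  classical
  obtain ⟨μ, hμ⟩ := exists_mu (a := a) (b := b) fun j => by
    by_contra hcon
    push Not at hcon
    apply hz j
    rw [h j, hcon.1, hcon.2]
    simp
  obtain ⟨w', hw'⟩ : ∃ w' : Fin (2 + 1) → Fin N → F,
    w' = ![w 0, w 1 - (2 * μ) • w 0, w 2 - μ • w 1 + μ ^ 2 • w 0] := ⟨_, rfl⟩
  have heq : ∀ j i, z j i = (a j + μ * b j) ^ 2 * ∑ k : Fin (2 + 1),
      (b j / (a j + μ * b j)) ^ (k : ℕ) * w' k i := by
    intro j i
    rw [Fin.sum_univ_three]
    have h1 := congrFun (h j) i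
    simp only [Pi.add_apply, Pi.smul_apply, smul_eq_mul] at h1
    have h2 : w' 0 i = w 0 i := by rw [hw']; rfl
    have h3 : w' 1 i = w 1 i - 2 * μ * w 0 i := by rw [hw']; rfl
    have h5 : w' 2 i = w 2 i - μ * w 1 i + μ ^ 2 * w 0 i := by rw [hw']; rfl
    have h4 := hμ j
    have e0 : ((0 : Fin (2 + 1)) : ℕ) = 0 := rfl
    have e1 : ((1 : Fin (2 + 1)) : ℕ) = 1 := rfl
    have e2 : ((2 : Fin (2 + 1)) : ℕ) = 2 := rfl
    rw [h2, h3, h5, h1, e0, e1, e2]
    simp only [pow_zero, one_mul, pow_one]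
    obtain ⟨A, hA⟩ : ∃ A, A = a j + μ * b j := ⟨_, rfl⟩
    have hp : a j = A - μ * b j := by rw [hA]; ring
    rw [← hA] at h4 ⊢
    rw [hp]
    field_simp
    ring
  refine ⟨{
    w := w'
    ind := ?_
    t := fun j => b j / (a j + μ * b j)
    c := fun j => (a j + μ * b j) ^ 2
    c_ne := fun j => pow_ne_zero _ (hμ j)
    t_inj := fun i j hij => ?_
    eq := heq }⟩
  · rw [Fintype.linearIndependent_iff] at hw ⊢
    intro g hg
    have h1 := hw ![g 0 - 2 * μ * g 1 + μ ^ 2 * g 2, g 1 - μ * g 2, g 2] (by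
      rw [← hg, Fin.sum_univ_three, Fin.sum_univ_three, hw']
      funext i
      simp only [Matrix.cons_val_zero, Matrix.cons_val_one, Matrix.cons_val_two,
        Matrix.head_cons, Matrix.tail_cons, Pi.add_apply, Pi.smul_apply, Pi.sub_apply, smul_eq_mul]
      ring)
    have h20 := h1 2
    have h21 := h1 1
    have h22 := h1 0
    simp only [Matrix.cons_val_zero, Matrix.cons_val_one, Matrix.cons_val_two,
      Matrix.head_cons, Matrix.tail_cons] at h20 h21 h22
    rw [h20, mul_zero, sub_zero] at h21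
    rw [h20, h21, mul_zero, mul_zero, sub_zero, add_zero] at h22
    intro i
    fin_cases i
    · exact h22
    · exact h21
    · exact h20
  · by_contra hne
    have h1 := LinearIndependent.pair_iff.1 (hind i j hne) ((a j + μ * b j) ^ 2)
      (-((a i + μ * b i) ^ 2)) (by
      funext l
      rw [Pi.add_apply, Pi.smul_apply, Pi.smul_apply, smul_eq_mul, smul_eq_mul, heq i l, heq j l]
      simp only at hij
      rw [hij, Pi.zero_apply]
      ring)
    exact pow_ne_zero 2 (hμ j) h1.1

end Pool.Agent.Helper37K9.SU
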