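import Pool.Agent.Helper37K9.SU.St
import Pool.Agent.Y153.NT.CB

/-!
Points with a relation in degree `m`: at most `5 m / 2 + 1` points are on two lines or in a plane.
-/

set_option autoImplicit false
set_option linter.unusedSectionVars false

open Module

namespace Pool.Agent.Helper37K9.SU

section

variable {Ω : Type} [Field Ω] {N : ℕ} {ι : Type} {m : ℕ} {S : Finset ι} {v : ι → Fin N → Ω}
  {c : ι → Ω}

theorem exists_fun [Infinite Ω] (U : Submodule Ω (Fin N → Ω)) (S : Finset ι) (v : ι → Fin N → Ω)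
    (hv : ∀ i ∈ S, v i ∉ U) :
    ∃ h : Module.Dual Ω (Fin N → Ω), (∀ u ∈ U, h u = 0) ∧ ∀ i ∈ S, h (v i) ≠ 0 := by
  classical
  obtain ⟨f, hf⟩ := Module.exists_dual_forall_apply_ne_zero (K := Ω)
    (fun i : S => U.mkQ (v i)) fun i h3 => by
      rw [Submodule.mkQ_apply, Submodule.Quotient.mk_eq_zero] at h3
      exact hv i i.2 h3
  refine ⟨f ∘ₗ U.mkQ, fun u hu => ?_, fun i hi => hf ⟨i, hi⟩⟩
  rw [LinearMap.comp_apply, Submodule.mkQ_apply, (Submodule.Quotient.mk_eq_zero U).2 hu, map_zero]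

/-- the points outside a linear subspace -/
theorem rel_sub [Infinite Ω] (h : Rel (m + 1) S v c) (U : Submodule Ω (Fin N → Ω))
    [DecidablePred fun i => v i ∉ U] :
    ∃ c' : ι → Ω, Rel m (S.filter (fun i => v i ∉ U)) v c' := by
  classical
  obtain ⟨f, hf, hf'⟩ := exists_fun U (S.filter (fun i => v i ∉ U)) v
    fun i hi => (Finset.mem_filter.1 hi).2
  have h1 : S.filter (fun i => v i ∉ U) = S.filter (fun i => f (v i) ≠ 0) := by
    ext i
    rw [Finset.mem_filter, Finset.mem_filter]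
    constructor
    · intro hi
      exact ⟨hi.1, hf' i (Finset.mem_filter.2 hi)⟩
    · intro hi
      exact ⟨hi.1, fun h2 => hi.2 (hf _ h2)⟩
  refine ⟨fun i => c i * f (v i), fun i hi => ?_, fun i hi => ?_, fun i hi j hj hij => ?_,
    fun l => ?_⟩
  · exact mul_ne_zero (h.1 i (Finset.mem_filter.1 hi).1) (hf' i hi)
  · exact h.2.1 i (Finset.mem_filter.1 hi).1
  · exact h.2.2.1 i (Finset.mem_filter.1 hi).1 j (Finset.mem_filter.1 hj).1 hij
  · rw [h1]
    exact Pool.Agent.Y153.NT.restrict_rel m S v c h.2.2.2 f l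

theorem rel_card (h : Rel m S v c) (hS : S.Nonempty) : m + 2 ≤ S.card :=
  Pool.Agent.Y153.NT.claim1 m S v c hS h.1 h.2.1 h.2.2.1 h.2.2.2

theorem rel_line (h : Rel m S v c) (hS : S.Nonempty) (hcard : S.card ≤ 2 * m + 1) :
    ∃ Λ : Submodule Ω (Fin N → Ω), finrank Ω Λ ≤ 2 ∧ ∀ k ∈ S, v k ∈ Λ := by
  classical
  have h1 := rel_card h hS
  obtain ⟨i, hi, j, hj, hij⟩ := Finset.one_lt_card.1 (show 1 < S.card by omega)
  refine ⟨Submodule.span Ω {v i, v j}, ?_, fun k hk =>
    (Pool.Agent.Y153.NT.stCB Ω N ι m S v c hS h.1 h.2.1 h.2.2.1 h.2.2.2 hcard).2 i hi j hj hij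
      k hk⟩
  have h1 := finrank_span_le_card (R := Ω) ({v i, v j} : Set (Fin N → Ω))
  refine h1.trans ?_
  rw [Set.toFinset_insert, Set.toFinset_singleton]
  exact Finset.card_le_two

/-- a line and a point are in a plane -/
theorem plane_of (Λ : Submodule Ω (Fin N → Ω)) (hΛ : finrank Ω Λ ≤ 2) (w : Fin N → Ω) :
    finrank Ω ↥(Λ ⊔ Submodule.span Ω {w}) ≤ 3 := by
  have h1 := Submodule.finrank_add_le_finrank_add_finrank Λ (Submodule.span Ω {w})
  have h2 := finrank_span_le_card (R := Ω) ({w} : Set (Fin N → Ω))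
  rw [Set.toFinset_singleton, Finset.card_singleton] at h2
  omega

end

theorem space_aux (Ω : Type) [Field Ω] [Infinite Ω] (N : ℕ) (ι : Type) (v : ι → Fin N → Ω) (m : ℕ) :
    ∀ (S : Finset ι) (c : ι → Ω), S.Nonempty → Rel m S v c →
    2 * S.card ≤ 5 * m + 2 →
    (∃ Λ₁ Λ₂ : Submodule Ω (Fin N → Ω), finrank Ω Λ₁ ≤ 2 ∧ finrank Ω Λ₂ ≤ 2 ∧
      ∀ i ∈ S, v i ∈ Λ₁ ∨ v i ∈ Λ₂) ∨
    ∃ U : Submodule Ω (Fin N → Ω), finrank Ω U ≤ 3 ∧ ∀ i ∈ S, v i ∈ U := by
  classical
  induction m with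
  | zero =>
    intro S c hS h hcard
    have := rel_card h hS
    omega
  | succ m ih =>
    intro S c hS h hcard
    by_cases hc1 : S.card ≤ 2 * (m + 1) + 1
    · obtain ⟨Λ, hΛ, h1⟩ := rel_line h hS hc1
      exact Or.inl ⟨Λ, Λ, hΛ, hΛ, fun i hi => Or.inl (h1 i hi)⟩
    obtain ⟨m, rfl⟩ : ∃ k, m = k + 1 := ⟨m - 1, by omega⟩
    by_contra hcon
    push Not at hcon
    obtain ⟨hno2, hnoU⟩ := hcon
    -- a plane with the largest number of points
    obtain ⟨U, hU3, hUmax⟩ : ∃ U : Submodule Ω (Fin N → Ω), finrank Ω U ≤ 3 ∧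
        ∀ U' : Submodule Ω (Fin N → Ω), finrank Ω U' ≤ 3 →
        (S.filter (fun i => v i ∈ U')).card ≤ (S.filter (fun i => v i ∈ U)).card := by
      obtain ⟨A, hA, hmax⟩ := Finset.exists_max_image (S.powerset.filter fun A =>
        ∃ U : Submodule Ω (Fin N → Ω), finrank Ω U ≤ 3 ∧ A = S.filter (fun i => v i ∈ U))
        Finset.card ⟨S.filter (fun i => v i ∈ (⊥ : Submodule Ω (Fin N → Ω))),
          Finset.mem_filter.2 ⟨Finset.mem_powerset.2 (Finset.filter_subset _ _), ⊥, by simp, rfl⟩⟩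
      obtain ⟨U, hU3, rfl⟩ := (Finset.mem_filter.1 hA).2
      exact ⟨U, hU3, fun U' hU' => hmax _ (Finset.mem_filter.2
        ⟨Finset.mem_powerset.2 (Finset.filter_subset _ _), U', hU', rfl⟩)⟩
    have hsplit : ∀ U' : Submodule Ω (Fin N → Ω), (S.filter (fun i => v i ∈ U')).card +
        (S.filter (fun i => v i ∉ U')).card = S.card := fun U' =>
      Finset.card_filter_add_card_filter_not (s := S) (fun i => v i ∈ U')
    -- at least three points
    have h3 : 3 ≤ (S.filter (fun i => v i ∈ U)).card := by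
      obtain ⟨i, hi, j, hj, k, hk, hij, hik, hjk⟩ := Finset.two_lt_card.1
        (show 2 < S.card by omega)
      have h4 := hUmax (Submodule.span Ω {v i, v j, v k}) (by
        have h5 := finrank_span_le_card (R := Ω) ({v i, v j, v k} : Set (Fin N → Ω))
        refine h5.trans ?_
        rw [Set.toFinset_insert, Set.toFinset_insert, Set.toFinset_singleton]
        exact Finset.card_le_three)
      refine le_trans ?_ h4
      have h5 : ({i, j, k} : Finset ι) ⊆
          S.filter (fun l => v l ∈ Submodule.span Ω {v i, v j, v k}) := by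
        intro l hl
        rw [Finset.mem_filter]
        rcases Finset.mem_insert.1 hl with rfl | hl
        · exact ⟨hi, Submodule.subset_span (by simp)⟩
        · rcases Finset.mem_insert.1 hl with rfl | hl
          · exact ⟨hj, Submodule.subset_span (by simp)⟩
          · rw [Finset.mem_singleton] at hl
            subst hl
            exact ⟨hk, Submodule.subset_span (by simp)⟩
      have h6 := Finset.card_le_card h5
      rw [Finset.card_eq_three.2 ⟨i, j, k, hij, hik, hjk, rfl⟩] at h6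
      exact h6
    obtain ⟨T, hT⟩ : ∃ T, T = S.filter (fun i => v i ∉ U) := ⟨_, rfl⟩
    have hTS : ∀ i ∈ T, i ∈ S := fun i hi => by
      rw [hT] at hi
      exact (Finset.mem_filter.1 hi).1
    have hTne : T.Nonempty := by
      obtain ⟨i, hi, hi'⟩ := hnoU U hU3
      exact ⟨i, by rw [hT]; exact Finset.mem_filter.2 ⟨hi, hi'⟩⟩
    obtain ⟨c', hc'⟩ := rel_sub h U
    rw [← hT] at hc'
    have hsU := hsplit U
    rw [← hT] at hsU
    have hTc := rel_card hc' hTne
    -- the points of `T` are not in a plane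
    have hA : ∀ U' : Submodule Ω (Fin N → Ω), finrank Ω U' ≤ 3 → ¬ ∀ i ∈ T, v i ∈ U' := by
      intro U' hU' hTU
      have h4 : T.card ≤ (S.filter (fun i => v i ∈ U')).card :=
        Finset.card_le_card fun i hi => Finset.mem_filter.2 ⟨hTS i hi, hTU i hi⟩
      have h5 := hUmax U' hU'
      obtain ⟨Λ, hΛ, hΛT⟩ := rel_line hc' hTne (by omega)
      obtain ⟨c2, hc2⟩ := rel_sub h Λ
      have h6 : T.card ≤ (S.filter (fun i => v i ∈ Λ)).card :=
        Finset.card_le_card fun i hi => Finset.mem_filter.2 ⟨hTS i hi, hΛT i hi⟩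
      have h7 := hsplit Λ
      obtain ⟨i, hi, hi'⟩ := hnoU Λ (by omega)
      obtain ⟨Λ', hΛ', hΛS⟩ := rel_line hc2 ⟨i, Finset.mem_filter.2 ⟨hi, hi'⟩⟩ (by omega)
      obtain ⟨j, hj, hj1, hj2⟩ := hno2 Λ Λ' hΛ hΛ'
      exact hj2 (hΛS j (Finset.mem_filter.2 ⟨hj, hj1⟩))
    rcases ih T c' hTne hc' (by omega) with ⟨Λ₁, Λ₂, hΛ₁, hΛ₂, hTΛ⟩ | ⟨U', hU', hTU⟩
    · obtain ⟨i1, hi1, hi1'⟩ : ∃ i ∈ T, v i ∉ Λ₁ := by
        by_contra h4
        push Not at h4
        exact hA Λ₁ (by omega) h4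
      obtain ⟨i2, hi2, hi2'⟩ : ∃ i ∈ T, v i ∉ Λ₂ := by
        by_contra h4
        push Not at h4
        exact hA Λ₂ (by omega) h4
      obtain ⟨c1, hc1'⟩ := rel_sub hc' Λ₁
      obtain ⟨c2, hc2'⟩ := rel_sub hc' Λ₂
      have h4 := rel_card hc1' ⟨i1, Finset.mem_filter.2 ⟨hi1, hi1'⟩⟩
      have h5 := rel_card hc2' ⟨i2, Finset.mem_filter.2 ⟨hi2, hi2'⟩⟩
      have hdis : Disjoint (T.filter (fun i => v i ∉ Λ₁)) (T.filter (fun i => v i ∉ Λ₂)) := by
        rw [Finset.disjoint_left]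
        intro i hi hi'
        rcases hTΛ i (Finset.mem_filter.1 hi).1 with h6 | h6
        · exact (Finset.mem_filter.1 hi).2 h6
        · exact (Finset.mem_filter.1 hi').2 h6
      have h6 := Finset.card_le_card (Finset.union_subset
        (Finset.filter_subset (fun i => v i ∉ Λ₁) T) (Finset.filter_subset (fun i => v i ∉ Λ₂) T))
      rw [Finset.card_union_of_disjoint hdis] at h6
      -- a plane with many points
      have h7 := hUmax (Λ₁ ⊔ Submodule.span Ω {v i1}) (plane_of Λ₁ hΛ₁ (v i1))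
      have h8 : insert i1 (T.filter (fun i => v i ∉ Λ₂)) ⊆
          S.filter (fun i => v i ∈ Λ₁ ⊔ Submodule.span Ω {v i1}) := by
        intro i hi
        rw [Finset.mem_filter]
        rcases Finset.mem_insert.1 hi with rfl | hi
        · exact ⟨hTS _ hi1, Submodule.mem_sup_right (Submodule.mem_span_singleton_self _)⟩
        · refine ⟨hTS i (Finset.mem_filter.1 hi).1, Submodule.mem_sup_left ?_⟩
          rcases hTΛ i (Finset.mem_filter.1 hi).1 with h9 | h9
          · exact h9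
          · exact absurd h9 (Finset.mem_filter.1 hi).2
      have h9 := Finset.card_le_card h8
      rw [Finset.card_insert_of_notMem] at h9
      · omega
      · intro h10
        rcases hTΛ i1 hi1 with h11 | h11
        · exact hi1' h11
        · exact (Finset.mem_filter.1 h10).2 h11
    · exact hA U' hU' hTU

theorem stSpace : StSpace := by
  intro Ω _ _ N ι m S v c hS h hcard
  exact space_aux Ω N ι v m S c hS h hcard

end Pool.Agent.Helper37K9.SU
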