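import Pool.Agent.Y184.NT.St
import Pool.Agent.Helper37K9.RN.Rnc

/-!
Maps of odd degree at most `5 m / 2 + 1`: the statements of the parts of the proof.
-/

set_option autoImplicit false

open Module Pool.Agent.Helper37K9.RN

namespace Pool.Agent.Helper37K9.SU

/-- The points `v i`, `i ∈ S`, of projective space are different and satisfy a linear relation in
degree `m` with coefficients different from zero (condition of Cayley and Bacharach). -/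
def Rel {Ω : Type} [Field Ω] {N : ℕ} {ι : Type} (m : ℕ) (S : Finset ι) (v : ι → Fin N → Ω)
    (c : ι → Ω) : Prop :=
  (∀ i ∈ S, c i ≠ 0) ∧ (∀ i ∈ S, v i ≠ 0) ∧
  (∀ i ∈ S, ∀ j ∈ S, i ≠ j → LinearIndependent Ω ![v i, v j]) ∧
  ∀ l : Fin m → Module.Dual Ω (Fin N → Ω), ∑ i ∈ S, c i * ∏ k, l k (v i) = 0

/-- [SPACE] At most `5 m / 2 + 1` points which satisfy such a relation are on two lines or in a
plane. -/
def StSpace : Prop := ∀ (Ω : Type) [Field Ω] [Infinite Ω] (N : ℕ) (ι : Type) (m : ℕ)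
  (S : Finset ι) (v : ι → Fin N → Ω) (c : ι → Ω), S.Nonempty → Rel m S v c →
  2 * S.card ≤ 5 * m + 2 →
  (∃ Λ₁ Λ₂ : Submodule Ω (Fin N → Ω), finrank Ω Λ₁ ≤ 2 ∧ finrank Ω Λ₂ ≤ 2 ∧
    ∀ i ∈ S, v i ∈ Λ₁ ∨ v i ∈ Λ₂) ∨
  ∃ U : Submodule Ω (Fin N → Ω), finrank Ω U ≤ 3 ∧ ∀ i ∈ S, v i ∈ U

/-- [PLANE] At most `5 m / 2 + 1` points in a plane which satisfy such a relation are on a conic. -/
def StPlane : Prop := ∀ (Ω : Type) [Field Ω] [Infinite Ω] (ι : Type) (m : ℕ)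
  (S : Finset ι) (v : ι → Fin 3 → Ω) (c : ι → Ω), S.Nonempty → Rel m S v c →
  2 * S.card ≤ 5 * m + 2 → ∃ Q : QuadraticForm Ω (Fin 3 → Ω), Q ≠ 0 ∧ ∀ i ∈ S, Q (v i) = 0

/-- [CONIC] Conics are pairs of lines or rational normal curves. -/
def StConic : Prop := ∀ (Ω : Type) [Field Ω] [IsAlgClosed Ω] [CharZero Ω]
  (Q : QuadraticForm Ω (Fin 3 → Ω)), Q ≠ 0 →
  (∃ l₁ l₂ : Module.Dual Ω (Fin 3 → Ω), l₁ ≠ 0 ∧ l₂ ≠ 0 ∧ ∀ v, Q v = l₁ v * l₂ v) ∨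
  ∃ w : Fin 3 → Fin 3 → Ω, LinearIndependent Ω w ∧
    ∀ v, Q v = 0 → ∃ a b : Ω, v = a ^ 2 • w 0 + (a * b) • w 1 + b ^ 2 • w 2

/-- [ODD] If the conjugates of a point of odd degree are on two lines, then they are on one line. -/
def StOdd : Prop := ∀ (L K : Type) [Field L] [Field K] [CharZero L] [Algebra L K]
  [FiniteDimensional L K] (N : ℕ) (x : Fin N → K) (i0 : Fin N), x i0 = 1 →
  IntermediateField.adjoin L (Set.range x) = ⊤ → Odd (finrank L K) → 5 ≤ finrank L K →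
  ∀ Λ₁ Λ₂ : Submodule (AlgebraicClosure L) (Fin N → AlgebraicClosure L),
  finrank (AlgebraicClosure L) Λ₁ ≤ 2 → finrank (AlgebraicClosure L) Λ₂ ≤ 2 →
  (∀ σ : K →ₐ[L] AlgebraicClosure L, pts L (AlgebraicClosure L) x σ ∈ Λ₁ ∨
    pts L (AlgebraicClosure L) x σ ∈ Λ₂) →
  ∃ Λ : Submodule (AlgebraicClosure L) (Fin N → AlgebraicClosure L),
    finrank (AlgebraicClosure L) Λ ≤ 2 ∧
    ∀ σ : K →ₐ[L] AlgebraicClosure L, pts L (AlgebraicClosure L) x σ ∈ Λ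

end Pool.Agent.Helper37K9.SU
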