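import Pool.Agent.Helper37K9.SU.Tw1
import Pool.Agent.Helper37K9.SU.Main
import Pool.Agent.Helper37K9.SU.Space
import Pool.Agent.Helper37K9.SU.Odd

/-!
Towers of degree two: the residual points.
-/

set_option autoImplicit false
set_option linter.overlappingInstances false
set_option linter.unusedSectionVars false

open Module FF Pool.Agent.W602.GT Pool.Agent.Helper37K9.RN

namespace Pool.Agent.Helper37K9.SU

theorem ind_pair {Ω : Type} [Field Ω] {N : ℕ} {u v : Fin N → Ω} {i0 : Fin N} (hu : u i0 = 1)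
    (hv : v i0 = 1) (h : u ≠ v) : LinearIndependent Ω ![u, v] := by
  refine LinearIndependent.pair_iff.2 fun a b hab => ?_
  have h2 := congrFun hab i0
  rw [Pi.add_apply, Pi.smul_apply, Pi.smul_apply, hu, hv, smul_eq_mul, smul_eq_mul, mul_one,
    mul_one, Pi.zero_apply] at h2
  have h3 : b = -a := by linear_combination h2
  subst h3
  by_cases ha : a = 0
  · rw [ha]
    simp
  · exfalso
    apply h
    funext i
    have h4 := congrFun hab i
    rw [Pi.add_apply, Pi.smul_apply, Pi.smul_apply, smul_eq_mul, smul_eq_mul,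
      Pi.zero_apply] at h4
    apply mul_left_cancel₀ ha
    linear_combination h4

section

variable {L E Ω : Type} [Field L] [Field E] [Field Ω] [CharZero L] [Algebra L E] [Algebra E Ω]
  [Algebra L Ω] [IsScalarTower L E Ω] [FiniteDimensional L E] [IsAlgClosed Ω] [Normal L Ω]

theorem exists_g (hE : finrank L E = 2) : ∃ g : Ω ≃ₐ[L] Ω, ∀ e : E →ₐ[L] Ω,
    (∀ y, e y = algebraMap E Ω y) ∨ ∀ y, e y = g (algebraMap E Ω y) := by
  classical
  obtain ⟨e0, he0⟩ : ∃ e0 : E →ₐ[L] Ω, e0 = IsScalarTower.toAlgHom L E Ω := ⟨_, rfl⟩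
  have hcard : Fintype.card (E →ₐ[L] Ω) = 2 := by rw [AlgHom.card L E Ω, hE]
  rw [Fintype.card_eq_nat_card, Nat.card_eq_two_iff' e0] at hcard
  obtain ⟨e1, -, he1⟩ := hcard
  obtain ⟨g, hg⟩ := trans_one e0 e1
  refine ⟨g, fun e => ?_⟩
  by_cases h : e = e0
  · left
    intro y
    rw [h, he0]
    rfl
  · right
    intro y
    rw [he1 e h, ← hg, he0]
    rfl

theorem split {g : Ω ≃ₐ[L] Ω} (hg : ∀ e : E →ₐ[L] Ω,
    (∀ y, e y = algebraMap E Ω y) ∨ ∀ y, e y = g (algebraMap E Ω y)) {A : Type} [Field A]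
    [Algebra L A] [Algebra E A] [IsScalarTower L E A] (τ : A →ₐ[L] Ω) :
    (∃ τ' : A →ₐ[E] Ω, ∀ y, τ y = τ' y) ∨ ∃ τ' : A →ₐ[E] Ω, ∀ y, τ y = g (τ' y) := by
  rcases hg (τ.comp (IsScalarTower.toAlgHom L E A)) with h | h
  · left
    refine ⟨{ (τ : A →+* Ω) with commutes' := fun y => h y }, fun y => rfl⟩
  · right
    refine ⟨{ ((g.symm : Ω →ₐ[L] Ω).comp τ : A →+* Ω) with commutes' := fun y => ?_ }, fun y => ?_⟩
    · have h1 := h y
      change g.symm (τ (algebraMap E A y)) = _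
      change τ (algebraMap E A y) = _ at h1
      rw [h1, AlgEquiv.symm_apply_apply]
    · change τ y = g (g.symm (τ y))
      rw [AlgEquiv.apply_symm_apply]

end

/-- a point of a parametrised line -/
theorem mem_line {Ω : Type} [Field Ω] {N : ℕ} {w : Fin (1 + 1) → Fin N → Ω} {b e : Ω}
    {v : Fin N → Ω} (h : ∀ i, v i = e * ∑ k : Fin (1 + 1), b ^ (k : ℕ) * w k i) :
    v ∈ Submodule.span Ω {w 0, w 1} := by
  rw [Submodule.mem_span_pair]
  refine ⟨e, e * b, ?_⟩
  funext i
  rw [h, Fin.sum_univ_two]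
  simp only [Pi.add_apply, Pi.smul_apply, smul_eq_mul, Fin.val_zero, Fin.val_one, pow_zero,
    pow_one, one_mul]
  ring

theorem mem_conj {L Ω : Type} [Field L] [Field Ω] [Algebra L Ω] (g : Ω ≃ₐ[L] Ω) {N : ℕ}
    {u w v : Fin N → Ω} : (fun i => g (v i)) ∈ Submodule.span Ω {fun i => g (u i), fun i => g (w i)} ↔
      v ∈ Submodule.span Ω {u, w} := by
  rw [Submodule.mem_span_pair, Submodule.mem_span_pair]
  constructor
  · rintro ⟨a, b, h⟩
    refine ⟨g.symm a, g.symm b, ?_⟩
    funext i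
    have h1 := congrArg g.symm (congrFun h i)
    simp only [Pi.add_apply, Pi.smul_apply, smul_eq_mul, map_add, map_mul,
      AlgEquiv.symm_apply_apply] at h1
    exact h1
  · rintro ⟨a, b, h⟩
    refine ⟨g a, g b, ?_⟩
    funext i
    have h1 := congrArg g (congrFun h i)
    simp only [Pi.add_apply, Pi.smul_apply, smul_eq_mul, map_add, map_mul] at h1
    exact h1

section

variable {L E K : Type} [Field L] [Field E] [Field K] [Algebra ℂ L] [Algebra ℂ E] [Algebra ℂ K]
  [Algebra L E] [Algebra L K] [Algebra E K] [IsScalarTower ℂ L E] [IsScalarTower ℂ L K]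
  [IsScalarTower ℂ E K] [IsScalarTower L E K] [FiniteDimensional L K] [FiniteDimensional L E]
  [FiniteDimensional E K] [hessK : Algebra.EssFiniteType ℂ K] {n N m : ℕ}

/-- the residual points of a tower -/
theorem big_of_tower (hRel : StRel) (hK : Algebra.trdeg ℂ K = n) {x : Fin N → K} {i0 : Fin N}
    (hi0 : x i0 = 1) (hgen : IntermediateField.adjoin ℂ (Set.range x) = ⊤)
    {ω : (Fin n → Derivation ℂ K K) → K} (hω : IsPluri 1 ω) (hω0 : ∃ D, ω D ≠ 0)
    (hreg : ∀ (f : Fin m → Fin N) (P : Place ℂ K), Divisorial n P →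
      RegAt P (fun D => (∏ k, x (f k)) * ω D))
    (hpg : ∀ ω : (Fin n → Derivation ℂ L L) → L, IsPluri 1 ω →
      (∀ P : Place ℂ L, Divisorial n P → RegAt P ω) → ∀ D, ω D = 0) (hm : 1 ≤ m)
    (hE : finrank L E = 2)
    (hnc : ∃ σ : Fin 3 → (K →ₐ[L] AlgebraicClosure L), LinearIndependent (AlgebraicClosure L)
      fun k => pts L (AlgebraicClosure L) x (σ k))
    (L' : Type) [Field L'] [Algebra ℂ L'] [Algebra E L'] [IsScalarTower ℂ E L']
    [FiniteDimensional E L'] [IsGalois E L'] (D : Rnc L' (pts E L' x) 1)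
    (hcard : Fintype.card (K →ₐ[E] L') = finrank E K) : Big E L' K x D.w m := by
  classical
  intro K'' _ _ _ _ _ _ _ _ ψ hline
  by_contra hcon
  push Not at hcon
  let _ : Algebra L K'' := ((algebraMap E K'').comp (algebraMap L E)).toAlgebra
  have hst1 : IsScalarTower L E K'' := IsScalarTower.of_algebraMap_eq fun _ => rfl
  have hst2 : IsScalarTower ℂ L K'' := IsScalarTower.of_algebraMap_eq fun c => by
    rw [IsScalarTower.algebraMap_apply ℂ E K'', IsScalarTower.algebraMap_apply ℂ L E]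
    rfl
  have hfin : FiniteDimensional L K'' := Module.Finite.trans E K''
  have hcL : CharZero L := charZero_of_injective_algebraMap (algebraMap ℂ L).injective
  have hcE : CharZero E := charZero_of_injective_algebraMap (algebraMap ℂ E).injective
  have hcΩ : CharZero (AlgebraicClosure K'') :=
    charZero_of_injective_algebraMap (algebraMap ℂ (AlgebraicClosure K'')).injective
  have hinf : Infinite (AlgebraicClosure K'') := IsAlgClosed.instInfinite
  have halg : Algebra.IsAlgebraic L (AlgebraicClosure K'') :=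
    Algebra.IsAlgebraic.trans L K'' (AlgebraicClosure K'')
  have hcl : IsAlgClosure L (AlgebraicClosure K'') := ⟨inferInstance, halg⟩
  have hnorm : Normal L (AlgebraicClosure K'') := IsAlgClosure.normal L _
  -- the field generated over `L` by the residual point
  obtain ⟨K0, hK0⟩ : ∃ K0 : IntermediateField L K'',
    K0 = IntermediateField.adjoin L (Set.range fun i => ψ (x i)) := ⟨_, rfl⟩
  have hxK0 : ∀ i, ψ (x i) ∈ K0 := fun i => by
    rw [hK0]
    exact IntermediateField.subset_adjoin L _ ⟨i, rfl⟩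
  have hψK0 : ∀ y, ψ y ∈ K0 := by
    intro y
    have h1 : y ∈ IntermediateField.adjoin ℂ (Set.range x) := by
      rw [hgen]
      trivial
    have h2 : IntermediateField.adjoin ℂ (Set.range x) ≤ (K0.restrictScalars ℂ).comap ψ := by
      rw [IntermediateField.adjoin_le_iff]
      rintro _ ⟨i, rfl⟩
      exact hxK0 i
    exact h2 h1
  obtain ⟨ψ0, hψ0⟩ : ∃ ψ0 : K →ₐ[ℂ] K0, ∀ y, (ψ0 y : K'') = ψ y :=
    ⟨AlgHom.codRestrict ψ (K0.restrictScalars ℂ).toSubalgebra hψK0, fun _ => rfl⟩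
  let _ : Algebra K K0 := ψ0.toAlgebra
  have hst : IsScalarTower ℂ K K0 := IsScalarTower.of_algebraMap_eq fun c => (ψ0.commutes c).symm
  have hessL : Algebra.EssFiniteType ℂ L := Pool.Agent.TH466.QG.ess_below (K := K)
  have hL : Algebra.trdeg ℂ L = n := Pool.Agent.Y184.NT.trdeg_below (K := K) hK
  have hstK0 : IsScalarTower ℂ L K0 := inferInstance
  have hess0 : Algebra.EssFiniteType ℂ K0 := Algebra.EssFiniteType.comp ℂ L K0
  have htr0 : Algebra.trdeg ℂ K0 = n := Pool.Agent.Y172.trdeg_up (K := L) hL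
  have hfin0 : FiniteDimensional K K0 := Pool.Agent.Helper37K9.CI.finite_of_trdeg hK htr0
  obtain ⟨c, hc, hrel⟩ := hRel K K0 L (AlgebraicClosure K'') n N m x hK ω hω hω0 hreg hpg
  obtain ⟨z, hz⟩ : ∃ z : (K0 →ₐ[L] AlgebraicClosure K'') → Fin N → AlgebraicClosure K'',
    z = fun τ i => τ (algebraMap K K0 (x i)) := ⟨_, rfl⟩
  have hz1 : ∀ τ, z τ i0 = 1 := by
    intro τ
    rw [hz]
    change τ (algebraMap K K0 (x i0)) = 1
    rw [hi0, map_one, map_one]
  have hzinj : ∀ τ τ', z τ = z τ' → τ = τ' := by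
    intro τ τ' h
    refine IntermediateField.algHom_ext_of_eq_adjoin L hK0 ?_
    rintro _ ⟨i, rfl⟩
    have h4 := congrFun h i
    rw [hz] at h4
    have h6 : (⟨ψ (x i), hxK0 i⟩ : K0) = algebraMap K K0 (x i) := Subtype.ext (hψ0 (x i)).symm
    change τ ⟨ψ (x i), hxK0 i⟩ = τ' ⟨ψ (x i), hxK0 i⟩
    rw [h6]
    exact h4
  have hind : ∀ τ τ', τ ≠ τ' → LinearIndependent (AlgebraicClosure K'') ![z τ, z τ'] :=
    fun τ τ' h => ind_pair (hz1 τ) (hz1 τ') fun h1 => h (hzinj τ τ' h1)
  have hR : Rel m (Finset.univ : Finset (K0 →ₐ[L] AlgebraicClosure K'')) z c := by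
    refine ⟨fun τ _ => hc τ, fun τ _ h0 => ?_, fun τ _ τ' _ h => hind τ τ' h, fun l => ?_⟩
    · have h1 := hz1 τ
      rw [h0] at h1
      exact zero_ne_one h1
    · obtain ⟨P, hP, hPe⟩ := prod_lin l
      have h2 := hrel P hP
      simp only [hPe] at h2
      rw [hz]
      exact h2
  -- the extensions of the embeddings
  have hext : ∀ τ : K0 →ₐ[L] AlgebraicClosure K'', ∃ τ' : K'' →ₐ[L] AlgebraicClosure K'',
      ∀ i, τ' (ψ (x i)) = z τ i := by
    intro τ
    obtain ⟨τ', hτ'⟩ := IntermediateField.exists_algHom_of_splits (F := L) (E := K'')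
      (K := AlgebraicClosure K'') (fun y => ⟨Algebra.IsIntegral.isIntegral y,
        IsAlgClosed.splits _⟩) τ
    refine ⟨τ', fun i => ?_⟩
    have h1 := DFunLike.congr_fun hτ' (algebraMap K K0 (x i))
    rw [hz, ← hψ0]
    exact h1
  choose ext hext using hext
  obtain ⟨g, hg⟩ := exists_g (L := L) (E := E) (Ω := AlgebraicClosure K'') hE
  -- the two lines
  obtain ⟨w, hw⟩ : ∃ w : Fin (1 + 1) → Fin N → AlgebraicClosure K'',
    w = fun k i => algebraMap L' (AlgebraicClosure K'') (D.w k i) := ⟨_, rfl⟩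
  obtain ⟨Λ, hΛ⟩ : ∃ Λ, Λ = Submodule.span (AlgebraicClosure K'') {w 0, w 1} := ⟨_, rfl⟩
  obtain ⟨Λ', hΛ'⟩ : ∃ Λ, Λ = Submodule.span (AlgebraicClosure K'')
    {fun i => g (w 0 i), fun i => g (w 1 i)} := ⟨_, rfl⟩
  have hΛ2 : finrank (AlgebraicClosure K'') Λ ≤ 2 := by
    rw [hΛ]
    exact finrank_pair _ _
  have hΛ2' : finrank (AlgebraicClosure K'') Λ' ≤ 2 := by
    rw [hΛ']
    exact finrank_pair _ _
  have hgΛ : ∀ v : Fin N → AlgebraicClosure K'', (fun i => g (v i)) ∈ Λ' ↔ v ∈ Λ := by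
    intro v
    rw [hΛ, hΛ']
    exact mem_conj g
  have hlin : ∀ τ : K'' →ₐ[E] AlgebraicClosure K'', (fun i => τ (ψ (x i))) ∈ Λ := by
    intro τ
    obtain ⟨b, e, h⟩ := hline τ
    rw [hΛ]
    refine mem_line (b := b) (e := e) fun i => ?_
    rw [h i, hw]
  -- few points are outside of the second line
  have hT : ∀ τ, z τ ∉ Λ' → ∃ τ' : K'' →ₐ[E] AlgebraicClosure K'', ∀ i, τ' (ψ (x i)) = z τ i := by
    intro τ hτ
    rcases split hg (ext τ) with ⟨τ', h⟩ | ⟨τ', h⟩
    · exact ⟨τ', fun i => by rw [← h, hext]⟩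
    · exfalso
      apply hτ
      have h1 := (hgΛ _).2 (hlin τ')
      have h2 : (fun i => g (τ' (ψ (x i)))) = z τ := by
        funext i
        rw [← h, hext]
      rw [h2] at h1
      exact h1
  obtain ⟨m, rfl⟩ : ∃ k, m = k + 1 := ⟨m - 1, by omega⟩
  obtain ⟨c', hc'⟩ := rel_sub hR Λ'
  obtain ⟨T, hTd⟩ : ∃ T : Finset (K0 →ₐ[L] AlgebraicClosure K''),
    T = Finset.univ.filter fun τ => z τ ∉ Λ' := ⟨_, rfl⟩
  rw [← hTd] at hc'
  have hTcard : T.card ≤ m + 1 := by
    have h1 : ∀ τ : T, ∃ τ' : K'' →ₐ[E] AlgebraicClosure K'', ∀ i, τ' (ψ (x i)) = z τ i := by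
      rintro ⟨τ, hτ⟩
      rw [hTd, Finset.mem_filter] at hτ
      exact hT τ hτ.2
    choose f hf using h1
    obtain ⟨KE, hKE⟩ : ∃ KE : IntermediateField E K'',
      KE = IntermediateField.adjoin E (Set.range fun i => ψ (x i)) := ⟨_, rfl⟩
    have hfinKE : FiniteDimensional E KE := inferInstance
    have h2 : Fintype.card (KE →ₐ[E] AlgebraicClosure K'') = finrank E KE := AlgHom.card E KE _
    rw [← hKE, ← h2] at hcon
    refine le_trans ?_ hcon
    rw [← Fintype.card_coe]
    refine Fintype.card_le_of_injective (fun τ => (f τ).comp KE.val) fun τ τ' h => ?_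
    apply Subtype.ext
    apply hzinj
    funext i
    have h3 : ψ (x i) ∈ KE := by
      rw [hKE]
      exact IntermediateField.subset_adjoin E _ ⟨i, rfl⟩
    have h4 := DFunLike.congr_fun h ⟨ψ (x i), h3⟩
    rw [← hf, ← hf]
    exact h4
  have hall' : ∀ τ, z τ ∈ Λ' := by
    intro τ
    by_contra hτ
    have h1 := rel_card hc' ⟨τ, by rw [hTd]; exact Finset.mem_filter.2 ⟨Finset.mem_univ _, hτ⟩⟩
    omega
  have hall : ∀ τ, z τ ∈ Λ := by
    intro τ
    rw [← hgΛ]
    have h1 := hall' ((g : AlgebraicClosure K'' →ₐ[L] AlgebraicClosure K'').comp τ)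
    have h2 : z ((g : AlgebraicClosure K'' →ₐ[L] AlgebraicClosure K'').comp τ) =
        fun i => g (z τ i) := by
      rw [hz]
      rfl
    rw [h2] at h1
    exact h1
  -- the two lines are equal
  have hΛΛ : Λ = Λ' := by
    have h0 : Nonempty (K0 →ₐ[L] AlgebraicClosure K'') :=
      ⟨(IsScalarTower.toAlgHom L K'' (AlgebraicClosure K'')).comp K0.val⟩
    have h1 := rel_card hR ⟨h0.some, Finset.mem_univ _⟩
    obtain ⟨τ, -, τ', -, hττ⟩ := Finset.one_lt_card.1
      (show 1 < (Finset.univ : Finset (K0 →ₐ[L] AlgebraicClosure K'')).card by omega)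
    rw [← span_pair hind hττ hΛ2 (hall τ) (hall τ'),
      ← span_pair hind hττ hΛ2' (hall' τ) (hall' τ')]
  -- all conjugates of the generic point are on the line
  have hKΛ : ∀ σ : K →ₐ[E] AlgebraicClosure K'', (fun i => σ (x i)) ∈ Λ := by
    intro σ
    have hinj : Function.Injective fun σ' : K →ₐ[E] L' =>
        (IsScalarTower.toAlgHom E L' (AlgebraicClosure K'')).comp σ' := by
      intro σ1 σ2 h
      ext y
      exact (algebraMap L' (AlgebraicClosure K'')).injective (DFunLike.congr_fun h y)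
    have hbij := (Fintype.bijective_iff_injective_and_card _).2 ⟨hinj, by
      rw [hcard, AlgHom.card E K (AlgebraicClosure K'')]⟩
    obtain ⟨σ', hσ'⟩ := hbij.2 σ
    rw [hΛ]
    refine mem_line (b := algebraMap L' (AlgebraicClosure K'') (D.t σ'))
      (e := algebraMap L' (AlgebraicClosure K'') (D.c σ')) fun i => ?_
    rw [← hσ']
    change algebraMap L' (AlgebraicClosure K'') (σ' (x i)) = _
    have h1 : σ' (x i) = D.c σ' * ∑ k : Fin (1 + 1), D.t σ' ^ (k : ℕ) * D.w k i := D.eq σ' i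
    rw [h1, map_mul, map_sum, hw]
    congr 1
    refine Finset.sum_congr rfl fun k _ => ?_
    rw [map_mul, map_pow]
  have hLΛ : ∀ σ : K →ₐ[L] AlgebraicClosure K'', (fun i => σ (x i)) ∈ Λ := by
    intro σ
    rcases split hg σ with ⟨σ', h⟩ | ⟨σ', h⟩
    · have h1 := hKΛ σ'
      have h2 : (fun i => σ (x i)) = fun i => σ' (x i) := funext fun i => h (x i)
      rw [h2]
      exact h1
    · have h1 := (hgΛ _).2 (hKΛ σ')
      have h2 : (fun i => σ (x i)) = fun i => g (σ' (x i)) := funext fun i => h (x i)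
      rw [h2, hΛΛ]
      exact h1
  obtain ⟨σ, hσ⟩ := hnc
  obtain ⟨j⟩ : Nonempty (AlgebraicClosure L →ₐ[L] AlgebraicClosure K'') := ⟨IsAlgClosed.lift⟩
  have h3 := ind_ext (j : AlgebraicClosure L →+* AlgebraicClosure K'') hσ
  have h4 := finrank_span_eq_card h3
  rw [Fintype.card_fin] at h4
  have h5 : Submodule.span (AlgebraicClosure K'') (Set.range fun (k : Fin 3) i =>
      (j : AlgebraicClosure L →+* AlgebraicClosure K'')
        (pts L (AlgebraicClosure L) x (σ k) i)) ≤ Λ := by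
    rw [Submodule.span_le]
    rintro _ ⟨k, rfl⟩
    exact hLΛ (j.comp (σ k))
  have h6 := Submodule.finrank_mono h5
  omega

end

end Pool.Agent.Helper37K9.SU
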